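import Mathlib
import Pool.Agent.Y359.PE.Ent

/-!
# The entropy of a sum of two independent variables which are mostly zero
-/

set_option autoImplicit false

namespace Pool.Agent.Y359.PE

open Finset
open scoped Classical

variable {α β M : Type*}

/-- the entropy from weights -/
lemma h_ge_w (S : Finset α) {γ : Type*} (z : α → γ) (w : α → ℝ) (hw : ∀ x ∈ S, 0 < w x)
    (h1 : ∀ x ∈ S, ∑ y ∈ cl S z x, w y ≤ 1) :
    (∑ x ∈ S, (Real.log S.card + Real.log (w x))) / S.card ≤ h S z := by
  have h2 := gibbs S z w hw h1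
  unfold h
  refine div_le_div_of_nonneg_right ?_ (by positivity)
  rw [sum_add_distrib, sum_sub_distrib]
  rw [sum_neg_distrib] at h2
  linarith

/-- the classes of a function of the two coordinates -/
lemma sum_cl_prod (G : Finset α) (G' : Finset β) {γ : Type*} (z : α → β → γ) (t : γ)
    (F : α → β → ℝ) (x : α × β) (ht : z x.1 x.2 = t) :
    ∑ y ∈ cl (G ×ˢ G') (fun x => z x.1 x.2) x, F y.1 y.2 =
      ∑ g ∈ G, ∑ g' ∈ G', if z g g' = t then F g g' else 0 := by
  unfold cl
  rw [sum_filter, sum_product]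
  simp only [ht]

variable [AddCommGroup M]

lemma cell_left (G : Finset α) (G' : Finset β) (hG' : G'.Nonempty) (a : α → M) (b : β → M) :
    h G a ≤ h (G ×ˢ G') (fun x => a x.1 + b x.2) := by
  rcases G.eq_empty_or_nonempty with h0 | hG
  · rw [h0]
    unfold h
    simp
  have hN : (0 : ℝ) < G.card := by exact_mod_cast card_pos.2 hG
  have hN' : (0 : ℝ) < G'.card := by exact_mod_cast card_pos.2 hG'
  have key := h_ge_w (G ×ˢ G') (fun x => a x.1 + b x.2)
    (fun x => 1 / ((fc G a x.1 : ℝ) * G'.card)) (fun x hx => by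
      have := fc_posR (f := a) (mem_product.1 hx).1
      positivity) (fun x hx => by
      rw [sum_cl_prod G G' (fun g g' => a g + b g') _ (fun g _ => 1 / ((fc G a g : ℝ) * G'.card))
        x rfl, sum_comm]
      have e1 : ∀ g' ∈ G', (∑ g ∈ G, if a g + b g' = a x.1 + b x.2 then
          1 / ((fc G a g : ℝ) * G'.card) else 0) ≤ 1 / G'.card := by
        intro g' _
        rw [← sum_filter]
        have e2 : ∀ g ∈ G.filter (fun g => a g + b g' = a x.1 + b x.2),
            1 / ((fc G a g : ℝ) * G'.card) = (1 / fc G a g) * (1 / G'.card) := by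
          intro g _
          rw [one_div_mul_one_div]
        rw [sum_congr rfl e2, ← sum_mul]
        have e3 := sum_inv_le G a (G.filter (fun g => a g + b g' = a x.1 + b x.2))
          (filter_subset _ _) (by
            intro u hu v hv
            rw [mem_filter] at hu hv
            have := hu.2.trans hv.2.symm
            exact add_right_cancel this)
        have e4 : (0 : ℝ) ≤ 1 / G'.card := by positivity
        nlinarith
      refine (sum_le_sum e1).trans ?_
      rw [sum_const, nsmul_eq_mul, mul_one_div, div_self hN'.ne'])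
  refine le_trans (le_of_eq ?_) key
  rw [card_product, sum_product]
  unfold h
  have e5 : ∀ g ∈ G, ∑ g' ∈ G', (Real.log ((G.card * G'.card : ℕ) : ℝ) +
      Real.log (1 / ((fc G a g : ℝ) * G'.card))) =
      G'.card * (Real.log G.card - Real.log (fc G a g)) := by
    intro g hg
    have h3 := fc_posR (f := a) hg
    rw [sum_const, nsmul_eq_mul]
    congr 1
    push_cast
    rw [Real.log_mul hN.ne' hN'.ne', Real.log_div one_ne_zero (by positivity), Real.log_one,
      Real.log_mul h3.ne' hN'.ne']
    ring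
  rw [sum_congr rfl e5, ← mul_sum]
  push_cast
  field_simp

/-- swapping the coordinates -/
lemma h_swap (G : Finset α) (G' : Finset β) {γ : Type*} (z : α → β → γ) :
    h (G ×ˢ G') (fun x => z x.1 x.2) = h (G' ×ˢ G) (fun x => z x.2 x.1) := by
  have e1 : ∀ g ∈ G, ∀ g' ∈ G', fc (G ×ˢ G') (fun x => z x.1 x.2) (g, g') =
      fc (G' ×ˢ G) (fun x => z x.2 x.1) (g', g) := by
    intro g _ g' _
    unfold fc
    refine card_bij (fun x _ => (x.2, x.1)) ?_ ?_ ?_
    · intro x hx
      rw [mem_cl] at hx ⊢
      exact ⟨mem_product.2 ⟨(mem_product.1 hx.1).2, (mem_product.1 hx.1).1⟩, hx.2⟩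
    · rintro ⟨x1, x2⟩ _ ⟨y1, y2⟩ _ hxy
      simp only [Prod.mk.injEq] at hxy ⊢
      exact ⟨hxy.2, hxy.1⟩
    · rintro ⟨x1, x2⟩ hx
      rw [mem_cl] at hx
      exact ⟨(x2, x1), mem_cl.2 ⟨mem_product.2 ⟨(mem_product.1 hx.1).2, (mem_product.1 hx.1).1⟩,
        hx.2⟩, rfl⟩
  unfold h
  rw [card_product, card_product, sum_product, sum_product_right, mul_comm G.card]
  congr 1
  refine sum_congr rfl fun g hg => sum_congr rfl fun g' hg' => ?_
  rw [e1 g hg g' hg']

lemma cell_right (G : Finset α) (G' : Finset β) (hG : G.Nonempty) (a : α → M) (b : β → M) :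
    h G' b ≤ h (G ×ˢ G') (fun x => a x.1 + b x.2) := by
  have h1 := cell_left G' G hG b a
  have h2 := h_swap G G' (fun x y => a x + b y)
  refine h1.trans (le_of_eq ?_)
  rw [h2]
  congr 1
  funext x
  exact add_comm _ _

/-- the number of nonzero values -/
noncomputable def nz (G : Finset α) (a : α → M) : ℕ := (G.filter fun g => a g ≠ 0).card

lemma fc_le_nz {G : Finset α} {a : α → M} {g : α} (hg0 : a g ≠ 0) :
    fc G a g ≤ nz G a := by
  unfold fc nz
  refine card_le_card fun y hy => ?_
  rw [mem_cl] at hy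
  rw [mem_filter, hy.2]
  exact ⟨hy.1, hg0⟩

/-- a bound for the entropy from below -/
lemma sum_nz_le (G : Finset α) (a : α → M) :
    (nz G a : ℝ) * (Real.log G.card - Real.log (nz G a)) ≤
      ∑ g ∈ G, (if a g ≠ 0 then Real.log G.card - Real.log (fc G a g) else 0) := by
  rw [← sum_filter]
  have e1 : (nz G a : ℝ) * (Real.log G.card - Real.log (nz G a)) =
      ∑ g ∈ G.filter (fun g => a g ≠ 0), (Real.log G.card - Real.log (nz G a)) := by
    rw [sum_const, nsmul_eq_mul]
    rfl
  rw [e1]
  refine sum_le_sum fun g hg => ?_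
  rw [mem_filter] at hg
  have h1 : (fc G a g : ℝ) ≤ nz G a := by exact_mod_cast fc_le_nz hg.2
  have h2 := Real.log_le_log (fc_posR hg.1) h1
  linarith

lemma sum_ite_le (G : Finset α) (a : α → M) (hG : G.Nonempty) :
    ∑ g ∈ G, (if a g ≠ 0 then Real.log G.card - Real.log (fc G a g) else 0) ≤
      G.card * h G a := by
  have hN : (0 : ℝ) < G.card := by exact_mod_cast card_pos.2 hG
  have e1 : (G.card : ℝ) * h G a = ∑ g ∈ G, (Real.log G.card - Real.log (fc G a g)) := by
    unfold h
    rw [mul_div_cancel₀ _ hN.ne']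
  rw [e1]
  refine sum_le_sum fun g hg => ?_
  split_ifs with h1
  · exact le_rfl
  · have h2 : (fc G a g : ℝ) ≤ G.card := by exact_mod_cast fc_le
    have h3 := Real.log_le_log (fc_posR hg) h2
    linarith

lemma nz_log_le (G : Finset α) (a : α → M) (hG : G.Nonempty) {θ : ℝ} (hθ : 0 < θ)
    (h1 : (nz G a : ℝ) ≤ θ * G.card) : (nz G a : ℝ) * Real.log (1 / θ) ≤ G.card * h G a := by
  have hN : (0 : ℝ) < G.card := by exact_mod_cast card_pos.2 hG
  rcases Nat.eq_zero_or_pos (nz G a) with h0 | h0
  · rw [h0]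
    have := h_nonneg G a
    push_cast
    nlinarith
  · have hP : (0 : ℝ) < nz G a := by exact_mod_cast h0
    refine le_trans ?_ ((sum_nz_le G a).trans (sum_ite_le G a hG))
    refine mul_le_mul_of_nonneg_left ?_ hP.le
    have h2 := Real.log_le_log hP h1
    rw [Real.log_mul hθ.ne' hN.ne'] at h2
    rw [Real.log_div one_ne_zero hθ.ne', Real.log_one]
    linarith

lemma sum_eval (G : Finset α) (G' : Finset β) (A1 : α → ℝ) (B1 : β → ℝ) (u : α → ℝ) (v : β → ℝ)
    (w : α → ℝ) (r l c : ℝ) :
    ∑ g ∈ G, ∑ g' ∈ G', (A1 g + B1 g' - (2 * r + l * (u g + v g') + v g' * w g +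
      (u g * v g') * c)) =
    G'.card * (∑ g ∈ G, A1 g) + G.card * (∑ g' ∈ G', B1 g') - (G.card * G'.card * (2 * r) +
      l * ((∑ g ∈ G, u g) * G'.card + G.card * (∑ g' ∈ G', v g')) +
      (∑ g' ∈ G', v g') * (∑ g ∈ G, w g) + (∑ g ∈ G, u g) * ((∑ g' ∈ G', v g') * c)) := by
  have inner : ∀ g ∈ G, ∑ g' ∈ G', (A1 g + B1 g' - (2 * r + l * (u g + v g') + v g' * w g +
      (u g * v g') * c)) = G'.card * A1 g + (∑ g' ∈ G', B1 g' - G'.card * (2 * r) -
      l * ∑ g' ∈ G', v g') - (l * G'.card + (∑ g' ∈ G', v g') * c) * u g -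
      (∑ g' ∈ G', v g') * w g := by
    intro g _
    have e : ∀ g' ∈ G', (A1 g + B1 g' - (2 * r + l * (u g + v g') + v g' * w g +
      (u g * v g') * c)) = (A1 g - 2 * r - l * u g) + B1 g' - v g' * (l + w g + u g * c) := by
      intro g' _
      ring
    rw [sum_congr rfl e, sum_sub_distrib, sum_add_distrib, sum_const, nsmul_eq_mul, ← sum_mul]
    ring
  rw [sum_congr rfl inner, sum_sub_distrib, sum_sub_distrib, sum_add_distrib, ← mul_sum, ← mul_sum,
    ← mul_sum, sum_const, nsmul_eq_mul]
  ring

/-- **The main inequality**: if both variables are nonzero with probability at most `θ ≤ 1/3`, the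
entropy of the sum is at least `1 - 2 / log (1/θ)` times the sum of the entropies. -/
lemma cell_main (G : Finset α) (G' : Finset β) (hG : G.Nonempty) (hG' : G'.Nonempty)
    (a : α → M) (b : β → M) {θ : ℝ} (hθ : 0 < θ) (hθ1 : θ ≤ 1 / 3)
    (h1 : (nz G a : ℝ) ≤ θ * G.card) (h2 : (nz G' b : ℝ) ≤ θ * G'.card) :
    (1 - 2 / Real.log (1 / θ)) * (h G a + h G' b) ≤ h (G ×ˢ G') (fun x => a x.1 + b x.2) := by
  have hN : (0 : ℝ) < G.card := by exact_mod_cast card_pos.2 hG
  have hN' : (0 : ℝ) < G'.card := by exact_mod_cast card_pos.2 hG'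
  set N : ℝ := (G.card : ℝ) with hNd
  set N' : ℝ := (G'.card : ℝ) with hNd'
  set P : ℝ := (nz G a : ℝ) with hPd
  set P' : ℝ := (nz G' b : ℝ) with hPd'
  have hP0 : 0 ≤ P := by positivity
  have hP0' : 0 ≤ P' := by positivity
  have hPN : P ≤ N / 3 := by nlinarith only [h1, hθ1, hN]
  have hPN' : P' ≤ N' / 3 := by nlinarith only [h2, hθ1, hN']
  -- the product of the two probabilities
  have hpp : P * P' / (N * N') ≤ 1 / 9 := by
    rw [div_le_iff₀ (by positivity)]
    nlinarith only [mul_le_mul hPN hPN' hP0' (show 0 ≤ N / 3 by positivity)]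
  have hpp0 : 0 ≤ P * P' / (N * N') := by positivity
  set ρ : ℝ := P * P' / (N * N') with hρ
  -- the weights
  let q : α → β → ℝ := fun g g' =>
    if a g = 0 then (if b g' = 0 then 1 - ρ else 1 / 3)
    else (if b g' = 0 then 1 / 3 else (fc G a g : ℝ) * P' / (N * N'))
  have hPpos : ∀ g' ∈ G', b g' ≠ 0 → 0 < P' := by
    intro g' hg' c2
    rw [hPd']
    have : 0 < nz G' b := card_pos.2 ⟨g', mem_filter.2 ⟨hg', c2⟩⟩
    exact_mod_cast this
  have hPpos0 : ∀ g ∈ G, a g ≠ 0 → 0 < P := by
    intro g hg c2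
    rw [hPd]
    have : 0 < nz G a := card_pos.2 ⟨g, mem_filter.2 ⟨hg, c2⟩⟩
    exact_mod_cast this
  have hq0 : ∀ g ∈ G, ∀ g' ∈ G', 0 < q g g' := by
    intro g hg g' hg'
    have h3 := fc_posR (f := a) hg
    simp only [q]
    split_ifs with c1 c2 c2
    · linarith
    · norm_num
    · norm_num
    · have h4 := hPpos g' hg' c2
      positivity
  -- the inner sums
  have hrow : ∀ t : M, ∀ g ∈ G, (∑ g' ∈ G', if a g + b g' = t then
      q g g' / ((fc G a g : ℝ) * fc G' b g') else 0) ≤
      (if a g = 0 then (if t = 0 then 1 - ρ else 1 / 3) * (1 / (fc G a g : ℝ)) else 0) +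
      (if a g = t ∧ a g ≠ 0 then 1 / 3 * (1 / (fc G a g : ℝ)) else 0) +
      (if a g ≠ 0 then P' / (N * N') else 0) := by
    intro t g hg
    have h3 := fc_posR (f := a) hg
    rw [← sum_filter]
    have e1 := sum_inv_le G' b (G'.filter (fun g' => a g + b g' = t)) (filter_subset _ _) (by
      intro u hu v hv
      rw [mem_filter] at hu hv
      exact add_left_cancel (hu.2.trans hv.2.symm))
    -- a common value of the weight
    have gen : ∀ c : ℝ, 0 ≤ c → (∀ g' ∈ G'.filter (fun g' => a g + b g' = t), q g g' = c) →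
        ∑ g' ∈ G'.filter (fun g' => a g + b g' = t),
          q g g' / ((fc G a g : ℝ) * fc G' b g') ≤ c * (1 / (fc G a g : ℝ)) := by
      intro c hc hq
      have e2 : ∀ g' ∈ G'.filter (fun g' => a g + b g' = t),
          q g g' / ((fc G a g : ℝ) * fc G' b g') =
          (c * (1 / (fc G a g : ℝ))) * (1 / (fc G' b g' : ℝ)) := by
        intro g' hg'
        rw [hq g' hg', one_div, one_div, div_eq_mul_inv, mul_inv]
        ring
      rw [sum_congr rfl e2, ← mul_sum]
      have e3 : 0 ≤ c * (1 / (fc G a g : ℝ)) := by positivity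
      nlinarith only [e1, e3]
    have hPN0 : 0 ≤ P' / (N * N') := by positivity
    by_cases c1 : a g = 0
    · have c3 : ¬ (a g = t ∧ a g ≠ 0) := fun hh => hh.2 c1
      rw [if_pos c1, if_neg c3, if_neg (not_not.2 c1), add_zero, add_zero]
      by_cases ct : t = 0
      · rw [if_pos ct]
        refine gen _ (by linarith) ?_
        intro g' hg'
        have hb : b g' = 0 := by
          have := (mem_filter.1 hg').2
          rw [c1, zero_add, ct] at this
          exact this
        simp only [q]
        rw [if_pos c1, if_pos hb]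
      · rw [if_neg ct]
        refine gen _ (by norm_num) ?_
        intro g' hg'
        have hb : b g' ≠ 0 := by
          have := (mem_filter.1 hg').2
          rw [c1, zero_add] at this
          rw [this]
          exact ct
        simp only [q]
        rw [if_pos c1, if_neg hb]
    · rw [if_neg c1, if_pos (show a g ≠ 0 from c1), zero_add]
      by_cases ct : a g = t
      · rw [if_pos ⟨ct, c1⟩]
        have := gen (1 / 3) (by norm_num) (by
          intro g' hg'
          have hb : b g' = 0 := by
            have := (mem_filter.1 hg').2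
            rw [ct] at this
            exact add_eq_left.1 this
          simp only [q]
          rw [if_neg c1, if_pos hb])
        linarith
      · have c3 : ¬ (a g = t ∧ a g ≠ 0) := fun hh => ct hh.1
        rw [if_neg c3, zero_add]
        have := gen ((fc G a g : ℝ) * P' / (N * N')) (by positivity) (by
          intro g' hg'
          have hb : b g' ≠ 0 := by
            have h5 := (mem_filter.1 hg').2
            intro h6
            rw [h6, add_zero] at h5
            exact ct h5
          simp only [q]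
          rw [if_neg c1, if_neg hb])
        refine this.trans (le_of_eq ?_)
        field_simp
  have hfib : ∀ t : M, (∑ g ∈ G, ∑ g' ∈ G', if a g + b g' = t then
      q g g' / ((fc G a g : ℝ) * fc G' b g') else 0) ≤ 1 := by
    intro t
    refine (sum_le_sum (hrow t)).trans ?_
    rw [sum_add_distrib, sum_add_distrib]
    have s1 : ∑ g ∈ G, (if a g = 0 then (if t = 0 then 1 - ρ else 1 / 3) *
        (1 / (fc G a g : ℝ)) else 0) ≤ (if t = 0 then 1 - ρ else 1 / 3) := by
      rw [← sum_filter, ← mul_sum]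
      have e1 := sum_inv_le G a (G.filter fun g => a g = 0) (filter_subset _ _) (by
        intro u hu v hv
        exact (mem_filter.1 hu).2.trans (mem_filter.1 hv).2.symm)
      have e2 : (0 : ℝ) ≤ (if t = 0 then 1 - ρ else 1 / 3) := by
        split_ifs
        · linarith
        · norm_num
      nlinarith only [e1, e2]
    have s3 : ∑ g ∈ G, (if a g ≠ 0 then P' / (N * N') else 0) = ρ := by
      rw [← sum_filter, sum_const, nsmul_eq_mul]
      change P * (P' / (N * N')) = _
      rw [hρ]
      ring
    by_cases ct : t = 0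
    · have s2 : ∑ g ∈ G, (if a g = t ∧ a g ≠ 0 then 1 / 3 * (1 / (fc G a g : ℝ)) else 0) = 0 := by
        refine sum_eq_zero fun g _ => if_neg ?_
        rintro ⟨c1, c2⟩
        exact c2 (c1.trans ct)
      have hcc : (if t = 0 then 1 - ρ else 1 / 3 : ℝ) = 1 - ρ := if_pos ct
      rw [s2, s3]
      linarith
    · have s2 : ∑ g ∈ G, (if a g = t ∧ a g ≠ 0 then 1 / 3 * (1 / (fc G a g : ℝ)) else 0) ≤
          1 / 3 := by
        rw [← sum_filter, ← mul_sum]
        have e1 := sum_inv_le G a (G.filter fun g => a g = t ∧ a g ≠ 0) (filter_subset _ _) (by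
          intro u hu v hv
          exact (mem_filter.1 hu).2.1.trans (mem_filter.1 hv).2.1.symm)
        linarith
      have hcc : (if t = 0 then 1 - ρ else 1 / 3 : ℝ) = 1 / 3 := if_neg ct
      rw [s3]
      linarith
  have key := h_ge_w (G ×ˢ G') (fun x => a x.1 + b x.2)
    (fun x => q x.1 x.2 / ((fc G a x.1 : ℝ) * fc G' b x.2)) (fun x hx => by
      have h3 := fc_posR (f := a) (mem_product.1 hx).1
      have h4 := fc_posR (f := b) (mem_product.1 hx).2
      have h5 := hq0 _ (mem_product.1 hx).1 _ (mem_product.1 hx).2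
      positivity) (fun x hx => by
      rw [sum_cl_prod G G' (fun g g' => a g + b g') _
        (fun g g' => q g g' / ((fc G a g : ℝ) * fc G' b g')) x rfl]
      exact hfib _)
  refine le_trans ?_ key
  have hcard : (((G ×ˢ G').card : ℕ) : ℝ) = N * N' := by
    rw [card_product]
    push_cast
    rfl
  rw [hcard, le_div_iff₀ (by positivity), sum_product]
  -- the loss
  let ug : α → ℝ := fun g => if a g ≠ 0 then 1 else 0
  let vg : β → ℝ := fun g' => if b g' ≠ 0 then 1 else 0
  have hloss : ∀ g ∈ G, ∀ g' ∈ G', Real.log N - Real.log (fc G a g) +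
      (Real.log N' - Real.log (fc G' b g')) -
      (2 * ρ + Real.log 3 * (ug g + vg g') + vg g' * (if a g ≠ 0 then Real.log G.card -
        Real.log (fc G a g) else 0) + (ug g * vg g') * (Real.log N' - Real.log P')) ≤
      Real.log (N * N') + Real.log (q g g' / ((fc G a g : ℝ) * fc G' b g')) := by
    intro g hg g' hg'
    have h3 := fc_posR (f := a) hg
    have h4 := fc_posR (f := b) hg'
    have h5 := hq0 g hg g' hg'
    have hl3 : 0 ≤ Real.log 3 := Real.log_nonneg (by norm_num)
    have hl13 : Real.log (1 / 3) = - Real.log 3 := by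
      rw [one_div, Real.log_inv]
    rw [Real.log_mul hN.ne' hN'.ne', Real.log_div h5.ne' (by positivity),
      Real.log_mul h3.ne' h4.ne']
    have main : -(2 * ρ + Real.log 3 * (ug g + vg g') + vg g' * (if a g ≠ 0 then
        Real.log G.card - Real.log (fc G a g) else 0) +
        (ug g * vg g') * (Real.log N' - Real.log P')) ≤ Real.log (q g g') := by
      by_cases c1 : a g = 0
      · by_cases c2 : b g' = 0
        · have e1 : ug g = 0 := if_neg (not_not.2 c1)
          have e2 : vg g' = 0 := if_neg (not_not.2 c2)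
          have e3 : q g g' = 1 - ρ := by
            simp only [q]
            rw [if_pos c1, if_pos c2]
          rw [e1, e2, e3]
          have e4 := Real.log_le_sub_one_of_pos (show (0 : ℝ) < 1 / (1 - ρ) by
            have : 0 < 1 - ρ := by linarith
            positivity)
          rw [Real.log_div one_ne_zero (by linarith), Real.log_one] at e4
          have e5 : 1 / (1 - ρ) - 1 ≤ 2 * ρ := by
            rw [sub_le_iff_le_add, div_le_iff₀ (by linarith)]
            nlinarith only [hpp, hpp0]
          linarith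
        · have e1 : ug g = 0 := if_neg (not_not.2 c1)
          have e2 : vg g' = 1 := if_pos c2
          have e3 : q g g' = 1 / 3 := by
            simp only [q]
            rw [if_pos c1, if_neg c2]
          rw [e1, e2, e3, if_neg (not_not.2 c1), hl13]
          linarith
      · by_cases c2 : b g' = 0
        · have e1 : ug g = 1 := if_pos c1
          have e2 : vg g' = 0 := if_neg (not_not.2 c2)
          have e3 : q g g' = 1 / 3 := by
            simp only [q]
            rw [if_neg c1, if_pos c2]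
          rw [e1, e2, e3, hl13]
          linarith
        · have e1 : ug g = 1 := if_pos c1
          have e2 : vg g' = 1 := if_pos c2
          have e3 : q g g' = (fc G a g : ℝ) * P' / (N * N') := by
            simp only [q]
            rw [if_neg c1, if_neg c2]
          have e4 := hPpos g' hg' c2
          rw [e1, e2, e3, if_pos (show a g ≠ 0 from c1), Real.log_div (by positivity)
            (by positivity), Real.log_mul h3.ne' e4.ne', Real.log_mul hN.ne' hN'.ne']
          linarith
    linarith
  refine le_trans ?_ (sum_le_sum fun g hg => sum_le_sum fun g' hg' => hloss g hg g' hg')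
  -- evaluation of the sums
  have su : ∑ g ∈ G, ug g = P := by
    simp only [ug]
    rw [← sum_filter, sum_const, nsmul_eq_mul, mul_one]
    rfl
  have sv : ∑ g' ∈ G', vg g' = P' := by
    simp only [vg]
    rw [← sum_filter, sum_const, nsmul_eq_mul, mul_one]
    rfl
  have sa : ∑ g ∈ G, (Real.log N - Real.log (fc G a g)) = N * h G a := by
    unfold h
    rw [mul_div_cancel₀ _ hN.ne']
  have sb : ∑ g' ∈ G', (Real.log N' - Real.log (fc G' b g')) = N' * h G' b := by
    unfold h
    rw [mul_div_cancel₀ _ hN'.ne']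
  set W : ℝ := ∑ g ∈ G, (if a g ≠ 0 then Real.log G.card - Real.log (fc G a g) else 0) with hW
  have hWle : W ≤ N * h G a := sum_ite_le G a hG
  have hev : ∑ g ∈ G, ∑ g' ∈ G', (Real.log N - Real.log (fc G a g) +
      (Real.log N' - Real.log (fc G' b g')) -
      (2 * ρ + Real.log 3 * (ug g + vg g') + vg g' * (if a g ≠ 0 then Real.log G.card -
        Real.log (fc G a g) else 0) + (ug g * vg g') * (Real.log N' - Real.log P'))) =
      N' * (N * h G a) + N * (N' * h G' b) - (N * N' * (2 * ρ) + Real.log 3 * (P * N' + N * P') +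
        P' * W + P * (P' * (Real.log N' - Real.log P'))) := by
    have e0 := sum_eval G G' (fun g => Real.log N - Real.log (fc G a g))
      (fun g' => Real.log N' - Real.log (fc G' b g')) ug vg (fun g => if a g ≠ 0 then
        Real.log G.card - Real.log (fc G a g) else 0) ρ (Real.log 3) (Real.log N' - Real.log P')
    rw [sa, sb, su, sv] at e0
    exact e0
  rw [hev]
  -- the bounds
  have hha := h_nonneg G a
  have hhb := h_nonneg G' b
  set Ha := h G a with hHa
  set Hb := h G' b with hHb
  have hl3 : 0 ≤ Real.log 3 := Real.log_nonneg (by norm_num)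
  have hlog3 : Real.log 3 ≤ Real.log (1 / θ) := by
    refine Real.log_le_log (by norm_num) ?_
    rw [le_div_iff₀ hθ]
    linarith
  have hlog31 : 1 < Real.log 3 := by
    have := Real.exp_one_lt_d9
    rw [Real.lt_log_iff_exp_lt (by norm_num)]
    linarith
  have hlog32 : Real.log 3 ≤ 1.1 := by
    have h9 : Real.log 3 = Real.log 9 / 2 := by
      rw [show (9 : ℝ) = 3 ^ 2 by norm_num, Real.log_pow]
      push_cast
      ring
    rw [Real.log_le_iff_le_exp (by norm_num)]
    have h10 : (1.1 : ℝ) = 1 + 0.1 := by norm_num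
    rw [h10, Real.exp_add]
    have h11 := Real.exp_one_gt_d9
    have h12 : (1.105 : ℝ) ≤ Real.exp 0.1 := by
      have := Real.quadratic_le_exp_of_nonneg (show (0 : ℝ) ≤ 0.1 by norm_num)
      norm_num at this ⊢
      linarith
    nlinarith only [h11, h12]
  set ℓ := Real.log (1 / θ) with hℓ
  have hℓ0 : 0 < ℓ := by linarith
  have k1 : P * ℓ ≤ N * Ha := nz_log_le G a hG hθ h1
  have k2 : P' * ℓ ≤ N' * Hb := nz_log_le G' b hG' hθ h2
  have k3 : P' * (Real.log N' - Real.log P') ≤ N' * Hb :=
    (sum_nz_le G' b).trans (sum_ite_le G' b hG')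
  have k4 : N * N' * (2 * ρ) = 2 * P * P' := by
    rw [hρ]
    field_simp
  -- θ ℓ ≤ 2/5
  have hθℓ : θ * ℓ ≤ 0.4 := by
    have e1 : ℓ = -Real.log θ := by rw [hℓ, one_div, Real.log_inv]
    have e2 := Real.add_one_le_exp (-(1 + Real.log θ))
    have e3 : Real.exp (-(1 + Real.log θ)) = 1 / (Real.exp 1 * θ) := by
      rw [Real.exp_neg, Real.exp_add, Real.exp_log hθ, one_div]
    rw [e3] at e2
    have e4 : θ * ℓ ≤ 1 / Real.exp 1 := by
      rw [e1]
      have e5 : -Real.log θ ≤ 1 / (Real.exp 1 * θ) := by linarith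
      calc θ * (-Real.log θ) ≤ θ * (1 / (Real.exp 1 * θ)) := mul_le_mul_of_nonneg_left e5 hθ.le
        _ = 1 / Real.exp 1 := by field_simp
    have e6 : 1 / Real.exp 1 ≤ 0.4 := by
      rw [div_le_iff₀ (Real.exp_pos 1)]
      have := Real.exp_one_gt_d9
      linarith
    linarith
  -- total loss
  have t1 : ℓ * (2 * P * P') ≤ N * N' * (0.34 * (Ha + Hb)) := by
    have e1 : P * P' ≤ θ * N' * P := by nlinarith only [h2, hP0]
    have e2 : P * P' ≤ θ * N * P' := by nlinarith only [h1, hP0']
    have e3 : ℓ * (θ * N' * P) ≤ θ * N' * (N * Ha) := by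
      have := mul_le_mul_of_nonneg_left k1 (show 0 ≤ θ * N' by positivity)
      linarith
    have e4 : ℓ * (θ * N * P') ≤ θ * N * (N' * Hb) := by
      have := mul_le_mul_of_nonneg_left k2 (show 0 ≤ θ * N by positivity)
      linarith
    have e5 : θ * (N * N' * Ha) ≤ 0.34 * (N * N' * Ha) :=
      mul_le_mul_of_nonneg_right (by linarith) (by positivity)
    have e6 : θ * (N * N' * Hb) ≤ 0.34 * (N * N' * Hb) :=
      mul_le_mul_of_nonneg_right (by linarith) (by positivity)
    linarith only [e3, e4, e5, e6, mul_le_mul_of_nonneg_left e1 hℓ0.le, mul_le_mul_of_nonneg_left e2 hℓ0.le]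
  have t2 : ℓ * (Real.log 3 * (P * N' + N * P')) ≤ N * N' * (1.1 * (Ha + Hb)) := by
    have e1 : N' * (P * ℓ) ≤ N' * (N * Ha) := mul_le_mul_of_nonneg_left k1 hN'.le
    have e2 : N * (P' * ℓ) ≤ N * (N' * Hb) := mul_le_mul_of_nonneg_left k2 hN.le
    have e3 : ℓ * (P * N' + N * P') ≤ N * N' * (Ha + Hb) := by linarith
    have e4 : 0 ≤ ℓ * (P * N' + N * P') := by positivity
    calc ℓ * (Real.log 3 * (P * N' + N * P')) = Real.log 3 * (ℓ * (P * N' + N * P')) := by ring
      _ ≤ 1.1 * (ℓ * (P * N' + N * P')) := mul_le_mul_of_nonneg_right hlog32 e4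
      _ ≤ 1.1 * (N * N' * (Ha + Hb)) := mul_le_mul_of_nonneg_left e3 (by norm_num)
      _ = _ := by ring
  have t3 : ℓ * (P' * W) ≤ N * N' * (0.4 * Ha) := by
    have hW0 : 0 ≤ W := by
      refine sum_nonneg fun g hg => ?_
      split_ifs with c
      · have h2 : (fc G a g : ℝ) ≤ G.card := by exact_mod_cast fc_le
        have h3 := Real.log_le_log (fc_posR hg) h2
        linarith
      · exact le_rfl
    calc ℓ * (P' * W) ≤ ℓ * ((θ * N') * W) := by gcongr
      _ = (θ * ℓ) * (N' * W) := by ring
      _ ≤ 0.4 * (N' * W) := mul_le_mul_of_nonneg_right hθℓ (by positivity)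
      _ ≤ 0.4 * (N' * (N * Ha)) := by gcongr
      _ = _ := by ring
  have t4 : ℓ * (P * (P' * (Real.log N' - Real.log P'))) ≤ N * N' * (0.4 * Hb) := by
    calc ℓ * (P * (P' * (Real.log N' - Real.log P'))) ≤ ℓ * (P * (N' * Hb)) := by gcongr
      _ ≤ ℓ * ((θ * N) * (N' * Hb)) := by gcongr
      _ = (θ * ℓ) * (N * (N' * Hb)) := by ring
      _ ≤ 0.4 * (N * (N' * Hb)) := mul_le_mul_of_nonneg_right hθℓ (by positivity)
      _ = _ := by ring
  have t5 : ℓ * (2 * P * P' + Real.log 3 * (P * N' + N * P') + P' * W +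
      P * (P' * (Real.log N' - Real.log P'))) ≤ N * N' * (2 * (Ha + Hb)) := by
    linarith only [t1, t2, t3, t4, mul_nonneg (mul_nonneg hN.le hN'.le) hha, mul_nonneg (mul_nonneg hN.le hN'.le) hhb]
  rw [k4]
  have t6 : 2 * P * P' + Real.log 3 * (P * N' + N * P') + P' * W +
      P * (P' * (Real.log N' - Real.log P')) ≤ N * N' * (2 * (Ha + Hb)) / ℓ := by
    rw [le_div_iff₀ hℓ0]
    linarith
  have t7 : (1 - 2 / ℓ) * (Ha + Hb) * (N * N') =
      N' * (N * Ha) + N * (N' * Hb) - N * N' * (2 * (Ha + Hb)) / ℓ := by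
    field_simp
  rw [t7]
  linarith

end Pool.Agent.Y359.PE
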