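import Mathlib
import Pool.Agent.Y359.PE.Cell

/-!
# Entropies of sums of vectors with sparse coordinates
-/

set_option autoImplicit false

namespace Pool.Agent.Y359.PE

open Finset
open scoped Classical

variable {α β M M' V : Type*}

lemma cl_prod (A : Finset α) (B : Finset β) (F : α → M) (F' : β → M') (s : α × β) :
    cl (A ×ˢ B) (fun x => (F x.1, F' x.2)) s = cl A F s.1 ×ˢ cl B F' s.2 := by
  ext y
  rw [mem_cl, mem_product, mem_product, mem_cl, mem_cl, Prod.mk.injEq]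
  tauto

/-- Markov's inequality for the classes in which the variable is often nonzero -/
lemma markov (B : Finset β) (F' : β → M') [AddCommGroup V] (y : β → V) {τ θ : ℝ} (hθ : 0 < θ)
    (hy : (nz B y : ℝ) ≤ τ * B.card) :
    ((B.filter fun u => ¬ ((nz (cl B F' u) y : ℝ) ≤ θ * fc B F' u)).card : ℝ) ≤
      τ / θ * B.card := by
  have h1 := avg_cl B F' (fun u => if y u ≠ 0 then (1 : ℝ) else 0)
  have h2 : ∑ u ∈ B, (if y u ≠ 0 then (1 : ℝ) else 0) = nz B y := by
    rw [← sum_filter, sum_const, nsmul_eq_mul, mul_one]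
    rfl
  have h3 : ∀ u ∈ B, (∑ v ∈ cl B F' u, if y v ≠ 0 then (1 : ℝ) else 0) = nz (cl B F' u) y := by
    intro u _
    rw [← sum_filter, sum_const, nsmul_eq_mul, mul_one]
    rfl
  have h4 : ∑ u ∈ B, (nz (cl B F' u) y : ℝ) / fc B F' u = nz B y := by
    rw [← h2, ← h1]
    refine sum_congr rfl fun u hu => ?_
    rw [h3 u hu]
  have h5 : θ * ((B.filter fun u => ¬ ((nz (cl B F' u) y : ℝ) ≤ θ * fc B F' u)).card : ℝ) ≤
      ∑ u ∈ B, (nz (cl B F' u) y : ℝ) / fc B F' u := by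
    rw [mul_comm, ← nsmul_eq_mul, ← sum_const]
    refine (sum_le_sum (f := fun _ => θ)
      (g := fun u => (nz (cl B F' u) y : ℝ) / fc B F' u) ?_).trans
      (sum_le_sum_of_subset_of_nonneg (filter_subset _ _) fun u _ _ => by positivity)
    intro u hu
    rw [mem_filter, not_le] at hu
    have h6 := fc_posR (f := F') hu.1
    show θ ≤ (nz (cl B F' u) y : ℝ) / fc B F' u
    rw [le_div_iff₀ h6]
    exact hu.2.le
  rw [h4] at h5
  rw [div_mul_eq_mul_div, le_div_iff₀ hθ]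
  linarith

/-- the two cell inequalities together -/
lemma cell_gen [AddCommGroup V] (G : Finset α) (G' : Finset β) (hG : G.Nonempty)
    (hG' : G'.Nonempty) (a : α → V) (b : β → V) {θ : ℝ} (hθ : 0 < θ) (hθ1 : θ ≤ 1 / 3) :
    (1 - 2 / Real.log (1 / θ)) * (h G a + h G' b) -
      (if (nz G' b : ℝ) ≤ θ * G'.card then 0 else h G a) -
      (if (nz G a : ℝ) ≤ θ * G.card then 0 else h G' b) ≤
      h (G ×ˢ G') (fun x => a x.1 + b x.2) := by
  have hl3 : 0 < Real.log (1 / θ) := by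
    refine Real.log_pos ?_
    rw [lt_div_iff₀ hθ]
    linarith
  have h1 := h_nonneg G a
  have h2 := h_nonneg G' b
  have h3 := cell_left G G' hG' a b
  have h4 := cell_right G G' hG a b
  have h5 : 0 ≤ 2 / Real.log (1 / θ) * (h G a + h G' b) := by positivity
  split_ifs with c1 c2 c2
  · have := cell_main G G' hG hG' a b hθ hθ1 c2 c1
    linarith
  · linarith
  · linarith
  · have h6 : 0 ≤ h (G ×ˢ G') (fun x => a x.1 + b x.2) := h_nonneg _ _
    linarith

/-- **The step**: adding a coordinate. -/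
theorem step [AddCommGroup M] [AddCommGroup V] (A : Finset α) (B : Finset β) (hA : A.Nonempty)
    (hB : B.Nonempty) (F : α → M) (F' : β → M) (x : α → V) (y : β → V) {τ θ : ℝ} (hθ : 0 < θ)
    (hθ1 : θ ≤ 1 / 3) (hx : (nz A x : ℝ) ≤ τ * A.card) (hy : (nz B y : ℝ) ≤ τ * B.card) :
    (1 - 2 / Real.log (1 / θ) - τ / θ) * ((h A (fun u => (F u, x u)) - h A F) +
      (h B (fun u => (F' u, y u)) - h B F')) ≤
      h (A ×ˢ B) (fun s => (F s.1 + F' s.2, x s.1 + y s.2)) -
        h (A ×ˢ B) (fun s => F s.1 + F' s.2) := by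
  have hAc : (0 : ℝ) < A.card := by exact_mod_cast card_pos.2 hA
  have hBc : (0 : ℝ) < B.card := by exact_mod_cast card_pos.2 hB
  have h1 := submod (A ×ˢ B) (fun s => F s.1 + F' s.2) (fun s => (F s.1, F' s.2))
    (fun s => x s.1 + y s.2) (by
      intro s _ t _ hst
      rw [Prod.mk.injEq] at hst
      show F s.1 + F' s.2 = F t.1 + F' t.2
      rw [hst.1, hst.2])
  refine le_trans ?_ h1
  rw [chain (A ×ˢ B) (fun s => (F s.1, F' s.2)) (fun s => x s.1 + y s.2), chain A F x,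
    chain B F' y]
  set κ := 2 / Real.log (1 / θ) with hκ
  set Ea := ∑ u ∈ A, h (cl A F u) x with hEa
  set Eb := ∑ u ∈ B, h (cl B F' u) y with hEb
  have hEa0 : 0 ≤ Ea := sum_nonneg fun u _ => h_nonneg _ _
  have hEb0 : 0 ≤ Eb := sum_nonneg fun u _ => h_nonneg _ _
  rw [card_product, sum_product]
  push_cast
  rw [le_div_iff₀ (by positivity)]
  have h2 : ∀ u ∈ A, ∀ v ∈ B, (1 - κ) * (h (cl A F u) x + h (cl B F' v) y) -
      (if (nz (cl B F' v) y : ℝ) ≤ θ * fc B F' v then 0 else 1) * h (cl A F u) x -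
      (if (nz (cl A F u) x : ℝ) ≤ θ * fc A F u then 0 else 1) * h (cl B F' v) y ≤
      h (cl (A ×ˢ B) (fun s => (F s.1, F' s.2)) (u, v)) (fun s => x s.1 + y s.2) := by
    intro u hu v hv
    rw [cl_prod]
    have h3 := cell_gen (cl A F u) (cl B F' v) ⟨u, mem_cl.2 ⟨hu, rfl⟩⟩ ⟨v, mem_cl.2 ⟨hv, rfl⟩⟩
      x y hθ hθ1
    refine le_trans (le_of_eq ?_) h3
    unfold fc
    split_ifs <;> ring
  refine le_trans ?_ (sum_le_sum fun u hu => sum_le_sum fun v hv => h2 u hu v hv)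
  have hmA := markov A F x hθ hx
  have hmB := markov B F' y hθ hy
  set mA : ℝ := ((A.filter fun u => ¬ ((nz (cl A F u) x : ℝ) ≤ θ * fc A F u)).card : ℝ) with hmAd
  set mB : ℝ := ((B.filter fun u => ¬ ((nz (cl B F' u) y : ℝ) ≤ θ * fc B F' u)).card : ℝ) with hmBd
  have sB : ∑ v ∈ B, (if (nz (cl B F' v) y : ℝ) ≤ θ * fc B F' v then (0 : ℝ) else 1) = mB := by
    rw [sum_ite, sum_const_zero, zero_add, sum_const, nsmul_eq_mul, mul_one]
  have sA : ∑ v ∈ A, (if (nz (cl A F v) x : ℝ) ≤ θ * fc A F v then (0 : ℝ) else 1) = mA := by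
    rw [sum_ite, sum_const_zero, zero_add, sum_const, nsmul_eq_mul, mul_one]
  have hev : ∑ u ∈ A, ∑ v ∈ B, ((1 - κ) * (h (cl A F u) x + h (cl B F' v) y) -
      (if (nz (cl B F' v) y : ℝ) ≤ θ * fc B F' v then 0 else 1) * h (cl A F u) x -
      (if (nz (cl A F u) x : ℝ) ≤ θ * fc A F u then 0 else 1) * h (cl B F' v) y) =
      (1 - κ) * (B.card * Ea + A.card * Eb) - mB * Ea - mA * Eb := by
    have inner : ∀ u ∈ A, ∑ v ∈ B, ((1 - κ) * (h (cl A F u) x + h (cl B F' v) y) -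
      (if (nz (cl B F' v) y : ℝ) ≤ θ * fc B F' v then 0 else 1) * h (cl A F u) x -
      (if (nz (cl A F u) x : ℝ) ≤ θ * fc A F u then 0 else 1) * h (cl B F' v) y) =
      (1 - κ) * (B.card * h (cl A F u) x + Eb) - mB * h (cl A F u) x -
      (if (nz (cl A F u) x : ℝ) ≤ θ * fc A F u then 0 else 1) * Eb := by
      intro u _
      rw [sum_sub_distrib, sum_sub_distrib, ← mul_sum, sum_add_distrib, sum_const, nsmul_eq_mul,
        ← sum_mul, sB, ← mul_sum]
    rw [sum_congr rfl inner, sum_sub_distrib, sum_sub_distrib, ← mul_sum, sum_add_distrib,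
      sum_const, nsmul_eq_mul, ← mul_sum, ← mul_sum, ← sum_mul, sA]
  rw [hev]
  have e1 : mB * Ea ≤ τ / θ * B.card * Ea := mul_le_mul_of_nonneg_right hmB hEa0
  have e2 : mA * Eb ≤ τ / θ * A.card * Eb := mul_le_mul_of_nonneg_right hmA hEb0
  have e3 : (1 - κ - τ / θ) * (Ea / A.card + Eb / B.card) * (A.card * B.card) =
      (1 - κ) * (B.card * Ea + A.card * Eb) - τ / θ * B.card * Ea - τ / θ * A.card * Eb := by
    field_simp
    ring
  rw [e3]
  linarith

end Pool.Agent.Y359.PE
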