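import Mathlib
import Pool.Agent.Y359.PE.Step

/-!
# Entropies of sums of independent vectors all of whose coordinates are mostly zero
-/

set_option autoImplicit false

namespace Pool.Agent.Y359.PE

open Finset
open scoped Classical

variable {α β ι V : Type*}

/-- the coordinates in `J` -/
noncomputable def mk [Zero V] (J : Finset ι) (X : α → ι → V) : α → ι → V :=
  fun a p => if p ∈ J then X a p else 0

lemma mk_eq_iff [Zero V] {J : Finset ι} {X : α → ι → V} {x y : α} :
    mk J X x = mk J X y ↔ ∀ p ∈ J, X x p = X y p := by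
  constructor
  · intro h p hp
    have := congrFun h p
    simpa [mk, hp] using this
  · intro h
    funext p
    unfold mk
    split_ifs with hp
    · exact h p hp
    · rfl

lemma h_mk_insert [Zero V] (S : Finset α) (J : Finset ι) (p : ι) (X : α → ι → V) :
    h S (mk (insert p J) X) = h S (fun u => (mk J X u, X u p)) := by
  refine h_congr fun x _ y _ => ?_
  rw [mk_eq_iff, Prod.mk.injEq, mk_eq_iff]
  constructor
  · intro h
    exact ⟨fun q hq => h q (mem_insert_of_mem hq), h p (mem_insert_self _ _)⟩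
  · rintro ⟨h1, h2⟩ q hq
    rcases mem_insert.1 hq with rfl | h3
    · exact h2
    · exact h1 q h3

lemma mk_add [AddCommGroup V] (J : Finset ι) (X : α → ι → V) (Y : β → ι → V) (s : α × β) :
    mk J (fun s : α × β => X s.1 + Y s.2) s = mk J X s.1 + mk J Y s.2 := by
  funext p
  simp only [mk, Pi.add_apply]
  split_ifs
  · rfl
  · rw [add_zero]

/-- **Two independent vectors.** -/
theorem two [AddCommGroup V] (A : Finset α) (B : Finset β) (hA : A.Nonempty) (hB : B.Nonempty)
    (X : α → ι → V) (Y : β → ι → V) {τ θ : ℝ} (hθ : 0 < θ) (hθ1 : θ ≤ 1 / 3) (T : Finset ι)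
    (hX : ∀ p ∈ T, (nz A (fun a => X a p) : ℝ) ≤ τ * A.card)
    (hY : ∀ p ∈ T, (nz B (fun b => Y b p) : ℝ) ≤ τ * B.card) :
    (1 - 2 / Real.log (1 / θ) - τ / θ) * (h A (mk T X) + h B (mk T Y)) ≤
      h (A ×ˢ B) (mk T (fun s : α × β => X s.1 + Y s.2)) := by
  induction T using Finset.induction_on with
  | empty =>
    have e2 : h A (mk ∅ X) = 0 := by
      refine h_const _ _ fun x _ y _ => ?_
      rw [mk_eq_iff]
      intro p hp
      exact absurd hp (notMem_empty _)
    have e3 : h B (mk ∅ Y) = 0 := by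
      refine h_const _ _ fun x _ y _ => ?_
      rw [mk_eq_iff]
      intro p hp
      exact absurd hp (notMem_empty _)
    rw [e2, e3, add_zero, mul_zero]
    exact h_nonneg _ _
  | insert p T hp ih =>
    have ih' := ih (fun q hq => hX q (mem_insert_of_mem hq)) (fun q hq =>
      hY q (mem_insert_of_mem hq))
    have st := step A B hA hB (mk T X) (mk T Y) (fun a => X a p) (fun b => Y b p) hθ hθ1
      (hX p (mem_insert_self _ _)) (hY p (mem_insert_self _ _))
    rw [h_mk_insert, h_mk_insert, h_mk_insert]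
    have e1 : (fun s : α × β => (mk T X s.1 + mk T Y s.2, X s.1 p + Y s.2 p)) =
        fun s : α × β => (mk T (fun s : α × β => X s.1 + Y s.2) s,
          (fun s : α × β => X s.1 + Y s.2) s p) := by
      funext s
      rw [mk_add]
      rfl
    have e2 : (fun s : α × β => mk T X s.1 + mk T Y s.2) =
        mk T (fun s : α × β => X s.1 + Y s.2) := by
      funext s
      rw [mk_add]
    rw [e1, e2] at st
    linarith

lemma nz_prod_le [AddCommGroup V] (A : Finset α) (B : Finset β) (x : α → V) (y : β → V) :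
    nz (A ×ˢ B) (fun s => x s.1 + y s.2) ≤ nz A x * B.card + A.card * nz B y := by
  unfold nz
  have h1 : (A ×ˢ B).filter (fun s => x s.1 + y s.2 ≠ 0) ⊆
      (A.filter fun a => x a ≠ 0) ×ˢ B ∪ A ×ˢ (B.filter fun b => y b ≠ 0) := by
    intro s hs
    rw [mem_filter, mem_product] at hs
    rw [mem_union, mem_product, mem_product, mem_filter, mem_filter]
    by_cases c : x s.1 = 0
    · right
      refine ⟨hs.1.1, hs.1.2, ?_⟩
      intro h2
      exact hs.2 (by rw [c, h2, add_zero])
    · left
      exact ⟨⟨hs.1.1, c⟩, hs.1.2⟩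
  refine (card_le_card h1).trans ((card_union_le _ _).trans ?_)
  rw [card_product, card_product]

/-- **Many independent copies.** -/
theorem kcopies {α ι : Type} {V : Type} [AddCommGroup V] (A : Finset α) (hA : A.Nonempty)
    (X : α → ι → V) {τ θ : ℝ} (hτ : 0 ≤ τ) (hθ : 0 < θ) (hθ1 : θ ≤ 1 / 3) (K : ℕ)
    (hκ : 2 / Real.log (1 / θ) + K * τ / θ ≤ 1) (T : Finset ι)
    (hX : ∀ p ∈ T, (nz A (fun a => X a p) : ℝ) ≤ τ * A.card) (k : ℕ) (hk : 1 ≤ k) (hkK : k ≤ K) :
    ∃ (β : Type) (B : Finset β) (Y : β → ι → V), B.Nonempty ∧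
      (∀ b ∈ B, ∃ f : Fin k → α, (∀ i, f i ∈ A) ∧ Y b = ∑ i, X (f i)) ∧
      (∀ p ∈ T, (nz B (fun b => Y b p) : ℝ) ≤ k * τ * B.card) ∧
      (1 - 2 / Real.log (1 / θ) - K * τ / θ) ^ (k - 1) * k * h A (mk T X) ≤ h B (mk T Y) := by
  induction k, hk using Nat.le_induction with
  | base =>
    refine ⟨α, A, X, hA, fun b hb => ⟨fun _ => b, fun _ => hb, by simp⟩, fun p hp => ?_, ?_⟩
    · have := hX p hp
      simpa using this
    · simp
  | succ k hk ih =>
    obtain ⟨β, B, Y, hB, h1, h2, h3⟩ := ih (by omega)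
    refine ⟨α × β, A ×ˢ B, fun s => X s.1 + Y s.2, hA.product hB, ?_, ?_, ?_⟩
    · rintro ⟨a, b⟩ hs
      obtain ⟨f, hf1, hf2⟩ := h1 b (mem_product.1 hs).2
      refine ⟨Fin.cons a f, ?_, ?_⟩
      · intro i
        refine Fin.cases ?_ ?_ i
        · exact (mem_product.1 hs).1
        · intro j
          exact hf1 j
      · rw [Fin.sum_univ_succ]
        simp only [Fin.cons_zero, Fin.cons_succ]
        rw [← hf2]
    · intro p hp
      have e1 := nz_prod_le A B (fun a => X a p) (fun b => Y b p)
      have e2 : (nz (A ×ˢ B) (fun s => X s.1 p + Y s.2 p) : ℝ) ≤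
          nz A (fun a => X a p) * B.card + A.card * nz B (fun b => Y b p) := by
        exact_mod_cast e1
      refine le_trans e2 ?_
      rw [card_product]
      push_cast
      have e3 := mul_le_mul_of_nonneg_right (hX p hp) (show (0 : ℝ) ≤ B.card by positivity)
      have e4 := mul_le_mul_of_nonneg_left (h2 p hp) (show (0 : ℝ) ≤ A.card by positivity)
      nlinarith
    · have hkK' : (k : ℝ) ≤ K := by exact_mod_cast (by omega : k ≤ K)
      have hK1 : (1 : ℝ) ≤ K := by exact_mod_cast (by omega : 1 ≤ K)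
      have e1 := two A B hA hB X Y (τ := K * τ) hθ hθ1 T (fun p hp => by
        refine (hX p hp).trans ?_
        have : τ ≤ K * τ := by nlinarith
        exact mul_le_mul_of_nonneg_right this (by positivity)) (fun p hp => by
        refine (h2 p hp).trans ?_
        have : (k : ℝ) * τ ≤ K * τ := mul_le_mul_of_nonneg_right hkK' hτ
        exact mul_le_mul_of_nonneg_right this (by positivity))
      refine le_trans ?_ e1
      set c := 1 - 2 / Real.log (1 / θ) - K * τ / θ with hc
      have hc0 : 0 ≤ c := by rw [hc]; linarith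
      have hc1 : c ≤ 1 := by
        rw [hc]
        have hl : 0 < Real.log (1 / θ) := by
          refine Real.log_pos ?_
          rw [lt_div_iff₀ hθ]
          linarith
        have : 0 ≤ 2 / Real.log (1 / θ) := by positivity
        have : 0 ≤ K * τ / θ := by positivity
        linarith
      have hh := h_nonneg A (mk T X)
      have hp1 : c ^ (k - 1) ≤ 1 := pow_le_one₀ hc0 hc1
      have hp0 : 0 ≤ c ^ (k - 1) := pow_nonneg hc0 _
      have e5 : c ^ (k + 1 - 1) = c * c ^ (k - 1) := by
        rw [← pow_succ']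
        congr 1
        omega
      rw [e5]
      push_cast
      have e6 : c ^ (k - 1) * h A (mk T X) ≤ h A (mk T X) := by nlinarith
      calc c * c ^ (k - 1) * (k + 1) * h A (mk T X)
          = c * (c ^ (k - 1) * h A (mk T X) + c ^ (k - 1) * k * h A (mk T X)) := by ring
        _ ≤ c * (h A (mk T X) + h B (mk T Y)) := by
          refine mul_le_mul_of_nonneg_left ?_ hc0
          linarith

end Pool.Agent.Y359.PE
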