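import Mathlib
import Pool.Agent.Y359.PE.Multi

/-!
# Product sets of sets of integers and entropies of vectors of valuations
-/

set_option autoImplicit false

namespace Pool.Agent.Y359.PE

open Finset
open scoped Classical

/-- the exponent of `p` in `a` -/
def fa (a : ℤ) (p : ℕ) : ℕ := a.natAbs.factorization p

/-- the `k`-fold products -/
noncomputable def pk (k : ℕ) (A : Finset ℤ) : Finset ℤ :=
  (Fintype.piFinset fun _ : Fin k => A).image fun f => ∏ i, f i

/-- the `k`-fold sums -/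
noncomputable def sk (k : ℕ) (A : Finset ℤ) : Finset ℤ :=
  (Fintype.piFinset fun _ : Fin k => A).image fun f => ∑ i, f i

lemma pk_mono {k : ℕ} {A B : Finset ℤ} (h : A ⊆ B) : pk k A ⊆ pk k B :=
  image_subset_image (Fintype.piFinset_subset _ _ fun _ => h)

lemma sk_mono {k : ℕ} {A B : Finset ℤ} (h : A ⊆ B) : sk k A ⊆ sk k B :=
  image_subset_image (Fintype.piFinset_subset _ _ fun _ => h)

lemma pk_nonempty {k : ℕ} {A : Finset ℤ} (h : A.Nonempty) : (pk k A).Nonempty := by
  obtain ⟨a, ha⟩ := h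
  exact ⟨_, mem_image_of_mem _ (Fintype.mem_piFinset.2 fun _ => ha)⟩

lemma fa_mul {a b : ℤ} (ha : a ≠ 0) (hb : b ≠ 0) (p : ℕ) : fa (a * b) p = fa a p + fa b p := by
  unfold fa
  rw [Int.natAbs_mul, Nat.factorization_mul (Int.natAbs_ne_zero.2 ha) (Int.natAbs_ne_zero.2 hb)]
  rfl

lemma fa_prod {k : ℕ} (f : Fin k → ℤ) (hf : ∀ i, f i ≠ 0) (p : ℕ) :
    fa (∏ i, f i) p = ∑ i, fa (f i) p := by
  unfold fa
  have h1 : (∏ i, f i).natAbs = ∏ i, (f i).natAbs := map_prod Int.natAbsHom f univ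
  rw [h1, Nat.factorization_prod (fun i _ => Int.natAbs_ne_zero.2 (hf i)), Finsupp.finsetSum_apply]

/-- an integer is determined by its sign and its valuations -/
lemma eq_of_fa {a b : ℤ} (ha : a ≠ 0) (hb : b ≠ 0) (hs : 0 < a ↔ 0 < b)
    (h : ∀ p, fa a p = fa b p) : a = b := by
  have h1 : a.natAbs = b.natAbs :=
    Nat.eq_of_factorization_eq (Int.natAbs_ne_zero.2 ha) (Int.natAbs_ne_zero.2 hb) h
  omega

/-- the valuation vectors -/
noncomputable def X (e : ℕ → ℕ) (a : ℤ) (p : ℕ) : ℤ := (fa a p : ℤ) - e p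

lemma nz_eq {α M : Type*} [AddCommGroup M] (G : Finset α) (a : α → M) (S : Finset α)
    (h : ∀ g, g ∈ S ↔ g ∈ G ∧ a g ≠ 0) : nz G a = S.card := by
  unfold nz
  congr 1
  ext g
  rw [mem_filter, h]

lemma nz_X (A : Finset ℤ) (e : ℕ → ℕ) (p : ℕ) :
    nz A (fun a => X e a p) = (A.filter fun a => fa a p ≠ e p).card := by
  refine nz_eq _ _ _ fun a => ?_
  rw [mem_filter]
  refine and_congr_right fun _ => ?_
  show fa a p ≠ e p ↔ (fa a p : ℤ) - e p ≠ 0
  omega

lemma mk_X_eq_iff {T : Finset ℕ} {e : ℕ → ℕ} {a b : ℤ} :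
    mk T (X e) a = mk T (X e) b ↔ ∀ p ∈ T, fa a p = fa b p := by
  rw [mk_eq_iff]
  refine forall₂_congr fun p _ => ?_
  unfold X
  constructor
  · intro h
    have : (fa a p : ℤ) = fa b p := by linarith
    exact_mod_cast this
  · intro h
    rw [h]

/-- **The entropy bound for `k`-fold products.** -/
theorem prod_entropy (A : Finset ℤ) (hA : A.Nonempty) (h0 : (0 : ℤ) ∉ A) (T : Finset ℕ)
    (e : ℕ → ℕ) (k : ℕ) (hk : 1 ≤ k) {τ θ : ℝ} (hτ : 0 ≤ τ) (hθ : 0 < θ) (hθ1 : θ ≤ 1 / 3)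
    (hκ : 2 / Real.log (1 / θ) + k * τ / θ ≤ 1)
    (hT : ∀ p ∈ T, ((A.filter fun a => fa a p ≠ e p).card : ℝ) ≤ τ * A.card) :
    (1 - 2 / Real.log (1 / θ) - k * τ / θ) ^ (k - 1) * k * h A (mk T (X e)) ≤
      Real.log (pk k A).card := by
  obtain ⟨β, B, Y, hB, h1, -, h3⟩ := kcopies A hA (X e) hτ hθ hθ1 k hκ T (fun p hp => by
    rw [nz_X]
    exact hT p hp) k hk le_rfl
  refine h3.trans ((h_le_log hB _).trans ?_)
  have himg : B.image (mk T Y) ⊆ (pk k A).image
      (fun m : ℤ => fun p => if p ∈ T then (fa m p : ℤ) - k * e p else 0) := by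
    intro v hv
    rw [mem_image] at hv
    obtain ⟨b, hb, rfl⟩ := hv
    obtain ⟨f, hf1, hf2⟩ := h1 b hb
    rw [mem_image]
    refine ⟨∏ i, f i, mem_image_of_mem _ (Fintype.mem_piFinset.2 hf1), ?_⟩
    funext p
    unfold mk
    split_ifs with hp
    · rw [hf2, fa_prod f (fun i => by
        intro h
        exact h0 (h ▸ hf1 i))]
      rw [Finset.sum_apply]
      unfold X
      rw [sum_sub_distrib, sum_const, card_univ, Fintype.card_fin]
      push_cast
      simp
    · rfl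
  have hcard : (B.image (mk T Y)).card ≤ (pk k A).card :=
    (card_le_card himg).trans card_image_le
  have hpos : (0 : ℝ) < (B.image (mk T Y)).card := by
    exact_mod_cast card_pos.2 (hB.image _)
  exact Real.log_le_log hpos (by exact_mod_cast hcard)

/-- **The entropy bound for products of two sets.** -/
theorem prod_entropy_two (A B : Finset ℤ) (hA : A.Nonempty) (hB : B.Nonempty) (h0 : (0 : ℤ) ∉ A)
    (h0' : (0 : ℤ) ∉ B) (T : Finset ℕ) (e e' : ℕ → ℕ) {τ θ : ℝ} (hθ : 0 < θ) (hθ1 : θ ≤ 1 / 3)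
    (hT : ∀ p ∈ T, ((A.filter fun a => fa a p ≠ e p).card : ℝ) ≤ τ * A.card)
    (hT' : ∀ p ∈ T, ((B.filter fun a => fa a p ≠ e' p).card : ℝ) ≤ τ * B.card) :
    (1 - 2 / Real.log (1 / θ) - τ / θ) * (h A (mk T (X e)) + h B (mk T (X e'))) ≤
      Real.log ((A ×ˢ B).image fun s => s.1 * s.2).card := by
  have h3 := two A B hA hB (X e) (X e') hθ hθ1 T (fun p hp => by
    rw [nz_X]
    exact hT p hp) (fun p hp => by
    rw [nz_X]
    exact hT' p hp)
  refine h3.trans ((h_le_log (hA.product hB) _).trans ?_)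
  have himg : (A ×ˢ B).image (mk T (fun s : ℤ × ℤ => X e s.1 + X e' s.2)) ⊆
      ((A ×ˢ B).image fun s => s.1 * s.2).image
      (fun m : ℤ => fun p => if p ∈ T then (fa m p : ℤ) - e p - e' p else 0) := by
    intro v hv
    rw [mem_image] at hv
    obtain ⟨b, hb, rfl⟩ := hv
    rw [mem_image]
    refine ⟨b.1 * b.2, mem_image_of_mem (fun s : ℤ × ℤ => s.1 * s.2) hb, ?_⟩
    funext p
    unfold mk
    split_ifs with hp
    · rw [fa_mul (fun h => h0 (h ▸ (mem_product.1 hb).1)) (fun h => h0' (h ▸ (mem_product.1 hb).2))]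
      show _ = X e b.1 p + X e' b.2 p
      unfold X
      push_cast
      ring
    · rfl
  have hcard := (card_le_card himg).trans card_image_le
  have hpos : (0 : ℝ) < ((A ×ˢ B).image (mk T (fun s : ℤ × ℤ => X e s.1 + X e' s.2))).card := by
    exact_mod_cast card_pos.2 ((hA.product hB).image _)
  exact Real.log_le_log hpos (by exact_mod_cast hcard)

/-- a lower bound for the entropy when many classes are short -/
lemma h_ge_short {α β : Type*} (S S' : Finset α) (hS : S.Nonempty) (f : α → β) (hS' : S' ⊆ S)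
    {F : ℝ} (hF : ∀ x ∈ S', (fc S f x : ℝ) ≤ F) :
    (S'.card : ℝ) / S.card * (Real.log S.card - Real.log F) ≤ h S f := by
  have hN : (0 : ℝ) < S.card := by exact_mod_cast card_pos.2 hS
  unfold h
  rw [div_mul_eq_mul_div]
  refine div_le_div_of_nonneg_right ?_ hN.le
  have h1 : (S'.card : ℝ) * (Real.log S.card - Real.log F) =
      ∑ x ∈ S', (Real.log S.card - Real.log F) := by
    rw [sum_const, nsmul_eq_mul]
  rw [h1]
  have h2 : ∑ x ∈ S', (Real.log S.card - Real.log F) ≤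
      ∑ x ∈ S', (Real.log S.card - Real.log (fc S f x)) := by
    refine sum_le_sum fun x hx => ?_
    have := Real.log_le_log (fc_posR (f := f) (hS' hx)) (hF x hx)
    linarith
  refine h2.trans (sum_le_sum_of_subset_of_nonneg hS' fun x hx _ => ?_)
  have h3 : (fc S f x : ℝ) ≤ S.card := by exact_mod_cast fc_le
  have h4 := Real.log_le_log (fc_posR (f := f) hx) h3
  linarith

/-- the set of the primes dividing an element of `A` -/
noncomputable def pr (A : Finset ℤ) : Finset ℕ := A.biUnion fun a => a.natAbs.primeFactors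

lemma fa_eq_zero {A : Finset ℤ} {a : ℤ} (ha : a ∈ A) {p : ℕ} (hp : p ∉ pr A) : fa a p = 0 := by
  unfold fa
  rw [← Finsupp.notMem_support_iff, Nat.support_factorization]
  intro h
  exact hp (mem_biUnion.2 ⟨a, ha, h⟩)

lemma prime_of_mem_pr {A : Finset ℤ} {p : ℕ} (hp : p ∈ pr A) : p.Prime := by
  obtain ⟨a, _, ha⟩ := mem_biUnion.1 hp
  exact Nat.prime_of_mem_primeFactors ha

/-- the classes for all the valuations have at most two elements -/
lemma fc_le_two (A : Finset ℤ) (h0 : (0 : ℤ) ∉ A) (e : ℕ → ℕ) {x : ℤ} (hx : x ∈ A) :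
    fc A (mk (pr A) (X e)) x ≤ 2 := by
  unfold fc
  have h1 : cl A (mk (pr A) (X e)) x ⊆ {x, -x} := by
    intro y hy
    rw [mem_cl, mk_X_eq_iff] at hy
    have hy0 : y ≠ 0 := fun h => h0 (h ▸ hy.1)
    have hx0 : x ≠ 0 := fun h => h0 (h ▸ hx)
    have h2 : y.natAbs = x.natAbs := by
      refine Nat.eq_of_factorization_eq (Int.natAbs_ne_zero.2 hy0) (Int.natAbs_ne_zero.2 hx0) ?_
      intro p
      by_cases hp : p ∈ pr A
      · exact hy.2 p hp
      · have h3 := fa_eq_zero hy.1 hp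
        have h4 := fa_eq_zero hx hp
        unfold fa at h3 h4
        rw [h3, h4]
    rw [mem_insert, mem_singleton]
    omega
  exact (card_le_card h1).trans card_le_two

end Pool.Agent.Y359.PE
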