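import Mathlib
import Pool.Agent.Y359.PE.Prod

/-!
# Sets without popular primes have large product sets
-/

set_option autoImplicit false

namespace Pool.Agent.Y359.PE

open Finset
open scoped Classical

lemma log_le_sqrt {L : ℝ} (hL : 0 < L) : Real.log L ≤ Real.sqrt L := by
  set x := Real.sqrt (Real.sqrt L) with hx
  have hx0 : 0 < x := Real.sqrt_pos.2 (Real.sqrt_pos.2 hL)
  have h1 : x ^ 2 = Real.sqrt L := Real.sq_sqrt (Real.sqrt_nonneg _)
  have h2 : x ^ 4 = L := by
    have : x ^ 4 = (x ^ 2) ^ 2 := by ring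
    rw [this, h1, Real.sq_sqrt hL.le]
  have h3 : Real.log L = 4 * Real.log x := by
    rw [← h2, Real.log_pow]
    push_cast
    ring
  have h4 := Real.log_le_sub_one_of_pos hx0
  rw [h3, ← h1]
  nlinarith [sq_nonneg (x - 2)]

/-- the parameters for a given `L` -/
lemma params {L c : ℝ} (hL : 1 < L) (hl : 5 < Real.log L) (hc : 0 ≤ c) :
    0 < 1 / Real.sqrt L ∧ 1 / Real.sqrt L ≤ 1 / 3 ∧
      2 / Real.log (1 / (1 / Real.sqrt L)) + c * (1 / L) / (1 / Real.sqrt L) ≤
        (4 + c) / Real.log L := by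
  have hL0 : 0 < L := by linarith
  have hs : 0 < Real.sqrt L := Real.sqrt_pos.2 hL0
  have h1 := log_le_sqrt hL0
  have hl0 : 0 < Real.log L := by linarith
  refine ⟨by positivity, ?_, ?_⟩
  · refine one_div_le_one_div_of_le (by norm_num) ?_
    linarith
  · rw [one_div_one_div, Real.log_sqrt hL0.le]
    have e1 : c * (1 / L) / (1 / Real.sqrt L) = c / Real.sqrt L := by
      have e2 : L = Real.sqrt L * Real.sqrt L := (Real.mul_self_sqrt hL0.le).symm
      rw [div_div_eq_mul_div, div_one]
      rw [mul_one_div, div_mul_eq_mul_div, div_eq_div_iff hL0.ne' hs.ne']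
      rw [mul_assoc, ← e2]
    rw [e1]
    have e3 : c / Real.sqrt L ≤ c / Real.log L := div_le_div_of_nonneg_left hc hl0 h1
    have e4 : 2 / (Real.log L / 2) = 4 / Real.log L := by
      field_simp
      norm_num
    rw [e4, add_div]
    linarith

/-- **Theorem 1.** -/
theorem nopop (k : ℕ) (hk : 1 ≤ k) (L : ℝ) (hL : 1 < L) (A : Finset ℤ) (hA : A.Nonempty)
    (h0 : (0 : ℤ) ∉ A)
    (hpop : ∀ p : ℕ, p.Prime → ∃ e : ℕ, L * ((A.filter fun a => fa a p ≠ e).card : ℝ) ≤ A.card) :
    (A.card : ℝ) ^ ((k : ℝ) - 5 * k ^ 3 / Real.log L) ≤ 2 ^ k * (pk k A).card := by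
  have hkr : (1 : ℝ) ≤ k := by exact_mod_cast hk
  have hl0 : 0 < Real.log L := Real.log_pos hL
  have hN1 : (1 : ℝ) ≤ A.card := by exact_mod_cast card_pos.2 hA
  have hP1 : (1 : ℝ) ≤ (pk k A).card := by exact_mod_cast card_pos.2 (pk_nonempty hA)
  rcases le_or_gt (k : ℝ) (5 * k ^ 3 / Real.log L) with hc | hc
  · have h1 : (A.card : ℝ) ^ ((k : ℝ) - 5 * k ^ 3 / Real.log L) ≤ 1 :=
      Real.rpow_le_one_of_one_le_of_nonpos hN1 (by linarith)
    have h2 : (1 : ℝ) ≤ 2 ^ k := one_le_pow₀ (by norm_num)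
    nlinarith
  · rw [div_lt_iff₀ hl0] at hc
    have hl5 : 5 * (k : ℝ) ^ 2 < Real.log L := by
      by_contra h
      have := mul_le_mul_of_nonneg_left (not_lt.1 h) (show (0 : ℝ) ≤ k by positivity)
      nlinarith
    have hk2 : (1 : ℝ) ≤ (k : ℝ) ^ 2 := one_le_pow₀ hkr
    have hl55 : 5 < Real.log L := by linarith
    obtain ⟨p1, p2, p3⟩ := params hL hl55 (show (0 : ℝ) ≤ k by positivity)
    have hL0 : 0 < L := by linarith
    choose! e he using hpop
    set κ := 2 / Real.log (1 / (1 / Real.sqrt L)) + k * (1 / L) / (1 / Real.sqrt L) with hκ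
    have hκ5 : κ ≤ 5 * k / Real.log L := by
      refine p3.trans ?_
      rw [div_le_div_iff_of_pos_right hl0]
      linarith
    have hκk : k * κ ≤ 1 := by
      have h1 : k * κ ≤ k * (5 * k / Real.log L) := mul_le_mul_of_nonneg_left hκ5 (by positivity)
      have h2 : k * (5 * k / Real.log L) = 5 * (k : ℝ) ^ 2 / Real.log L := by ring
      rw [h2] at h1
      refine h1.trans ?_
      rw [div_le_one hl0]
      exact hl5.le
    have hκ0 : 0 ≤ κ := by
      have h3 : 0 < Real.log (1 / (1 / Real.sqrt L)) := by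
        rw [one_div_one_div, Real.log_sqrt hL0.le]
        linarith
      positivity
    have hκ1 : κ ≤ 1 := by nlinarith
    have main := prod_entropy A hA h0 (pr A) e k hk (τ := 1 / L) (θ := 1 / Real.sqrt L)
      (by positivity) p1 p2 hκ1 (fun p hp => by
        have := he p (prime_of_mem_pr hp)
        rw [one_div, ← div_eq_inv_mul, le_div_iff₀ hL0]
        linarith)
    have e1 : (1 - 2 / Real.log (1 / (1 / Real.sqrt L)) - k * (1 / L) / (1 / Real.sqrt L)) =
        1 - κ := by
      rw [hκ]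
      ring
    rw [e1] at main
    have hbern : 1 - (k : ℝ) * κ ≤ (1 - κ) ^ (k - 1) := by
      have h1 := one_add_mul_le_pow (show (-2 : ℝ) ≤ -κ by linarith) (k - 1)
      have h2 : ((k - 1 : ℕ) : ℝ) ≤ k := by exact_mod_cast Nat.sub_le _ _
      have h3 : 1 - (k : ℝ) * κ ≤ 1 + ((k - 1 : ℕ) : ℝ) * (-κ) := by nlinarith
      rw [sub_eq_add_neg 1 κ]
      exact h3.trans h1
    have hh := h_ge_short A A hA (mk (pr A) (X e)) (Subset.refl _) (F := 2) (fun x hx => by
      exact_mod_cast fc_le_two A h0 e hx)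
    rw [div_self (by linarith), one_mul] at hh
    set H := h A (mk (pr A) (X e)) with hH
    have hH0 : 0 ≤ H := h_nonneg _ _
    have s1 : (1 - (k : ℝ) * κ) * k * H ≤ (1 - κ) ^ (k - 1) * k * H := by
      gcongr
    have hE : (k : ℝ) - 5 * k ^ 3 / Real.log L ≤ (1 - (k : ℝ) * κ) * k := by
      have h1 : (k : ℝ) * k * κ ≤ k * k * (5 * k / Real.log L) :=
        mul_le_mul_of_nonneg_left hκ5 (by positivity)
      have h2 : (k : ℝ) * k * (5 * k / Real.log L) = 5 * k ^ 3 / Real.log L := by ring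
      linarith
    set E := (k : ℝ) - 5 * k ^ 3 / Real.log L with hEd
    have hE0 : 0 ≤ E := by
      have : 5 * (k : ℝ) ^ 3 / Real.log L ≤ k := by
        rw [div_le_iff₀ hl0]
        linarith
      linarith
    have hEk : E ≤ k := by
      have : 0 ≤ 5 * (k : ℝ) ^ 3 / Real.log L := by positivity
      linarith
    have s2 : E * H ≤ Real.log (pk k A).card := by
      have := mul_le_mul_of_nonneg_right hE hH0
      linarith
    have s3 : E * Real.log A.card - k * Real.log 2 ≤ E * H := by
      have h1 := mul_le_mul_of_nonneg_left hh hE0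
      have h2 : 0 ≤ Real.log 2 := Real.log_nonneg (by norm_num)
      nlinarith
    have hN0 : (0 : ℝ) < A.card := by linarith
    rw [← Real.log_le_log_iff (Real.rpow_pos_of_pos hN0 _) (by positivity), Real.log_rpow hN0,
      Real.log_mul (by positivity) (by positivity), Real.log_pow]
    linarith

/-- **Theorem 1 for two sets.** -/
theorem nopop_two (L : ℝ) (hL : 1 < L) (A B : Finset ℤ) (hA : A.Nonempty) (hB : B.Nonempty)
    (h0 : (0 : ℤ) ∉ A) (h0' : (0 : ℤ) ∉ B)
    (hpop : ∀ p : ℕ, p.Prime → ∃ e : ℕ, L * ((A.filter fun a => fa a p ≠ e).card : ℝ) ≤ A.card)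
    (hpop' : ∀ p : ℕ, p.Prime → ∃ e : ℕ, L * ((B.filter fun a => fa a p ≠ e).card : ℝ) ≤ B.card) :
    ((A.card : ℝ) * B.card) ^ (1 - 5 / Real.log L) ≤
      4 * ((A ×ˢ B).image fun s => s.1 * s.2).card := by
  have hl0 : 0 < Real.log L := Real.log_pos hL
  have hN1 : (1 : ℝ) ≤ A.card := by exact_mod_cast card_pos.2 hA
  have hN1' : (1 : ℝ) ≤ B.card := by exact_mod_cast card_pos.2 hB
  have hN : (1 : ℝ) ≤ (A.card : ℝ) * B.card := by nlinarith
  have hP1 : (1 : ℝ) ≤ ((A ×ˢ B).image fun s => s.1 * s.2).card := by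
    exact_mod_cast card_pos.2 ((hA.product hB).image _)
  rcases le_or_gt (1 : ℝ) (5 / Real.log L) with hc | hc
  · have h1 : ((A.card : ℝ) * B.card) ^ (1 - 5 / Real.log L) ≤ 1 :=
      Real.rpow_le_one_of_one_le_of_nonpos hN (by linarith)
    linarith
  · rw [div_lt_iff₀ hl0, one_mul] at hc
    obtain ⟨p1, p2, p3⟩ := params hL hc (show (0 : ℝ) ≤ 1 by norm_num)
    have hL0 : 0 < L := by linarith
    choose! e he using hpop
    choose! e' he' using hpop'
    -- the common set of primes
    set T := pr (A ∪ B) with hT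
    have main := prod_entropy_two A B hA hB h0 h0' T e e' (τ := 1 / L) (θ := 1 / Real.sqrt L)
      p1 p2 (fun p hp => by
        have := he p (prime_of_mem_pr hp)
        rw [one_div, ← div_eq_inv_mul, le_div_iff₀ hL0]
        linarith) (fun p hp => by
        have := he' p (prime_of_mem_pr hp)
        rw [one_div, ← div_eq_inv_mul, le_div_iff₀ hL0]
        linarith)
    have short : ∀ (C : Finset ℤ) (g : ℕ → ℕ), (0 : ℤ) ∉ C → C ⊆ A ∪ B → ∀ x ∈ C,
        (fc C (mk T (X g)) x : ℝ) ≤ 2 := by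
      intro C g hC hCs x hx
      have h1 : cl C (mk T (X g)) x ⊆ cl C (mk (pr C) (X g)) x := by
        intro y hy
        rw [mem_cl, mk_X_eq_iff] at hy ⊢
        refine ⟨hy.1, fun p hp => hy.2 p ?_⟩
        rw [hT]
        obtain ⟨a, ha, hpa⟩ := mem_biUnion.1 hp
        exact mem_biUnion.2 ⟨a, hCs ha, hpa⟩
      have h2 := (card_le_card h1).trans (fc_le_two C hC g hx)
      exact_mod_cast h2
    have hhA := h_ge_short A A hA (mk T (X e)) (Subset.refl _) (F := 2)
      (short A e h0 subset_union_left)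
    have hhB := h_ge_short B B hB (mk T (X e')) (Subset.refl _) (F := 2)
      (short B e' h0' subset_union_right)
    rw [div_self (by linarith), one_mul] at hhA hhB
    set HA := h A (mk T (X e)) with hHA
    set HB := h B (mk T (X e')) with hHB
    have hHA0 : 0 ≤ HA := h_nonneg _ _
    have hHB0 : 0 ≤ HB := h_nonneg _ _
    have hE : 1 - 5 / Real.log L ≤ 1 - 2 / Real.log (1 / (1 / Real.sqrt L)) -
        (1 / L) / (1 / Real.sqrt L) := by
      rw [one_mul] at p3
      have : (4 + 1) / Real.log L = 5 / Real.log L := by norm_num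
      linarith
    set E := 1 - 5 / Real.log L with hEd
    have hE0 : 0 ≤ E := by
      have : 5 / Real.log L ≤ 1 := by
        rw [div_le_one hl0]
        exact hc.le
      linarith
    have hE1 : E ≤ 1 := by
      have : 0 ≤ 5 / Real.log L := by positivity
      linarith
    have s2 := mul_le_mul_of_nonneg_right hE (show 0 ≤ HA + HB by linarith)
    have s3 : E * (Real.log A.card + Real.log B.card) - 2 * Real.log 2 ≤ E * (HA + HB) := by
      have h1 := mul_le_mul_of_nonneg_left (add_le_add hhA hhB) hE0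
      have h2 : 0 ≤ Real.log 2 := Real.log_nonneg (by norm_num)
      nlinarith
    have hN0 : (0 : ℝ) < (A.card : ℝ) * B.card := by linarith
    have h4 : Real.log 4 = 2 * Real.log 2 := by
      rw [show (4 : ℝ) = 2 ^ 2 by norm_num, Real.log_pow]
      push_cast
      ring
    have e5 : Real.log (4 * (((A ×ˢ B).image fun s => s.1 * s.2).card : ℝ)) = 2 * Real.log 2 +
        Real.log (((A ×ˢ B).image fun s => s.1 * s.2).card : ℝ) := by
      rw [Real.log_mul (by norm_num) (by positivity), h4]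
    have e6 : Real.log ((A.card : ℝ) * B.card) = Real.log A.card + Real.log B.card :=
      Real.log_mul (by positivity) (by positivity)
    rw [← Real.log_le_log_iff (Real.rpow_pos_of_pos hN0 _) (by positivity), Real.log_rpow hN0,
      e5, e6]
    linarith

end Pool.Agent.Y359.PE
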