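import Mathlib
import Pool.Agent.Y359.PE.NoPop

/-!
# Sets in which every prime power divides few elements
-/

set_option autoImplicit false

namespace Pool.Agent.Y359.PE

open Finset
open scoped Classical

/-- the entropy conclusion in terms of a generic loss -/
lemma prod_of_entropy (A : Finset ℤ) (hA : A.Nonempty) (h0 : (0 : ℤ) ∉ A) (T : Finset ℕ)
    (e : ℕ → ℕ) (k : ℕ) (hk : 1 ≤ k) {L γ : ℝ} (hL : 1 < L) (hl : 5 < Real.log L) (hγ : γ ≤ 1)
    (hLγ : k * (4 + k) / Real.log L ≤ γ)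
    (hT : ∀ p ∈ T, L * ((A.filter fun a => fa a p ≠ e p).card : ℝ) ≤ A.card) :
    (1 - γ) * k * h A (mk T (X e)) ≤ Real.log (pk k A).card := by
  have hkr : (1 : ℝ) ≤ k := by exact_mod_cast hk
  obtain ⟨p1, p2, p3⟩ := params hL hl (show (0 : ℝ) ≤ k by positivity)
  have hL0 : 0 < L := by linarith
  have hl0 : 0 < Real.log L := by linarith
  set κ := 2 / Real.log (1 / (1 / Real.sqrt L)) + k * (1 / L) / (1 / Real.sqrt L) with hκ
  have hκk : k * κ ≤ γ := by
    have h1 := mul_le_mul_of_nonneg_left p3 (show (0 : ℝ) ≤ k by positivity)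
    rw [← mul_div_assoc] at h1
    exact h1.trans hLγ
  have hκ0 : 0 ≤ κ := by
    have h3 : 0 < Real.log (1 / (1 / Real.sqrt L)) := by
      rw [one_div_one_div, Real.log_sqrt hL0.le]
      linarith
    positivity
  have hκ1 : κ ≤ 1 := by nlinarith
  have main := prod_entropy A hA h0 T e k hk (τ := 1 / L) (θ := 1 / Real.sqrt L)
    (by positivity) p1 p2 hκ1 (fun p hp => by
      have := hT p hp
      rw [one_div, ← div_eq_inv_mul, le_div_iff₀ hL0]
      linarith)
  have e1 : (1 - 2 / Real.log (1 / (1 / Real.sqrt L)) - k * (1 / L) / (1 / Real.sqrt L)) =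
      1 - κ := by
    rw [hκ]
    ring
  rw [e1] at main
  have hbern : 1 - (k : ℝ) * κ ≤ (1 - κ) ^ (k - 1) := by
    have h1 := one_add_mul_le_pow (show (-2 : ℝ) ≤ -κ by linarith) (k - 1)
    have h2 : ((k - 1 : ℕ) : ℝ) ≤ k := by exact_mod_cast Nat.sub_le _ _
    have h3 : 1 - (k : ℝ) * κ ≤ 1 + ((k - 1 : ℕ) : ℝ) * (-κ) := by nlinarith
    rw [sub_eq_add_neg 1 κ]
    exact h3.trans h1
  have hH0 : 0 ≤ h A (mk T (X e)) := h_nonneg _ _
  refine le_trans ?_ main
  have h4 : 1 - γ ≤ (1 - κ) ^ (k - 1) := by linarith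
  gcongr

/-- the number of the elements in a class when the other valuations are bounded -/
lemma fc_le_box (A : Finset ℤ) (h0 : (0 : ℤ) ∉ A) (P : Finset ℕ) (J : ℕ)
    (hJ : ∀ a ∈ A, ∀ p ∈ P, fa a p < J) (e : ℕ → ℕ) (x : ℤ) :
    fc A (mk (pr A \ P) (X e)) x ≤ 2 * J ^ P.card := by
  -- a class injects into the sign and the valuations at `P`
  have h1 : (cl A (mk (pr A \ P) (X e)) x).card ≤
      ((univ : Finset Bool) ×ˢ (P.pi fun _ => range J)).card := by
    refine card_le_card_of_injOn (fun y => (decide (0 < y), fun p _ => fa y p)) ?_ ?_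
    · intro y hy
      rw [mem_coe, mem_cl] at hy
      rw [mem_coe, mem_product]
      refine ⟨mem_univ _, ?_⟩
      rw [Finset.mem_pi]
      intro p hp
      exact mem_range.2 (hJ y hy.1 p hp)
    · intro y hy z hz hyz
      rw [mem_coe, mem_cl, mk_X_eq_iff] at hy hz
      rw [Prod.mk.injEq] at hyz
      have hs : (0 < y ↔ 0 < z) := by
        have := hyz.1
        rw [decide_eq_decide] at this
        exact this
      refine eq_of_fa (fun h => h0 (h ▸ hy.1)) (fun h => h0 (h ▸ hz.1)) hs ?_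
      intro p
      by_cases hp : p ∈ P
      · exact congrFun (congrFun hyz.2 p) hp
      · by_cases hp2 : p ∈ pr A
        · have hp3 : p ∈ pr A \ P := mem_sdiff.2 ⟨hp2, hp⟩
          exact (hy.2 p hp3).trans (hz.2 p hp3).symm
        · rw [fa_eq_zero hy.1 hp2, fa_eq_zero hz.1 hp2]
  refine h1.trans (le_of_eq ?_)
  rw [card_product, card_univ, Fintype.card_bool, card_pi, prod_const, card_range]

/-- divisibility and the exponent -/
lemma le_fa_iff {a : ℤ} (ha : a ≠ 0) {p : ℕ} (hp : p.Prime) (j : ℕ) :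
    j ≤ fa a p ↔ ((p ^ j : ℕ) : ℤ) ∣ a := by
  unfold fa
  rw [← hp.pow_dvd_iff_le_factorization (Int.natAbs_ne_zero.2 ha), Int.natCast_dvd]

/-- **Theorem 3.** If every prime power divides few elements, the product sets are large. -/
theorem primepow (k : ℕ) (hk : 1 ≤ k) (K ε : ℝ) (hK : 1 ≤ K) (hε : 0 < ε) (hε1 : ε ≤ 1) :
    ∃ L c : ℝ, 1 ≤ L ∧ 0 < c ∧ ∀ A : Finset ℤ, A.Nonempty →
      (∀ q : ℕ, IsPrimePow q →
        ((A.filter fun a : ℤ => (q : ℤ) ∣ a).card : ℝ) ≤ (K / q + 1 / L) * A.card) →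
      c * (A.card : ℝ) ^ ((k : ℝ) - ε) ≤ (pk k A).card := by
  have hkr : (1 : ℝ) ≤ k := by exact_mod_cast hk
  -- the parameter `M`
  have hlim : Filter.Tendsto (fun n : ℕ => Real.log ((n : ℝ) / (4 * K))) Filter.atTop
      Filter.atTop :=
    Real.tendsto_log_atTop.comp (tendsto_natCast_atTop_atTop.atTop_div_const (by positivity))
  obtain ⟨M, hM⟩ := (Filter.tendsto_atTop.1 hlim (6 + k * (4 + k) * k / ε)).exists_forall_of_atTop
  set m : ℕ := max M (⌈4 * K⌉₊ + 4) with hm
  have hmM : M ≤ m := le_max_left _ _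
  have hm4 : 4 * K ≤ m := (Nat.le_ceil _).trans (by
    have : ⌈4 * K⌉₊ ≤ m := by omega
    exact_mod_cast this)
  have hlog := hM m hmM
  have hm0 : (0 : ℝ) < m := by linarith
  have hm1 : 4 ≤ m := by omega
  set Λ : ℝ := (m : ℝ) / (4 * K) with hΛ
  have hbig : 0 ≤ k * (4 + k) * k / ε := by positivity
  have hl5 : 5 < Real.log Λ := by linarith
  have hl0 : 0 < Real.log Λ := by linarith
  have hΛ0 : 0 < Λ := by positivity
  have hΛ1 : 1 < Λ := by
    by_contra h
    have := Real.log_nonpos hΛ0.le (not_lt.1 h)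
    linarith
  -- the constants
  set γ : ℝ := ε / k with hγ
  have hγ1 : γ ≤ 1 := by
    rw [hγ, div_le_one (by linarith)]
    linarith
  have hγ0 : 0 < γ := by positivity
  have hLγ : k * (4 + k) / Real.log Λ ≤ γ := by
    rw [hγ, div_le_div_iff₀ hl0 (by linarith)]
    have : k * (4 + k) * k / ε ≤ Real.log Λ := by linarith
    rw [div_le_iff₀ hε] at this
    linarith
  set P : Finset ℕ := (range (m + 1)).filter Nat.Prime with hP
  set J : ℕ := m ^ 2 with hJ
  set D : ℝ := 2 * 2 * (J : ℝ) ^ P.card with hD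
  have hD1 : 1 ≤ D := by
    have : (1 : ℝ) ≤ (J : ℝ) ^ P.card := by
      refine one_le_pow₀ ?_
      rw [hJ]
      exact_mod_cast Nat.one_le_pow _ _ (by omega)
    rw [hD]
    linarith
  refine ⟨(m : ℝ) ^ 2, 1 / D ^ k, ?_, by positivity, ?_⟩
  · have : (1 : ℝ) ≤ m := by linarith
    nlinarith
  intro A hA hq
  have hN0 : (0 : ℝ) < A.card := by exact_mod_cast card_pos.2 hA
  have hN1 : (1 : ℝ) ≤ A.card := by exact_mod_cast card_pos.2 hA
  -- the removed elements
  set R : Finset ℤ := P.biUnion fun p => A.filter fun a : ℤ => ((p ^ J : ℕ) : ℤ) ∣ a with hR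
  have hRc : (R.card : ℝ) ≤ A.card / 2 := by
    have h1 : (R.card : ℝ) ≤ ∑ p ∈ P, ((A.filter fun a : ℤ => ((p ^ J : ℕ) : ℤ) ∣ a).card : ℝ) := by
      exact_mod_cast card_biUnion_le
    have h2 : ∀ p ∈ P, ((A.filter fun a : ℤ => ((p ^ J : ℕ) : ℤ) ∣ a).card : ℝ) ≤
        2 * K / (m : ℝ) ^ 2 * A.card := by
      intro p hp
      have hpp : p.Prime := (mem_filter.1 hp).2
      have hJ0 : J ≠ 0 := by
        rw [hJ]
        exact pow_ne_zero _ (by omega)
      have h3 := hq (p ^ J) (hpp.isPrimePow.pow hJ0)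
      refine h3.trans ?_
      have h4 : (m : ℝ) ^ 2 ≤ ((p ^ J : ℕ) : ℝ) := by
        have h5 : J ≤ p ^ J := (Nat.lt_pow_self hpp.one_lt).le
        have h6 : m ^ 2 ≤ p ^ J := by
          rw [← hJ]
          exact h5
        exact_mod_cast h6
      have h7 : K / ((p ^ J : ℕ) : ℝ) ≤ K / (m : ℝ) ^ 2 :=
        div_le_div_of_nonneg_left (by linarith) (by positivity) h4
      have h8 : 1 / (m : ℝ) ^ 2 ≤ K / (m : ℝ) ^ 2 := by gcongr
      have h9 : K / ((p ^ J : ℕ) : ℝ) + 1 / (m : ℝ) ^ 2 ≤ 2 * K / (m : ℝ) ^ 2 := by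
        have : 2 * K / (m : ℝ) ^ 2 = K / (m : ℝ) ^ 2 + K / (m : ℝ) ^ 2 := by ring
        linarith
      exact mul_le_mul_of_nonneg_right h9 hN0.le
    have hPc : (P.card : ℝ) ≤ m := by
      have h10 : P ⊆ (range (m + 1)).erase 0 := by
        intro p hp
        rw [mem_erase]
        exact ⟨(mem_filter.1 hp).2.ne_zero, (mem_filter.1 hp).1⟩
      have h11 := card_le_card h10
      rw [card_erase_of_mem (mem_range.2 (by omega)), card_range] at h11
      exact_mod_cast h11
    have h12 := h1.trans (sum_le_sum h2)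
    rw [sum_const, nsmul_eq_mul] at h12
    refine h12.trans ?_
    have h13 : (P.card : ℝ) * (2 * K / (m : ℝ) ^ 2 * A.card) ≤
        m * (2 * K / (m : ℝ) ^ 2 * A.card) := mul_le_mul_of_nonneg_right hPc (by positivity)
    refine h13.trans ?_
    have h14 : m * (2 * K / (m : ℝ) ^ 2 * A.card) = (2 * K / m) * A.card := by
      field_simp
    rw [h14]
    have h15 : 2 * K / m ≤ 1 / 2 := by
      rw [div_le_iff₀ hm0]
      linarith
    nlinarith
  set A₁ := A \ R with hA₁
  have hA₁A : A₁ ⊆ A := sdiff_subset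
  have hcard : (A.card : ℝ) / 2 ≤ A₁.card := by
    have h1 : A.card - R.card ≤ A₁.card := le_card_sdiff _ _
    have h2 : (A.card : ℝ) ≤ A₁.card + R.card := by
      have : A.card ≤ A₁.card + R.card := by omega
      exact_mod_cast this
    linarith
  have hA₁0 : (0 : ℝ) < A₁.card := by linarith
  have hA₁n : A₁.Nonempty := card_pos.1 (by exact_mod_cast hA₁0)
  have h2P : 2 ∈ P := mem_filter.2 ⟨mem_range.2 (by omega), Nat.prime_two⟩
  have hnotR : ∀ a ∈ A₁, ∀ p ∈ P, ¬ ((p ^ J : ℕ) : ℤ) ∣ a := by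
    intro a ha p hp hd
    rw [hA₁, mem_sdiff] at ha
    exact ha.2 (mem_biUnion.2 ⟨p, hp, mem_filter.2 ⟨ha.1, hd⟩⟩)
  have h0 : (0 : ℤ) ∉ A₁ := fun h => hnotR 0 h 2 h2P (dvd_zero _)
  have hJlt : ∀ a ∈ A₁, ∀ p ∈ P, fa a p < J := by
    intro a ha p hp
    by_contra h
    have ha0 : a ≠ 0 := fun hh => h0 (hh ▸ ha)
    exact hnotR a ha p hp ((le_fa_iff ha0 (mem_filter.1 hp).2 J).1 (not_lt.1 h))
  -- the unpopular primes
  have hunp : ∀ p ∈ pr A₁ \ P, Λ * ((A₁.filter fun a => fa a p ≠ (0 : ℕ)).card : ℝ) ≤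
      A₁.card := by
    intro p hp
    rw [mem_sdiff] at hp
    have hpp := prime_of_mem_pr hp.1
    have hpm : m < p := by
      by_contra h
      exact hp.2 (mem_filter.2 ⟨mem_range.2 (by omega), hpp⟩)
    have h1 := hq p hpp.isPrimePow
    have h2 : ((A₁.filter fun a => fa a p ≠ (0 : ℕ)).card : ℝ) ≤
        ((A.filter fun a : ℤ => (p : ℤ) ∣ a).card : ℝ) := by
      have : (A₁.filter fun a => fa a p ≠ (0 : ℕ)) ⊆ A.filter fun a : ℤ => (p : ℤ) ∣ a := by
        intro a ha
        rw [mem_filter] at ha ⊢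
        refine ⟨hA₁A ha.1, ?_⟩
        have ha0 : a ≠ 0 := fun hh => h0 (hh ▸ ha.1)
        have := (le_fa_iff ha0 hpp 1).1 (Nat.one_le_iff_ne_zero.2 ha.2)
        simpa using this
      exact_mod_cast card_le_card this
    have h3 : K / (p : ℝ) + 1 / (m : ℝ) ^ 2 ≤ 2 * K / m := by
      have h4 : K / (p : ℝ) ≤ K / m :=
        div_le_div_of_nonneg_left (by linarith) hm0 (by exact_mod_cast hpm.le)
      have h5 : 1 / (m : ℝ) ^ 2 ≤ K / m := by
        rw [div_le_div_iff₀ (by positivity) hm0]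
        have : (1 : ℝ) ≤ m := by linarith
        nlinarith [mul_le_mul_of_nonneg_right hK (show (0 : ℝ) ≤ (m : ℝ) ^ 2 by positivity)]
      have : 2 * K / (m : ℝ) = K / m + K / m := by ring
      linarith
    have h6 : ((A₁.filter fun a => fa a p ≠ (0 : ℕ)).card : ℝ) ≤ 2 * K / m * A.card :=
      h2.trans (h1.trans (mul_le_mul_of_nonneg_right h3 hN0.le))
    have h7 := mul_le_mul_of_nonneg_left h6 hΛ0.le
    refine h7.trans ?_
    have h8 : Λ * (2 * K / m * A.card) = A.card / 2 := by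
      rw [hΛ]
      field_simp
      ring
    rw [h8]
    exact hcard
  have main := prod_of_entropy A₁ hA₁n h0 (pr A₁ \ P) (fun _ => 0) k hk hΛ1 hl5 hγ1 hLγ hunp
  have hh := h_ge_short A₁ A₁ hA₁n (mk (pr A₁ \ P) (X fun _ => 0)) (Subset.refl _)
    (F := 2 * (J : ℝ) ^ P.card) (fun x _ => by
      exact_mod_cast fc_le_box A₁ h0 P J hJlt (fun _ => 0) x)
  rw [div_self hA₁0.ne', one_mul] at hh
  set H := h A₁ (mk (pr A₁ \ P) (X fun _ => 0)) with hH
  -- conclusion
  have hlogA : Real.log A.card - Real.log 2 ≤ Real.log A₁.card := by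
    rw [← Real.log_div hN0.ne' (by norm_num)]
    exact Real.log_le_log (by positivity) hcard
  have hJ0 : (0 : ℝ) < (J : ℝ) ^ P.card := by
    have : (0 : ℝ) < J := by
      rw [hJ]
      push_cast
      positivity
    positivity
  have hlogD : Real.log D = Real.log 2 + Real.log (2 * (J : ℝ) ^ P.card) := by
    rw [hD, mul_assoc, Real.log_mul (by norm_num) (by positivity)]
  have hHlow : Real.log A.card - Real.log D ≤ H := by linarith
  have hsub : ((pk k A₁).card : ℝ) ≤ (pk k A).card := by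
    exact_mod_cast card_le_card (pk_mono hA₁A)
  refine le_trans ?_ hsub
  have hP0 : (0 : ℝ) < (pk k A₁).card := by exact_mod_cast card_pos.2 (pk_nonempty hA₁n)
  rw [← Real.log_le_log_iff (by positivity) hP0, Real.log_mul (by positivity)
    (Real.rpow_pos_of_pos hN0 _).ne', Real.log_rpow hN0, Real.log_div one_ne_zero (by positivity),
    Real.log_one, Real.log_pow]
  refine le_trans ?_ main
  have hE : (1 - γ) * k = k - ε := by
    rw [hγ]
    field_simp
  rw [hE]
  have hE0 : 0 ≤ (k : ℝ) - ε := by linarith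
  have h1 := mul_le_mul_of_nonneg_left hHlow hE0
  have h2 : 0 ≤ Real.log D := Real.log_nonneg hD1
  nlinarith

end Pool.Agent.Y359.PE
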