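import Mathlib
import Pool.Agent.Y359.PE.Pow
import Pool.Agent.W219.SP.Kres

/-!
# Sets with few popular primes: sums or products
-/

set_option autoImplicit false

namespace Pool.Agent.Y359.PE

open Finset
open scoped Classical Pointwise

lemma fact_prod (P : Finset ℕ) (hP : ∀ p ∈ P, p.Prime) (g : ℕ → ℕ) (q : ℕ) :
    (∏ p ∈ P, p ^ g p).factorization q = if q ∈ P then g q else 0 := by
  rw [Nat.factorization_prod (fun p hp => pow_ne_zero _ (hP p hp).ne_zero),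
    Finsupp.finsetSum_apply]
  have h1 : ∀ p ∈ P, (p ^ g p).factorization q = if q = p then g p else 0 := by
    intro p hp
    rw [(hP p hp).factorization_pow, Finsupp.single_apply]
    by_cases h : p = q
    · rw [if_pos h, if_pos h.symm]
    · rw [if_neg h, if_neg (Ne.symm h)]
  rw [sum_congr rfl h1, sum_ite_eq]

/-- two integers of the same sign with the same valuations outside `P` -/
lemma rep (P : Finset ℕ) (hP : ∀ p ∈ P, p.Prime) {x y : ℤ} (hx : x ≠ 0) (hy : y ≠ 0)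
    (hs : 0 < x ↔ 0 < y) (h : ∀ p, p ∉ P → fa x p = fa y p) :
    (y : ℚ) = x * ∏ p ∈ P, (p : ℚ) ^ ((fa y p : ℤ) - fa x p) := by
  have hne : ∀ g : ℕ → ℕ, (∏ p ∈ P, p ^ g p) ≠ 0 := fun g =>
    prod_ne_zero_iff.2 fun p hp => pow_ne_zero _ (hP p hp).ne_zero
  have h1 : y.natAbs * ∏ p ∈ P, p ^ fa x p = x.natAbs * ∏ p ∈ P, p ^ fa y p := by
    refine Nat.eq_of_factorization_eq (mul_ne_zero (Int.natAbs_ne_zero.2 hy) (hne _))
      (mul_ne_zero (Int.natAbs_ne_zero.2 hx) (hne _)) fun q => ?_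
    rw [Nat.factorization_mul (Int.natAbs_ne_zero.2 hy) (hne _),
      Nat.factorization_mul (Int.natAbs_ne_zero.2 hx) (hne _), Finsupp.add_apply,
      Finsupp.add_apply, fact_prod P hP, fact_prod P hP]
    change fa y q + _ = fa x q + _
    by_cases hq : q ∈ P
    · rw [if_pos hq, if_pos hq]
      ring
    · rw [if_neg hq, if_neg hq, h q hq]
  have h2 : (y : ℤ) * ∏ p ∈ P, (p : ℤ) ^ fa x p = x * ∏ p ∈ P, (p : ℤ) ^ fa y p := by
    have h3 : ((y.natAbs * ∏ p ∈ P, p ^ fa x p : ℕ) : ℤ) =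
        ((x.natAbs * ∏ p ∈ P, p ^ fa y p : ℕ) : ℤ) := by rw [h1]
    push_cast at h3
    by_cases hx0 : 0 < x
    · have hy0 := hs.1 hx0
      rwa [abs_of_pos hx0, abs_of_pos hy0] at h3
    · have hy0 : ¬ 0 < y := fun h => hx0 (hs.2 h)
      rw [abs_of_nonpos (not_lt.1 hx0), abs_of_nonpos (not_lt.1 hy0)] at h3
      linarith
  have h4 : (y : ℚ) * ∏ p ∈ P, (p : ℚ) ^ fa x p = x * ∏ p ∈ P, (p : ℚ) ^ fa y p := by
    exact_mod_cast h2
  have h5 : ∏ p ∈ P, (p : ℚ) ^ ((fa y p : ℤ) - fa x p) =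
      (∏ p ∈ P, (p : ℚ) ^ fa y p) / ∏ p ∈ P, (p : ℚ) ^ fa x p := by
    rw [← prod_div_distrib]
    refine prod_congr rfl fun p hp => ?_
    have : (p : ℚ) ≠ 0 := by exact_mod_cast (hP p hp).ne_zero
    rw [zpow_sub₀ this, zpow_natCast, zpow_natCast]
  have h6 : (∏ p ∈ P, (p : ℚ) ^ fa x p) ≠ 0 := prod_ne_zero_iff.2 fun p hp =>
    pow_ne_zero _ (by exact_mod_cast (hP p hp).ne_zero)
  rw [h5, ← mul_div_assoc, eq_div_iff h6]
  exact h4

/-- a third of the elements are nonzero and of the same sign -/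
lemma sign_part (B : Finset ℤ) (hB : 3 ≤ B.card) : ∃ S ⊆ B, (0 : ℤ) ∉ S ∧
    (∀ x ∈ S, ∀ y ∈ S, (0 < x ↔ 0 < y)) ∧ B.card ≤ 3 * S.card := by
  have h1 : B ⊆ (B.filter fun x => 0 < x) ∪ (B.filter fun x => x < 0) ∪ {0} := by
    intro x hx
    simp only [mem_union, mem_filter, mem_singleton]
    rcases lt_trichotomy x 0 with h | h | h
    · exact Or.inl (Or.inr ⟨hx, h⟩)
    · exact Or.inr h
    · exact Or.inl (Or.inl ⟨hx, h⟩)
  have h2 := (card_le_card h1).trans (card_union_le _ _)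
  have h3 := card_union_le (B.filter fun x => 0 < x) (B.filter fun x => x < 0)
  rw [card_singleton] at h2
  by_cases hc : B.card ≤ 3 * (B.filter fun x => 0 < x).card
  · refine ⟨_, filter_subset _ _, ?_, ?_, hc⟩
    · simp
    · intro x hx y hy
      exact iff_of_true (mem_filter.1 hx).2 (mem_filter.1 hy).2
  · refine ⟨B.filter fun x => x < 0, filter_subset _ _, ?_, ?_, by omega⟩
    · simp
    · intro x hx y hy
      exact iff_of_false (not_lt.2 (mem_filter.1 hx).2.le) (not_lt.2 (mem_filter.1 hy).2.le)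

/-- the numerical part for the sums -/
lemma num_sum {k r : ℕ} (hk : 1 ≤ k) {ℓ δ M C : ℝ} (hδ1 : 2 * δ ≤ 1)
    (hℓ2 : 2 ≤ ℓ) (hlog : 1 ≤ Real.log ℓ) (hC0 : 0 ≤ C)
    (hC : 2 * C ≤ ℓ) (hM0 : 0 ≤ M) (hM : M ≤ C * (Real.log 2 + ℓ))
    (hr : (r : ℝ) * Real.log ℓ ≤ 2 * δ * ℓ) :
    M ^ r ≤ Real.exp (4 * δ * ℓ) ∧ (r * M + 1) ^ (2 * r * k) ≤ Real.exp (16 * k * δ * ℓ) := by
  have hℓ0 : 0 < ℓ := by linarith
  have hl2 : Real.log 2 ≤ ℓ := by
    have := Real.log_two_lt_d9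
    linarith
  have hMℓ : M ≤ ℓ ^ 2 := by
    refine hM.trans ?_
    have h1 : C * (Real.log 2 + ℓ) ≤ C * (2 * ℓ) := mul_le_mul_of_nonneg_left (by linarith) hC0
    nlinarith
  have hexp : ∀ n : ℕ, (ℓ ^ n : ℝ) = Real.exp (n * Real.log ℓ) := by
    intro n
    rw [mul_comm, Real.exp_mul, Real.exp_log hℓ0, Real.rpow_natCast]
  have hrℓ : (r : ℝ) ≤ ℓ := by
    have h1 : (r : ℝ) ≤ r * Real.log ℓ := le_mul_of_one_le_right (by positivity) hlog
    have h2 : 2 * δ * ℓ ≤ 1 * ℓ := mul_le_mul_of_nonneg_right hδ1 hℓ0.le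
    linarith
  constructor
  · calc M ^ r ≤ (ℓ ^ 2) ^ r := pow_le_pow_left₀ hM0 hMℓ r
      _ = ℓ ^ (2 * r) := by rw [pow_mul]
      _ = Real.exp ((2 * r : ℕ) * Real.log ℓ) := hexp _
      _ ≤ Real.exp (4 * δ * ℓ) := by
        rw [Real.exp_le_exp]
        push_cast
        nlinarith
  · have h1 : r * M + 1 ≤ ℓ ^ 4 := by
      have h2 : (r : ℝ) * M ≤ ℓ * ℓ ^ 2 := mul_le_mul hrℓ hMℓ hM0 hℓ0.le
      have h3 : 1 ≤ ℓ ^ 3 := one_le_pow₀ (by linarith)
      have h4 : ℓ ^ 4 = ℓ ^ 3 * ℓ := by ring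
      rw [h4]
      nlinarith
    have h5 : 0 ≤ r * M + 1 := by positivity
    calc (r * M + 1) ^ (2 * r * k) ≤ (ℓ ^ 4) ^ (2 * r * k) := pow_le_pow_left₀ h5 h1 _
      _ = ℓ ^ (4 * (2 * r * k)) := by rw [← pow_mul]
      _ = Real.exp ((4 * (2 * r * k) : ℕ) * Real.log ℓ) := hexp _
      _ ≤ Real.exp (16 * k * δ * ℓ) := by
        rw [Real.exp_le_exp]
        push_cast
        have := mul_le_mul_of_nonneg_left hr (show (0 : ℝ) ≤ 8 * k by positivity)
        nlinarith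

/-- the additive side -/
lemma sums_case (k : ℕ) (hk : 1 ≤ k) {ε' : ℝ} (hε : 0 < ε') (hε1 : ε' ≤ 1) (P : Finset ℕ)
    (hP : ∀ p ∈ P, p.Prime) (hPn : P.Nonempty) (S : Finset ℤ) (hS : S.Nonempty) (h0 : (0 : ℤ) ∉ S)
    (hs : ∀ x ∈ S, ∀ y ∈ S, (0 < x ↔ 0 < y)) (M : ℝ)
    (hM : M = 4 * k / ε' * Real.exp (6 * k / ε') * Real.log (2 * S.card))
    (hfib : ∀ x ∈ S, M ^ P.card ≤
      ((S.filter fun y => ∀ p, p ∉ P → fa x p = fa y p).card : ℝ)) :
    ((S.card : ℝ) ^ k) ^ (1 - ε') ≤ (P.card * M + 1) ^ (2 * P.card * k) * (sk k S).card := by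
  have h1 := W219.SP.fibre_k k P.card hk (card_pos.2 hPn) ε' hε hε1
    (fun i => (((P.equivFin.symm i : P) : ℕ) : ℚ)) (fun i => by
      have := (hP _ (P.equivFin.symm i).2).pos
      exact_mod_cast this) S {0} hS (singleton_nonempty _) M hM (fun x hx => by
      refine (hfib x hx).trans ?_
      have : (S.filter fun y => ∀ p, p ∉ P → fa x p = fa y p) ⊆
          S.filter fun y : ℤ => ∃ n : Fin P.card → ℤ,
            (y : ℚ) = x * ∏ i, (((P.equivFin.symm i : P) : ℕ) : ℚ) ^ n i := by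
        intro y hy
        rw [mem_filter] at hy ⊢
        refine ⟨hy.1, fun i => (fa y (P.equivFin.symm i : P) : ℤ) - fa x (P.equivFin.symm i : P),
          ?_⟩
        rw [rep P hP (fun h => h0 (h ▸ hx)) (fun h => h0 (h ▸ hy.1)) (hs x hx y hy.1) hy.2]
        congr 1
        rw [← prod_coe_sort P]
        exact (Equiv.prod_comp P.equivFin.symm fun p : P =>
          ((p : ℕ) : ℚ) ^ ((fa y p : ℤ) - fa x p)).symm
      exact_mod_cast card_le_card this)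
  have h2 : (((Fintype.piFinset fun _ : Fin k => S).image fun f => ∑ i, f i) + {0}) = sk k S := by
    unfold sk
    rw [add_singleton]
    simp
  rw [card_singleton, Nat.cast_one, mul_one] at h1
  refine h1.trans (le_of_eq ?_)
  congr 2
  convert congrArg Finset.card h2

end Pool.Agent.Y359.PE
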