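import Mathlib
import Pool.Agent.Y359.PE.Pow

/-!
# The general inequality, and the example which shows that it is sharp
-/

set_option autoImplicit false

namespace Pool.Agent.Y359.PE

open Finset
open scoped Classical

/-- **The general inequality** for an arbitrary set of unpopular primes. -/
theorem general (k : ℕ) (hk : 1 ≤ k) (L : ℝ) (hL : 1 < L) (A : Finset ℤ) (hA : A.Nonempty)
    (h0 : (0 : ℤ) ∉ A) (T : Finset ℕ)
    (hpop : ∀ p ∈ T, ∃ e : ℕ, L * ((A.filter fun a => fa a p ≠ e).card : ℝ) ≤ A.card) :
    ((k : ℝ) - 5 * k ^ 3 / Real.log L) * ∑ a ∈ A, Real.log (A.card /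
      (A.filter fun b => ∀ p ∈ T, fa b p = fa a p).card) ≤ A.card * Real.log (pk k A).card := by
  have hkr : (1 : ℝ) ≤ k := by exact_mod_cast hk
  have hl0 : 0 < Real.log L := Real.log_pos hL
  have hN1 : (1 : ℝ) ≤ A.card := by exact_mod_cast card_pos.2 hA
  have hN0 : (0 : ℝ) < A.card := by linarith
  have hP1 : (1 : ℝ) ≤ (pk k A).card := by exact_mod_cast card_pos.2 (pk_nonempty hA)
  choose! e he using hpop
  have hfilter : ∀ a, (A.filter fun b => ∀ p ∈ T, fa b p = fa a p).card =
      fc A (mk T (X e)) a := by
    intro a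
    unfold fc
    congr 1
    ext b
    rw [mem_filter, mem_cl, mk_X_eq_iff]
  have hsum : ∑ a ∈ A, Real.log (A.card / (A.filter fun b => ∀ p ∈ T, fa b p = fa a p).card) =
      A.card * h A (mk T (X e)) := by
    unfold h
    rw [mul_div_cancel₀ _ hN0.ne']
    refine sum_congr rfl fun a ha => ?_
    rw [hfilter, Real.log_div hN0.ne' (fc_posR ha).ne']
  rw [hsum]
  have hH0 : 0 ≤ h A (mk T (X e)) := h_nonneg _ _
  have hlogP : 0 ≤ Real.log (pk k A).card := Real.log_nonneg hP1
  rcases le_or_gt (k : ℝ) (5 * k ^ 3 / Real.log L) with hc | hc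
  · have h1 : ((k : ℝ) - 5 * k ^ 3 / Real.log L) * (A.card * h A (mk T (X e))) ≤ 0 :=
      mul_nonpos_of_nonpos_of_nonneg (by linarith) (by positivity)
    have h2 : 0 ≤ A.card * Real.log (pk k A).card := by positivity
    linarith
  · rw [div_lt_iff₀ hl0] at hc
    have hl5 : 5 * (k : ℝ) ^ 2 < Real.log L := by
      by_contra h
      have := mul_le_mul_of_nonneg_left (not_lt.1 h) (show (0 : ℝ) ≤ k by positivity)
      nlinarith
    have hk2 : (1 : ℝ) ≤ (k : ℝ) ^ 2 := one_le_pow₀ hkr
    have hl55 : 5 < Real.log L := by linarith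
    have hγ1 : 5 * (k : ℝ) ^ 2 / Real.log L ≤ 1 := by
      rw [div_le_one hl0]
      exact hl5.le
    have main := prod_of_entropy A hA h0 T e k hk hL hl55 hγ1 (by
      rw [div_le_div_iff_of_pos_right hl0]
      nlinarith) he
    have e1 : (1 - 5 * (k : ℝ) ^ 2 / Real.log L) * k = (k : ℝ) - 5 * k ^ 3 / Real.log L := by
      ring
    rw [e1] at main
    have := mul_le_mul_of_nonneg_left main hN0.le
    linarith

/-- a family of distinct primes -/
noncomputable def pp (L : ℕ) (i j : ℕ) : ℕ := Nat.nth Nat.Prime (i * L + j)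

lemma pp_prime (L i j : ℕ) : (pp L i j).Prime := Nat.prime_nth_prime _

lemma pp_inj {L i j i' j' : ℕ} (hj : j < L) (hj' : j' < L) (h : pp L i j = pp L i' j') :
    i = i' ∧ j = j' := by
  have h1 : i * L + j = i' * L + j' := Nat.nth_injective Nat.infinite_setOfPred_prime h
  have hL : 0 < L := by omega
  have h2 : i = i' := by
    have e1 : (i * L + j) / L = i := by
      rw [mul_comm, Nat.mul_add_div hL, Nat.div_eq_of_lt hj, add_zero]
    have e2 : (i' * L + j') / L = i' := by
      rw [mul_comm, Nat.mul_add_div hL, Nat.div_eq_of_lt hj', add_zero]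
    rw [← e1, ← e2, h1]
  refine ⟨h2, ?_⟩
  rw [h2] at h1
  omega

/-- the element belonging to `f` -/
noncomputable def el (L t : ℕ) (f : Fin t → Fin L) : ℕ := ∏ i : Fin t, pp L i (f i)

lemma el_fact (L t : ℕ) (f : Fin t → Fin L) (p : ℕ) :
    (el L t f).factorization p = ∑ i : Fin t, if pp L i (f i) = p then 1 else 0 := by
  unfold el
  rw [Nat.factorization_prod (fun i _ => (pp_prime _ _ _).ne_zero), Finsupp.finsetSum_apply]
  refine sum_congr rfl fun i _ => ?_
  rw [(pp_prime L i (f i)).factorization, Finsupp.single_apply]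

lemma el_fact_pp (L t : ℕ) (f : Fin t → Fin L) (i : Fin t) (j : Fin L) :
    (el L t f).factorization (pp L i j) = if f i = j then 1 else 0 := by
  rw [el_fact]
  have h1 : ∀ i' : Fin t, (if pp L i' (f i') = pp L i j then 1 else 0 : ℕ) =
      if i' = i then (if f i = j then 1 else 0) else 0 := by
    intro i'
    by_cases hi : i' = i
    · rw [if_pos hi, hi]
      by_cases hj : f i = j
      · rw [if_pos hj, if_pos (by rw [hj])]
      · rw [if_neg hj, if_neg]
        intro h
        exact hj (Fin.ext (pp_inj (f i).2 j.2 h).2)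
    · rw [if_neg hi, if_neg]
      intro h
      exact hi (Fin.ext (pp_inj (f i').2 j.2 h).1)
  rw [sum_congr rfl fun i' _ => h1 i', sum_ite_eq' univ i]
  simp

lemma el_inj (L t : ℕ) : Function.Injective (el L t) := by
  intro f g hfg
  funext i
  have h1 := el_fact_pp L t f i (f i)
  have h2 := el_fact_pp L t g i (f i)
  rw [hfg, h2] at h1
  by_contra h
  rw [if_pos rfl, if_neg (Ne.symm h)] at h1
  exact absurd h1 (by norm_num)

/-- the number of functions with a given value at a point -/
lemma card_fix (L t : ℕ) (i : Fin t) (j : Fin L) :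
    L * ((univ : Finset (Fin t → Fin L)).filter fun f => f i = j).card = L ^ t := by
  have h1 : ∀ j' : Fin L, ((univ : Finset (Fin t → Fin L)).filter fun f => f i = j').card =
      ((univ : Finset (Fin t → Fin L)).filter fun f => f i = j).card := by
    intro j'
    refine card_bij (fun f _ => Function.update f i j) ?_ ?_ ?_
    · intro f _
      rw [mem_filter]
      exact ⟨mem_univ _, Function.update_self _ _ _⟩
    · intro f hf g hg hfg
      funext x
      by_cases hx : x = i
      · rw [hx, (mem_filter.1 hf).2, (mem_filter.1 hg).2]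
      · have := congrFun hfg x
        rwa [Function.update_of_ne hx, Function.update_of_ne hx] at this
    · intro g hg
      refine ⟨Function.update g i j', mem_filter.2 ⟨mem_univ _, Function.update_self _ _ _⟩, ?_⟩
      funext x
      by_cases hx : x = i
      · rw [hx, Function.update_self, (mem_filter.1 hg).2]
      · rw [Function.update_of_ne hx, Function.update_of_ne hx]
  have h2 : ∑ j' : Fin L, ((univ : Finset (Fin t → Fin L)).filter fun f => f i = j').card =
      (univ : Finset (Fin t → Fin L)).card := by
    rw [← card_eq_sum_card_fiberwise (f := fun f : Fin t → Fin L => f i) (t := univ)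
      (fun _ _ => mem_coe.2 (mem_univ _))]
  rw [sum_congr rfl fun j' _ => h1 j', sum_const, card_univ, Fintype.card_fin, smul_eq_mul,
    card_univ, Fintype.card_fun, Fintype.card_fin, Fintype.card_fin] at h2
  exact h2

/-- **The example.** -/
theorem example_sharp (k L t : ℕ) (hL : 1 ≤ L) (ht : 1 ≤ t) :
    ∃ A : Finset ℤ, A.card = L ^ t ∧ (0 : ℤ) ∉ A ∧
      (∀ p : ℕ, L * (A.filter fun a => fa a p ≠ 0).card ≤ A.card) ∧
      (pk k A).card ≤ (Nat.multichoose L k) ^ t := by
  set A : Finset ℤ := (univ : Finset (Fin t → Fin L)).image fun f => (el L t f : ℤ) with hA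
  have hinj : Function.Injective fun f : Fin t → Fin L => (el L t f : ℤ) :=
    fun f g h => el_inj L t (by
      have h' : ((el L t f : ℕ) : ℤ) = (el L t g : ℕ) := h
      exact_mod_cast h')
  have hcard : A.card = L ^ t := by
    rw [hA, card_image_of_injective _ hinj, card_univ, Fintype.card_fun, Fintype.card_fin,
      Fintype.card_fin]
  have hne : ∀ f, el L t f ≠ 0 := fun f => prod_ne_zero_iff.2 fun i _ => (pp_prime _ _ _).ne_zero
  refine ⟨A, hcard, ?_, ?_, ?_⟩
  · intro h
    obtain ⟨f, _, hf⟩ := mem_image.1 h
    exact hne f (by exact_mod_cast hf)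
  · intro p
    have h1 : (A.filter fun a => fa a p ≠ 0).card =
        ((univ : Finset (Fin t → Fin L)).filter fun f => (el L t f).factorization p ≠ 0).card := by
      rw [hA, filter_image, card_image_of_injective _ hinj]
      rfl
    rw [h1, hcard]
    by_cases hp : ∃ (i : Fin t) (j : Fin L), pp L i j = p
    · obtain ⟨i, j, rfl⟩ := hp
      have h2 : ((univ : Finset (Fin t → Fin L)).filter fun f =>
          (el L t f).factorization (pp L i j) ≠ 0) =
          (univ : Finset (Fin t → Fin L)).filter fun f => f i = j := by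
        ext f
        rw [mem_filter, mem_filter, el_fact_pp]
        by_cases h : f i = j
        · simp [h]
        · simp [h]
      rw [h2, card_fix]
    · have h2 : ((univ : Finset (Fin t → Fin L)).filter fun f =>
          (el L t f).factorization p ≠ 0) = ∅ := by
        rw [filter_eq_empty_iff]
        intro f _ hf
        apply hf
        rw [el_fact]
        exact sum_eq_zero fun i _ => if_neg fun h => hp ⟨i, f i, h⟩
      rw [h2, card_empty, mul_zero]
      exact Nat.zero_le _
  · -- the products depend only on the multisets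
    have h1 : pk k A ⊆ (univ : Finset (Fin t → Sym (Fin L) k)).image fun s =>
        ((∏ i : Fin t, ((s i : Multiset (Fin L)).map fun j : Fin L => pp L i j).prod : ℕ) : ℤ) := by
      intro v hv
      obtain ⟨g, hg, rfl⟩ := mem_image.1 hv
      rw [Fintype.mem_piFinset] at hg
      have hg' : ∀ m, ∃ f : Fin t → Fin L, (el L t f : ℤ) = g m := by
        intro m
        obtain ⟨f, _, hf⟩ := mem_image.1 (hg m)
        exact ⟨f, hf⟩
      choose f hf using hg'
      refine mem_image.2 ⟨fun i => ⟨(univ : Finset (Fin k)).val.map fun m => f m i, by simp⟩,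
        mem_univ _, ?_⟩
      have h2 : (∏ m, g m) = ((∏ m : Fin k, el L t (f m) : ℕ) : ℤ) := by
        push_cast
        exact prod_congr rfl fun m _ => (hf m).symm
      rw [h2]
      congr 1
      unfold el
      rw [prod_comm]
      refine prod_congr rfl fun i _ => ?_
      simp only [Sym.coe_mk, Multiset.map_map, Function.comp]
      rfl
    refine (card_le_card h1).trans (card_image_le.trans (le_of_eq ?_))
    rw [card_univ, Fintype.card_fun, Fintype.card_fin, Sym.card_sym_eq_multichoose,
      Fintype.card_fin]

end Pool.Agent.Y359.PE
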