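import Mathlib
import Pool.Agent.Y359.PE.Gen

/-!
# The example in terms of exponents
-/

set_option autoImplicit false

namespace Pool.Agent.Y359.PE

open Finset

lemma multichoose_le (L k : ℕ) : Nat.multichoose L (k + 1) ≤ L * Nat.multichoose L k := by
  have h1 : Fintype.card (Sym (Fin L) (k + 1)) ≤ Fintype.card (Fin L × Sym (Fin L) k) := by
    refine Fintype.card_le_of_surjective (fun x : Fin L × Sym (Fin L) k => x.1 ::ₛ x.2) ?_
    intro s
    obtain ⟨a, s', hs⟩ := s.exists_eq_cons_of_succ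
    exact ⟨(a, s'), hs.symm⟩
  rw [Fintype.card_prod, Sym.card_sym_eq_multichoose, Sym.card_sym_eq_multichoose,
    Fintype.card_fin] at h1
  exact h1

lemma multichoose_bound (L : ℕ) (hL : 2 ≤ L) (k : ℕ) (hk : 2 ≤ k) :
    (Nat.multichoose L k : ℝ) ≤ 3 / 4 * (L : ℝ) ^ k := by
  have hLr : (2 : ℝ) ≤ L := by exact_mod_cast hL
  induction k, hk using Nat.le_induction with
  | base =>
    rw [Nat.multichoose_eq, show L + 2 - 1 = L + 1 by omega, Nat.cast_choose_two]
    push_cast
    nlinarith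
  | succ k _ ih =>
    have h1 : (Nat.multichoose L (k + 1) : ℝ) ≤ L * Nat.multichoose L k := by
      exact_mod_cast multichoose_le L k
    have h2 := mul_le_mul_of_nonneg_left ih (show (0 : ℝ) ≤ L by linarith)
    rw [pow_succ]
    linarith

/-- **The example.** -/
theorem example_sharp' (k L t : ℕ) (hL : 1 ≤ L) (ht : 1 ≤ t) :
    ∃ A : Finset ℤ, A.card = L ^ t ∧ (0 : ℤ) ∉ A ∧
      (∀ p : ℕ, L * (A.filter fun a => fa a p ≠ 0).card ≤ A.card) ∧
      (pk k A).card ≤ (Nat.choose (L + k - 1) k) ^ t ∧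
      (2 ≤ k → 2 ≤ L → ((pk k A).card : ℝ) ≤
        (A.card : ℝ) ^ ((k : ℝ) - Real.log (4 / 3) / Real.log L)) := by
  obtain ⟨A, h1, h2, h3, h4⟩ := example_sharp k L t hL ht
  refine ⟨A, h1, h2, h3, ?_, ?_⟩
  · rw [← Nat.multichoose_eq]
    exact h4
  · intro hk hL2
    have hLr : (2 : ℝ) ≤ L := by exact_mod_cast hL2
    have hl : 0 < Real.log L := Real.log_pos (by linarith)
    have h5 : ((pk k A).card : ℝ) ≤ (Nat.multichoose L k : ℝ) ^ t := by exact_mod_cast h4
    have h6 : (Nat.multichoose L k : ℝ) ^ t ≤ (3 / 4 * (L : ℝ) ^ k) ^ t :=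
      pow_le_pow_left₀ (by positivity) (multichoose_bound L hL2 k hk) t
    refine h5.trans (h6.trans (le_of_eq ?_))
    rw [h1]
    push_cast
    have hA : (0 : ℝ) < (L : ℝ) ^ t := by positivity
    rw [Real.rpow_def_of_pos hA, Real.log_pow, ← Real.exp_log (show (0 : ℝ) <
      (3 / 4 * (L : ℝ) ^ k) ^ t by positivity), Real.log_pow, Real.log_mul (by norm_num)
      (by positivity), Real.log_pow]
    congr 1
    have h7 : Real.log (4 / 3) = - Real.log (3 / 4) := by
      rw [← Real.log_inv]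
      norm_num
    rw [h7]
    field_simp
    ring

end Pool.Agent.Y359.PE
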