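import Mathlib
import Pool.Agent.Y359.PE.Pow

/-!
# Unions of long runs and of long primitive progressions
-/

set_option autoImplicit false

namespace Pool.Agent.Y359.PE

open Finset
open scoped Classical

/-- the number of multiples of `q` among `q j₀ + ...` in an interval -/
lemma card_mult_Ioo (q : ℕ) (hq : 0 < q) (S : Finset ℤ) (y : ℤ) (m : ℕ)
    (hS : ∀ x ∈ S, (q : ℤ) ∣ x ∧ y - m < x ∧ x < y + m) :
    (S.card : ℝ) ≤ 2 * m / q + 1 := by
  rcases S.eq_empty_or_nonempty with h0 | hne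
  · rw [h0, card_empty]
    push_cast
    positivity
  -- the least element
  obtain ⟨x0, hx0, hmin⟩ := S.exists_min_image id hne
  have hq' : (0 : ℤ) < q := by exact_mod_cast hq
  have h1 : S.card ≤ (range ((2 * m) / q + 1)).card := by
    refine card_le_card_of_injOn (fun x => ((x - x0) / q).toNat) ?_ ?_
    · intro x hx
      rw [mem_coe] at hx
      rw [mem_coe, mem_range]
      have h2 := hmin x hx
      simp only [id] at h2
      have h3 := (hS x hx).2.2
      have h4 := (hS x0 hx0).2.1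
      have h5 : x - x0 ≤ 2 * m := by linarith
      have h6 : (x - x0) / q ≤ (2 * m : ℤ) / q := Int.ediv_le_ediv hq' h5
      have h7 : 0 ≤ (x - x0) / q := Int.ediv_nonneg (by linarith) hq'.le
      have h8 : ((2 * m : ℤ) / q) = ((2 * m / q : ℕ) : ℤ) := by push_cast; rfl
      rw [h8] at h6
      show ((x - x0) / q).toNat < 2 * m / q + 1
      omega
    · intro x hx y' hy' hxy
      rw [mem_coe] at hx hy'
      have hx1 : 0 ≤ (x - x0) / q := Int.ediv_nonneg (by have := hmin x hx; simp at this; linarith) hq'.le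
      have hy1 : 0 ≤ (y' - x0) / q :=
        Int.ediv_nonneg (by have := hmin y' hy'; simp at this; linarith) hq'.le
      have h9 : (x - x0) / q = (y' - x0) / q := by
        have : ((x - x0) / q).toNat = ((y' - x0) / q).toNat := hxy
        omega
      have d1 : (q : ℤ) ∣ x - x0 := dvd_sub (hS x hx).1 (hS x0 hx0).1
      have d2 : (q : ℤ) ∣ y' - x0 := dvd_sub (hS y' hy').1 (hS x0 hx0).1
      have e1 := Int.ediv_mul_cancel d1
      have e2 := Int.ediv_mul_cancel d2
      rw [h9] at e1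
      linarith
  rw [card_range] at h1
  have h2 : ((2 * m / q : ℕ) : ℝ) ≤ (2 * m : ℕ) / (q : ℝ) := Nat.cast_div_le
  have h3 : (S.card : ℝ) ≤ (2 * m / q : ℕ) + 1 := by exact_mod_cast h1
  push_cast at h2
  linarith

/-- multiples of `q` in a set all of whose elements lie in runs of length `m` -/
lemma mult_runs (A : Finset ℤ) (m : ℕ) (hm : 0 < m)
    (hrun : ∀ a ∈ A, ∃ b : ℤ, b ≤ a ∧ a < b + m ∧ Ico b (b + m) ⊆ A) (q : ℕ) (hq : 0 < q) :
    ((A.filter fun a : ℤ => (q : ℤ) ∣ a).card : ℝ) ≤ (2 / q + 1 / m) * A.card := by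
  choose! b hb1 hb2 hb3 using hrun
  have hmr : (0 : ℝ) < m := by exact_mod_cast hm
  have hqr : (0 : ℝ) < q := by exact_mod_cast hq
  set Q := A.filter fun a : ℤ => (q : ℤ) ∣ a with hQ
  have h1 : ∑ x ∈ Q, ((Ico (b x) (b x + m)).card : ℝ) = m * Q.card := by
    have : ∀ x ∈ Q, ((Ico (b x) (b x + m)).card : ℝ) = m := by
      intro x _
      rw [Int.card_Ico]
      simp
    rw [sum_congr rfl this, sum_const, nsmul_eq_mul]
    ring
  have h2 : ∀ x ∈ Q, ((Ico (b x) (b x + m)).card : ℝ) =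
      ∑ y ∈ A, if y ∈ Ico (b x) (b x + m) then (1 : ℝ) else 0 := by
    intro x hx
    rw [← sum_filter, sum_const, nsmul_eq_mul, mul_one]
    congr 2
    ext y
    rw [mem_filter]
    exact ⟨fun h => ⟨hb3 x (mem_filter.1 hx).1 h, h⟩, fun h => h.2⟩
  have h3 : ∀ y ∈ A, (∑ x ∈ Q, if y ∈ Ico (b x) (b x + m) then (1 : ℝ) else 0) ≤
      2 * m / q + 1 := by
    intro y _
    rw [← sum_filter, sum_const, nsmul_eq_mul, mul_one]
    refine card_mult_Ioo q hq _ y m ?_
    intro x hx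
    rw [mem_filter, mem_Ico] at hx
    have hxA := (mem_filter.1 hx.1)
    have c1 := hb1 x hxA.1
    have c2 := hb2 x hxA.1
    exact ⟨hxA.2, by linarith [hx.2.1, hx.2.2], by linarith [hx.2.1, hx.2.2]⟩
  have h4 : (m : ℝ) * Q.card ≤ A.card * (2 * m / q + 1) := by
    rw [← h1, sum_congr rfl h2, sum_comm]
    refine (sum_le_sum h3).trans ?_
    rw [sum_const, nsmul_eq_mul]
  have h5 : (2 / q + 1 / m) * (A.card : ℝ) = A.card * (2 * m / q + 1) / m := by
    field_simp
  rw [h5, le_div_iff₀ hmr]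
  linarith

/-- **Runs.** -/
theorem runs (k : ℕ) (hk : 1 ≤ k) (ε : ℝ) (hε : 0 < ε) (hε1 : ε ≤ 1) :
    ∃ (L : ℕ) (c : ℝ), 1 ≤ L ∧ 0 < c ∧ ∀ A : Finset ℤ, A.Nonempty →
      (∀ a ∈ A, ∃ b : ℤ, b ≤ a ∧ a < b + L ∧ Ico b (b + L) ⊆ A) →
      c * (A.card : ℝ) ^ ((k : ℝ) - ε) ≤ (pk k A).card := by
  obtain ⟨L, c, hL, hc, h⟩ := primepow k hk 2 ε (by norm_num) hε hε1
  refine ⟨⌈L⌉₊, c, Nat.one_le_ceil_iff.2 (by linarith), hc, fun A hA hrun => ?_⟩
  have hL0 : 0 < ⌈L⌉₊ := Nat.ceil_pos.2 (by linarith)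
  refine h A hA fun q hq => ?_
  refine (mult_runs A ⌈L⌉₊ hL0 hrun q hq.pos).trans ?_
  refine mul_le_mul_of_nonneg_right ?_ (by positivity)
  have : 1 / ((⌈L⌉₊ : ℕ) : ℝ) ≤ 1 / L := one_div_le_one_div_of_le (by linarith) (Nat.le_ceil _)
  linarith

/-- **Shifts.** -/
theorem shifts (k : ℕ) (hk : 1 ≤ k) (ε : ℝ) (hε : 0 < ε) (hε1 : ε ≤ 1) :
    ∃ (L : ℕ) (c : ℝ), 0 < c ∧ ∀ S : Finset ℤ, S.Nonempty → ∃ t : Fin k → ℕ, (∀ i, t i < L) ∧
      c * (S.card : ℝ) ^ ((k : ℝ) - ε) ≤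
        (((Fintype.piFinset fun _ : Fin k => S).image fun f => ∏ i, (f i + (t i : ℤ))).card : ℝ) := by
  obtain ⟨L, c, hL, hc, h⟩ := runs k hk ε hε hε1
  have hLr : (0 : ℝ) < L := by exact_mod_cast hL
  refine ⟨L, c / (L : ℝ) ^ k, by positivity, fun S hS => ?_⟩
  have hkr : (1 : ℝ) ≤ k := by exact_mod_cast hk
  set A : Finset ℤ := (S ×ˢ range L).image fun s => s.1 + (s.2 : ℤ) with hA
  have hSA : S ⊆ A := by
    intro s hs
    exact mem_image.2 ⟨(s, 0), mem_product.2 ⟨hs, mem_range.2 hL⟩, by simp⟩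
  have hAn : A.Nonempty := hS.mono hSA
  have h1 := h A hAn (by
    intro a ha
    obtain ⟨s, hs, rfl⟩ := mem_image.1 ha
    rw [mem_product, mem_range] at hs
    refine ⟨s.1, by linarith [Int.natCast_nonneg s.2], by
      have : (s.2 : ℤ) < L := by exact_mod_cast hs.2
      linarith, ?_⟩
    intro y hy
    rw [mem_Ico] at hy
    refine mem_image.2 ⟨(s.1, (y - s.1).toNat), mem_product.2 ⟨hs.1, mem_range.2 ?_⟩, ?_⟩
    · have : ((y - s.1).toNat : ℤ) < L := by
        rw [Int.toNat_of_nonneg (by linarith)]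
        linarith
      exact_mod_cast this
    · show s.1 + ((y - s.1).toNat : ℤ) = y
      rw [Int.toNat_of_nonneg (by linarith)]
      ring)
  have h2 : (S.card : ℝ) ^ ((k : ℝ) - ε) ≤ (A.card : ℝ) ^ ((k : ℝ) - ε) := by
    refine Real.rpow_le_rpow (by positivity) (by exact_mod_cast card_le_card hSA) (by linarith)
  -- covering
  have h3 : pk k A ⊆ (Fintype.piFinset fun _ : Fin k => range L).biUnion fun t =>
      (Fintype.piFinset fun _ : Fin k => S).image fun f => ∏ i, (f i + (t i : ℤ)) := by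
    intro v hv
    obtain ⟨g, hg, rfl⟩ := mem_image.1 hv
    rw [Fintype.mem_piFinset] at hg
    have hg' : ∀ i, ∃ s : ℤ × ℕ, s ∈ S ×ˢ range L ∧ s.1 + (s.2 : ℤ) = g i := by
      intro i
      obtain ⟨s, hs1, hs2⟩ := mem_image.1 (hg i)
      exact ⟨s, hs1, hs2⟩
    choose s hs1 hs2 using hg'
    rw [mem_biUnion]
    refine ⟨fun i => (s i).2, Fintype.mem_piFinset.2 fun i => (mem_product.1 (hs1 i)).2, ?_⟩
    refine mem_image.2 ⟨fun i => (s i).1, Fintype.mem_piFinset.2 fun i =>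
      (mem_product.1 (hs1 i)).1, ?_⟩
    exact prod_congr rfl fun i _ => hs2 i
  have h4 : ((pk k A).card : ℝ) ≤ ∑ t ∈ Fintype.piFinset fun _ : Fin k => range L,
      (((Fintype.piFinset fun _ : Fin k => S).image fun f => ∏ i, (f i + (t i : ℤ))).card : ℝ) := by
    exact_mod_cast (card_le_card h3).trans card_biUnion_le
  by_contra hcon
  push Not at hcon
  have h5 : ∑ t ∈ Fintype.piFinset fun _ : Fin k => range L,
      (((Fintype.piFinset fun _ : Fin k => S).image fun f => ∏ i, (f i + (t i : ℤ))).card : ℝ) <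
      ∑ t ∈ Fintype.piFinset fun _ : Fin k => range L,
        c / (L : ℝ) ^ k * (S.card : ℝ) ^ ((k : ℝ) - ε) := by
    refine sum_lt_sum_of_nonempty ?_ ?_
    · exact ⟨fun _ => 0, Fintype.mem_piFinset.2 fun _ => mem_range.2 hL⟩
    · intro t ht
      rw [Fintype.mem_piFinset] at ht
      exact hcon t fun i => mem_range.1 (ht i)
  rw [sum_const, nsmul_eq_mul, Fintype.card_piFinset, prod_const, card_range, card_univ,
    Fintype.card_fin] at h5
  push_cast at h5
  have h6 : (L : ℝ) ^ k * (c / (L : ℝ) ^ k * (S.card : ℝ) ^ ((k : ℝ) - ε)) =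
      c * (S.card : ℝ) ^ ((k : ℝ) - ε) := by
    field_simp
  rw [h6] at h5
  have h7 := mul_le_mul_of_nonneg_left h2 hc.le
  linarith

/-- multiples of a prime power in a primitive progression -/
lemma mult_prog (a d : ℤ) (hd : d ≠ 0) (had : IsCoprime a d) (n q : ℕ) (hq : IsPrimePow q) :
    (((range n).filter fun j : ℕ => (q : ℤ) ∣ a + j * d).card : ℝ) ≤ n / q + 1 := by
  obtain ⟨p, s, hp, hs, rfl⟩ := hq
  have hp' : p.Prime := hp.nat_prime
  have hq0 : 0 < p ^ s := pow_pos hp'.pos s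
  by_cases hpd : (p : ℤ) ∣ d
  · have : (range n).filter (fun j : ℕ => ((p ^ s : ℕ) : ℤ) ∣ a + j * d) = ∅ := by
      rw [filter_eq_empty_iff]
      intro j _ hdvd
      have h1 : (p : ℤ) ∣ a + j * d := by
        refine dvd_trans ?_ hdvd
        push_cast
        exact dvd_pow_self _ hs.ne'
      have h2 : (p : ℤ) ∣ a := (dvd_add_left (dvd_mul_of_dvd_right hpd _)).1 h1
      have h3 := had.isUnit_of_dvd' h2 hpd
      exact (Nat.prime_iff_prime_int.1 hp').not_isUnit h3
    rw [this, card_empty]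
    push_cast
    positivity
  · -- the progression hits one class
    have hcop : IsCoprime (((p ^ s : ℕ) : ℤ)) d := by
      push_cast
      exact IsCoprime.pow_left ((Nat.prime_iff_prime_int.1 hp').coprime_iff_not_dvd.2 hpd)
    rcases ((range n).filter fun j : ℕ => ((p ^ s : ℕ) : ℤ) ∣ a + j * d).eq_empty_or_nonempty
      with h0 | hne
    · rw [h0, card_empty]
      push_cast
      positivity
    obtain ⟨j0, hj0, hmin⟩ := ((range n).filter fun j : ℕ =>
      ((p ^ s : ℕ) : ℤ) ∣ a + j * d).exists_min_image id hne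
    rw [mem_filter, mem_range] at hj0
    have h1 : ((range n).filter fun j : ℕ => ((p ^ s : ℕ) : ℤ) ∣ a + j * d).card ≤
        (range (n / p ^ s + 1)).card := by
      have hd1 : ∀ j ∈ (range n).filter (fun j : ℕ => ((p ^ s : ℕ) : ℤ) ∣ a + j * d),
          j0 ≤ j ∧ p ^ s ∣ j - j0 ∧ j < n := by
        intro j hj
        have hle : j0 ≤ j := hmin j hj
        rw [mem_filter, mem_range] at hj
        refine ⟨hle, ?_, hj.1⟩
        have h2 : ((p ^ s : ℕ) : ℤ) ∣ ((j - j0 : ℕ) : ℤ) * d := by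
          have h3 := dvd_sub hj.2 hj0.2
          have h4 : (a + (j : ℤ) * d) - (a + (j0 : ℤ) * d) = ((j - j0 : ℕ) : ℤ) * d := by
            rw [Nat.cast_sub hle]
            ring
          rwa [h4] at h3
        have h5 := hcop.dvd_of_dvd_mul_right h2
        exact_mod_cast h5
      refine card_le_card_of_injOn (fun j => (j - j0) / p ^ s) ?_ ?_
      · intro j hj
        rw [mem_coe] at hj
        obtain ⟨c1, c2, c3⟩ := hd1 j hj
        rw [mem_coe, mem_range]
        have : (j - j0) / p ^ s ≤ n / p ^ s := Nat.div_le_div_right (by omega)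
        show (j - j0) / p ^ s < n / p ^ s + 1
        omega
      · intro j hj j' hj' hjj
        rw [mem_coe] at hj hj'
        obtain ⟨c1, c2, c3⟩ := hd1 j hj
        obtain ⟨c1', c2', c3'⟩ := hd1 j' hj'
        have e1 := Nat.div_mul_cancel c2
        have e2 := Nat.div_mul_cancel c2'
        have e3 : (j - j0) / p ^ s = (j' - j0) / p ^ s := hjj
        rw [e3] at e1
        omega
    rw [card_range] at h1
    have h2 : ((n / p ^ s : ℕ) : ℝ) ≤ n / ((p ^ s : ℕ) : ℝ) := Nat.cast_div_le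
    have h3 : (((range n).filter fun j : ℕ => ((p ^ s : ℕ) : ℤ) ∣ a + j * d).card : ℝ) ≤
        (n / p ^ s : ℕ) + 1 := by exact_mod_cast h1
    linarith

/-- **Primitive progressions.** -/
theorem progs (k : ℕ) (hk : 1 ≤ k) (D : ℕ) (hD : 1 ≤ D) (ε : ℝ) (hε : 0 < ε) (hε1 : ε ≤ 1) :
    ∃ (L : ℕ) (c : ℝ), 1 ≤ L ∧ 0 < c ∧ ∀ (A : Finset ℤ) (ι : Type) (I : Finset ι) (a d : ι → ℤ)
      (n : ι → ℕ), A.Nonempty → (∀ i ∈ I, d i ≠ 0 ∧ IsCoprime (a i) (d i) ∧ L ≤ n i) →
      (∀ x, x ∈ A ↔ ∃ i ∈ I, ∃ j < n i, x = a i + j * d i) →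
      (∀ x ∈ A, (I.filter fun i => ∃ j < n i, x = a i + j * d i).card ≤ D) →
      c * (A.card : ℝ) ^ ((k : ℝ) - ε) ≤ (pk k A).card := by
  have hDr : (1 : ℝ) ≤ D := by exact_mod_cast hD
  obtain ⟨L, c, hL, hc, h⟩ := primepow k hk D ε hDr hε hε1
  refine ⟨⌈D * L⌉₊, c, Nat.one_le_ceil_iff.2 (by positivity), hc, ?_⟩
  intro A ι I a d n hA h1 h2 h3
  refine h A hA fun q hq => ?_
  have hq0 : (0 : ℝ) < q := by exact_mod_cast hq.pos
  -- the progressions
  let R : ι → Finset ℤ := fun i => (range (n i)).image fun j : ℕ => a i + j * d i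
  have hinj : ∀ i ∈ I, Function.Injective fun j : ℕ => a i + j * d i := by
    intro i hi j j' hjj
    have h4 : (j : ℤ) * d i = j' * d i := add_left_cancel hjj
    have h5 := mul_right_cancel₀ (h1 i hi).1 h4
    exact_mod_cast h5
  have hmemR : ∀ i x, x ∈ R i ↔ ∃ j < n i, x = a i + j * d i := by
    intro i x
    simp only [R, mem_image, mem_range]
    constructor
    · rintro ⟨j, hj, rfl⟩
      exact ⟨j, hj, rfl⟩
    · rintro ⟨j, hj, rfl⟩
      exact ⟨j, hj, rfl⟩
  have hRc : ∀ i ∈ I, (R i).card = n i := by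
    intro i hi
    rw [card_image_of_injective _ (hinj i hi), card_range]
  have hsum : ∑ i ∈ I, (n i : ℝ) ≤ D * A.card := by
    have e1 : ∀ i ∈ I, (n i : ℝ) = ∑ x ∈ A, if x ∈ R i then (1 : ℝ) else 0 := by
      intro i hi
      rw [← hRc i hi, ← sum_filter, sum_const, nsmul_eq_mul, mul_one]
      congr 2
      ext x
      rw [mem_filter]
      exact ⟨fun hx => ⟨(h2 x).2 ⟨i, hi, (hmemR i x).1 hx⟩, hx⟩, fun hx => hx.2⟩
    rw [sum_congr rfl e1, sum_comm]
    have e2 : ∀ x ∈ A, (∑ i ∈ I, if x ∈ R i then (1 : ℝ) else 0) ≤ D := by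
      intro x hx
      rw [← sum_filter, sum_const, nsmul_eq_mul, mul_one]
      have e3 := h3 x hx
      have e4 : (I.filter fun i => x ∈ R i) = I.filter fun i => ∃ j < n i, x = a i + j * d i :=
        filter_congr fun i _ => hmemR i x
      rw [e4]
      exact_mod_cast e3
    refine (sum_le_sum e2).trans ?_
    rw [sum_const, nsmul_eq_mul]
    linarith
  have hcov : (A.filter fun x : ℤ => (q : ℤ) ∣ x) ⊆
      I.biUnion fun i => ((range (n i)).filter fun j : ℕ => (q : ℤ) ∣ a i + j * d i).image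
        fun j : ℕ => a i + j * d i := by
    intro x hx
    rw [mem_filter] at hx
    obtain ⟨i, hi, j, hj, rfl⟩ := (h2 x).1 hx.1
    rw [mem_biUnion]
    refine ⟨i, hi, mem_image.2 ⟨j, mem_filter.2 ⟨mem_range.2 hj, hx.2⟩, rfl⟩⟩
  have hcov2 : ((A.filter fun x : ℤ => (q : ℤ) ∣ x).card : ℝ) ≤ ∑ i ∈ I, ((n i : ℝ) / q + 1) := by
    have e1 : ((A.filter fun x : ℤ => (q : ℤ) ∣ x).card : ℝ) ≤ ∑ i ∈ I,
        ((((range (n i)).filter fun j : ℕ => (q : ℤ) ∣ a i + j * d i).image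
        fun j : ℕ => a i + j * d i).card : ℝ) := by
      exact_mod_cast (card_le_card hcov).trans card_biUnion_le
    refine e1.trans (sum_le_sum fun i hi => ?_)
    have e2 : ((((range (n i)).filter fun j : ℕ => (q : ℤ) ∣ a i + j * d i).image
        fun j : ℕ => a i + j * d i).card : ℝ) ≤
        ((range (n i)).filter fun j : ℕ => (q : ℤ) ∣ a i + j * d i).card := by
      exact_mod_cast card_image_le
    exact e2.trans (mult_prog (a i) (d i) (h1 i hi).1 (h1 i hi).2.1 (n i) q hq)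
  refine hcov2.trans ?_
  have hL0 : 0 < L := by linarith
  have hone : ∀ i ∈ I, ((n i : ℝ) / q + 1) ≤ (1 / q + 1 / (D * L)) * n i := by
    intro i hi
    have e1 : (D : ℝ) * L ≤ n i := by
      have := (h1 i hi).2.2
      exact (Nat.le_ceil _).trans (by exact_mod_cast this)
    have e2 : (1 : ℝ) ≤ 1 / (D * L) * n i := by
      rw [one_div, ← div_eq_inv_mul, le_div_iff₀ (by positivity)]
      linarith
    have e3 : (n i : ℝ) / q = 1 / q * n i := by ring
    linarith
  refine (sum_le_sum hone).trans ?_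
  rw [← mul_sum]
  have e5 : (0 : ℝ) ≤ 1 / q + 1 / (D * L) := by positivity
  refine (mul_le_mul_of_nonneg_left hsum e5).trans (le_of_eq ?_)
  field_simp

end Pool.Agent.Y359.PE
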