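import Mathlib
import Pool.Agent.Y359.PE.Dich
import Pool.Agent.Y359.PE.Runs

/-!
# Two sets: products of sets with few popular primes
-/

set_option autoImplicit false

namespace Pool.Agent.Y359.PE

open Finset
open scoped Classical Pointwise

lemma image_mul_eq (A B : Finset ℤ) : ((A ×ˢ B).image fun s => s.1 * s.2) = A * B := by
  ext x
  rw [mem_image, mem_mul]
  constructor
  · rintro ⟨s, hs, rfl⟩
    exact ⟨s.1, (mem_product.1 hs).1, s.2, (mem_product.1 hs).2, rfl⟩
  · rintro ⟨a, ha, b, hb, rfl⟩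
    exact ⟨(a, b), mem_product.2 ⟨ha, hb⟩, rfl⟩

/-- the entropy conclusion for two sets -/
lemma pair_of_entropy (A B : Finset ℤ) (hA : A.Nonempty) (hB : B.Nonempty) (h0 : (0 : ℤ) ∉ A)
    (h0' : (0 : ℤ) ∉ B) (T : Finset ℕ) (e e' : ℕ → ℕ) {L : ℝ} (hL : 1 < L)
    (hl : 5 < Real.log L)
    (hT : ∀ p ∈ T, L * ((A.filter fun a => fa a p ≠ e p).card : ℝ) ≤ A.card)
    (hT' : ∀ p ∈ T, L * ((B.filter fun a => fa a p ≠ e' p).card : ℝ) ≤ B.card) :
    (1 - 5 / Real.log L) * (h A (mk T (X e)) + h B (mk T (X e'))) ≤ Real.log (A * B).card := by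
  obtain ⟨p1, p2, p3⟩ := params hL hl (show (0 : ℝ) ≤ 1 by norm_num)
  have hL0 : 0 < L := by linarith
  have main := prod_entropy_two A B hA hB h0 h0' T e e' (τ := 1 / L) (θ := 1 / Real.sqrt L)
    p1 p2 (fun p hp => by
      have := hT p hp
      rw [one_div, ← div_eq_inv_mul, le_div_iff₀ hL0]
      linarith) (fun p hp => by
      have := hT' p hp
      rw [one_div, ← div_eq_inv_mul, le_div_iff₀ hL0]
      linarith)
  rw [image_mul_eq] at main
  refine le_trans (mul_le_mul_of_nonneg_right ?_ (add_nonneg (h_nonneg _ _) (h_nonneg _ _))) main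
  rw [one_mul] at p3
  have : (4 + 1) / Real.log L = 5 / Real.log L := by norm_num
  linarith

/-- the `P`-part -/
noncomputable def pt (P : Finset ℕ) (a : ℤ) : ℕ := ∏ p ∈ P, p ^ fa a p

lemma fa_eq_of_pt {P : Finset ℕ} (hP : ∀ p ∈ P, p.Prime) {a b : ℤ} (h : pt P a = pt P b) {p : ℕ}
    (hp : p ∈ P) : fa a p = fa b p := by
  have h1 := fact_prod P hP (fa a) p
  have h2 := fact_prod P hP (fa b) p
  rw [if_pos hp] at h1 h2
  unfold pt at h
  rw [← h1, ← h2, h]

/-- the classes have at most as many elements as there are signs and `P`-parts -/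
lemma fc_le_parts (A : Finset ℤ) (h0 : (0 : ℤ) ∉ A) (P T : Finset ℕ) (hP : ∀ p ∈ P, p.Prime)
    (hT : ∀ p, p ∉ P → p ∉ T → ∀ a ∈ A, fa a p = 0) (e : ℕ → ℕ) (x : ℤ) :
    fc A (mk T (X e)) x ≤ 2 * (A.image (pt P)).card := by
  have h1 : (cl A (mk T (X e)) x).card ≤ ((univ : Finset Bool) ×ˢ (A.image (pt P))).card := by
    refine card_le_card_of_injOn (fun y => (decide (0 < y), pt P y)) ?_ ?_
    · intro y hy
      rw [mem_coe, mem_cl] at hy
      rw [mem_coe, mem_product]
      exact ⟨mem_univ _, mem_image_of_mem _ hy.1⟩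
    · intro y hy z hz hyz
      rw [mem_coe, mem_cl, mk_X_eq_iff] at hy hz
      rw [Prod.mk.injEq] at hyz
      have hs : (0 < y ↔ 0 < z) := by
        have := hyz.1
        rw [decide_eq_decide] at this
        exact this
      refine eq_of_fa (fun h => h0 (h ▸ hy.1)) (fun h => h0 (h ▸ hz.1)) hs ?_
      intro p
      by_cases hp : p ∈ P
      · exact fa_eq_of_pt hP hyz.2 hp
      · by_cases hp2 : p ∈ T
        · exact (hy.2 p hp2).trans (hz.2 p hp2).symm
        · rw [hT p hp hp2 y hy.1, hT p hp hp2 z hz.1]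
  refine h1.trans (le_of_eq ?_)
  rw [card_product, card_univ, Fintype.card_bool]

/-- **Products of two sets, in terms of the popular parts.** -/
theorem pair_parts (L : ℝ) (hL : 1 < L) (A B : Finset ℤ) (hA : A.Nonempty) (hB : B.Nonempty)
    (h0 : (0 : ℤ) ∉ A) (h0' : (0 : ℤ) ∉ B) (P : Finset ℕ) (hP : ∀ p ∈ P, p.Prime)
    (hpop : ∀ p : ℕ, p.Prime → p ∉ P →
      ∃ e : ℕ, L * ((A.filter fun a => fa a p ≠ e).card : ℝ) ≤ A.card)
    (hpop' : ∀ p : ℕ, p.Prime → p ∉ P →
      ∃ e : ℕ, L * ((B.filter fun a => fa a p ≠ e).card : ℝ) ≤ B.card) :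
    ((A.card : ℝ) * B.card) ^ (1 - 5 / Real.log L) ≤
      4 * (A.image (pt P)).card * (B.image (pt P)).card * (A * B).card := by
  have hl0 : 0 < Real.log L := Real.log_pos hL
  have hN1 : (1 : ℝ) ≤ A.card := by exact_mod_cast card_pos.2 hA
  have hN1' : (1 : ℝ) ≤ B.card := by exact_mod_cast card_pos.2 hB
  have hN : (1 : ℝ) ≤ (A.card : ℝ) * B.card := by nlinarith
  have hP1 : (1 : ℝ) ≤ (A * B).card := by exact_mod_cast card_pos.2 (hA.mul hB)
  have hD1 : (1 : ℝ) ≤ (A.image (pt P)).card := by exact_mod_cast card_pos.2 (hA.image _)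
  have hD1' : (1 : ℝ) ≤ (B.image (pt P)).card := by exact_mod_cast card_pos.2 (hB.image _)
  set D : ℝ := ((A.image (pt P)).card : ℝ) with hD
  set D' : ℝ := ((B.image (pt P)).card : ℝ) with hD'
  have hDD : 1 ≤ D * D' := by nlinarith
  rcases le_or_gt (1 : ℝ) (5 / Real.log L) with hc | hc
  · have h1 : ((A.card : ℝ) * B.card) ^ (1 - 5 / Real.log L) ≤ 1 :=
      Real.rpow_le_one_of_one_le_of_nonpos hN (by linarith)
    have h2 : 1 ≤ D * D' * (A * B).card := by nlinarith
    nlinarith
  · rw [div_lt_iff₀ hl0, one_mul] at hc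
    have hL0 : 0 < L := by linarith
    choose! e he using hpop
    choose! e' he' using hpop'
    set T := pr (A ∪ B) \ P with hT
    have hTA : ∀ p, p ∉ P → p ∉ T → ∀ a ∈ A, fa a p = 0 := by
      intro p hp hpT a ha
      refine fa_eq_zero (mem_union_left B ha) fun h => hpT ?_
      exact mem_sdiff.2 ⟨h, hp⟩
    have hTB : ∀ p, p ∉ P → p ∉ T → ∀ a ∈ B, fa a p = 0 := by
      intro p hp hpT a ha
      refine fa_eq_zero (mem_union_right A ha) fun h => hpT ?_
      exact mem_sdiff.2 ⟨h, hp⟩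
    have main := pair_of_entropy A B hA hB h0 h0' T e e' hL hc (fun p hp =>
      he p (prime_of_mem_pr (mem_sdiff.1 hp).1) (mem_sdiff.1 hp).2) (fun p hp =>
      he' p (prime_of_mem_pr (mem_sdiff.1 hp).1) (mem_sdiff.1 hp).2)
    have hhA := h_ge_short A A hA (mk T (X e)) (Subset.refl _) (F := 2 * D) (fun x _ => by
      rw [hD]
      exact_mod_cast fc_le_parts A h0 P T hP hTA e x)
    have hhB := h_ge_short B B hB (mk T (X e')) (Subset.refl _) (F := 2 * D') (fun x _ => by
      rw [hD']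
      exact_mod_cast fc_le_parts B h0' P T hP hTB e' x)
    rw [div_self (by linarith), one_mul] at hhA hhB
    set HA := h A (mk T (X e)) with hHA
    set HB := h B (mk T (X e')) with hHB
    set E := 1 - 5 / Real.log L with hEd
    have hE0 : 0 ≤ E := by
      have : 5 / Real.log L ≤ 1 := by
        rw [div_le_one hl0]
        exact hc.le
      linarith
    have hE1 : E ≤ 1 := by
      have : 0 ≤ 5 / Real.log L := by positivity
      linarith
    have hlD : Real.log (4 * D * D' * (A * B).card) = Real.log (2 * D) + Real.log (2 * D') +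
        Real.log (A * B).card := by
      have e1 : 4 * D * D' * ((A * B).card : ℝ) = (2 * D) * (2 * D') * (A * B).card := by ring
      rw [e1, Real.log_mul (by positivity) (by positivity),
        Real.log_mul (by positivity) (by positivity)]
    have hl1 : 0 ≤ Real.log (2 * D) := Real.log_nonneg (by linarith)
    have hl2 : 0 ≤ Real.log (2 * D') := Real.log_nonneg (by linarith)
    have s3 := mul_le_mul_of_nonneg_left (add_le_add hhA hhB) hE0
    have s4 : E * (Real.log (2 * D) + Real.log (2 * D')) ≤ Real.log (2 * D) + Real.log (2 * D') :=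
      mul_le_of_le_one_left (by linarith) hE1
    have hN0 : (0 : ℝ) < (A.card : ℝ) * B.card := by linarith
    rw [← Real.log_le_log_iff (Real.rpow_pos_of_pos hN0 _) (by positivity), Real.log_rpow hN0, hlD,
      Real.log_mul (by positivity) (by positivity)]
    linarith

/-- the additive side for a sum of two sets -/
lemma sums_case2 {ε' : ℝ} (hε : 0 < ε') (hε1 : ε' ≤ 1) (P : Finset ℕ)
    (hP : ∀ p ∈ P, p.Prime) (hPn : P.Nonempty) (S B : Finset ℤ) (hS : S.Nonempty)
    (hB : B.Nonempty) (h0 : (0 : ℤ) ∉ S)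
    (hs : ∀ x ∈ S, ∀ y ∈ S, (0 < x ↔ 0 < y)) (M : ℝ)
    (hM : M = 4 * (1 : ℕ) / ε' * Real.exp (6 * (1 : ℕ) / ε') * Real.log (2 * S.card))
    (hfib : ∀ x ∈ S, M ^ P.card ≤
      ((S.filter fun y => ∀ p, p ∉ P → fa x p = fa y p).card : ℝ)) :
    ((S.card : ℝ) * B.card) ^ (1 - ε') ≤ (P.card * M + 1) ^ (2 * P.card * 1) * (S + B).card := by
  have h1 := W219.SP.fibre_k 1 P.card le_rfl (card_pos.2 hPn) ε' hε hε1
    (fun i => (((P.equivFin.symm i : P) : ℕ) : ℚ)) (fun i => by
      have := (hP _ (P.equivFin.symm i).2).pos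
      exact_mod_cast this) S B hS hB M hM (fun x hx => by
      refine (hfib x hx).trans ?_
      have : (S.filter fun y => ∀ p, p ∉ P → fa x p = fa y p) ⊆
          S.filter fun y : ℤ => ∃ n : Fin P.card → ℤ,
            (y : ℚ) = x * ∏ i, (((P.equivFin.symm i : P) : ℕ) : ℚ) ^ n i := by
        intro y hy
        rw [mem_filter] at hy ⊢
        refine ⟨hy.1, fun i => (fa y (P.equivFin.symm i : P) : ℤ) - fa x (P.equivFin.symm i : P),
          ?_⟩
        rw [rep P hP (fun h => h0 (h ▸ hx)) (fun h => h0 (h ▸ hy.1)) (hs x hx y hy.1) hy.2]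
        congr 1
        rw [← prod_coe_sort P]
        exact (Equiv.prod_comp P.equivFin.symm fun p : P =>
          ((p : ℕ) : ℚ) ^ ((fa y p : ℤ) - fa x p)).symm
      exact_mod_cast card_le_card this)
  have h2 : ((Fintype.piFinset fun _ : Fin 1 => S).image fun f => ∑ i, f i) = S := by
    ext z
    rw [mem_image]
    constructor
    · rintro ⟨f, hf, rfl⟩
      rw [Fintype.mem_piFinset] at hf
      simpa using hf 0
    · intro hz
      exact ⟨fun _ => z, Fintype.mem_piFinset.2 fun _ => hz, by simp⟩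
  rw [pow_one] at h1
  refine h1.trans (le_of_eq ?_)
  congr 2
  convert congrArg (fun U : Finset ℤ => (U + B).card) h2

end Pool.Agent.Y359.PE
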