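import Mathlib
import Pool.Agent.Y359.PE.Pair

/-!
# Two sets with few popular primes: many sums or many products
-/

set_option autoImplicit false

namespace Pool.Agent.Y359.PE

open Finset
open scoped Classical Pointwise

/-- sums with a set in which many elements have many companions -/
lemma long_side {ε' γ δ ℓ C : ℝ} (hε0 : 0 < ε') (hε1 : ε' ≤ 1) (hℓ2 : 2 ≤ ℓ)
    (hℓ1 : 1 ≤ Real.log ℓ) (hC : C = 4 * (1 : ℕ) / ε' * Real.exp (6 * (1 : ℕ) / ε'))
    (hℓC : 2 * C ≤ ℓ) (hδ : 2 * δ ≤ 1) (h4δ : 4 * δ ≤ γ) (P : Finset ℕ)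
    (hP : ∀ p ∈ P, p.Prime) (hPr : ((P.card : ℝ) + 1) * Real.log ℓ ≤ 2 * δ * ℓ)
    (S : Finset ℤ) (hS0 : (0 : ℤ) ∉ S) (hSs : ∀ x ∈ S, ∀ y ∈ S, (0 < x ↔ 0 < y))
    (hSℓ : Real.log S.card ≤ ℓ) (T : Finset ℕ) (e : ℕ → ℕ)
    (hT : ∀ p, p ∉ P → p ∉ T → ∀ x ∈ S, fa x p = 0)
    (hne : (S.filter fun x => Real.exp (γ * ℓ) ≤ (fc S (mk T (X e)) x : ℝ)).Nonempty)
    (B : Finset ℤ) (hB : B.Nonempty) :
    (1 - ε') * (Real.log (S.filter fun x => Real.exp (γ * ℓ) ≤ (fc S (mk T (X e)) x : ℝ)).card +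
      Real.log B.card) ≤ 16 * δ * ℓ + Real.log (S + B).card := by
  set f := mk T (X e) with hf
  set S2 := S.filter fun x => Real.exp (γ * ℓ) ≤ (fc S f x : ℝ) with hS2
  have hS2S : S2 ⊆ S := filter_subset _ _
  have hC0 : 0 < C := by rw [hC]; positivity
  have hℓ0 : 0 < ℓ := by linarith
  have hS21 : (1 : ℝ) ≤ S2.card := by exact_mod_cast card_pos.2 hne
  set P' := insert 2 P with hP'
  have hP'p : ∀ p ∈ P', p.Prime := by
    intro p hp
    rcases mem_insert.1 hp with rfl | h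
    · exact Nat.prime_two
    · exact hP p h
  set M : ℝ := 4 * (1 : ℕ) / ε' * Real.exp (6 * (1 : ℕ) / ε') * Real.log (2 * S2.card) with hM
  have hMC : M = C * Real.log (2 * S2.card) := by rw [hM, hC]
  have hM0 : 0 ≤ M := by
    rw [hMC]
    have : 0 ≤ Real.log (2 * (S2.card : ℝ)) := Real.log_nonneg (by linarith)
    positivity
  have hMle : M ≤ C * (Real.log 2 + ℓ) := by
    rw [hMC]
    refine mul_le_mul_of_nonneg_left ?_ hC0.le
    rw [Real.log_mul (by norm_num) (by positivity)]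
    have h1 : (S2.card : ℝ) ≤ S.card := by exact_mod_cast card_le_card hS2S
    have h2 := Real.log_le_log (by linarith) h1
    linarith
  have hr : (P'.card : ℝ) * Real.log ℓ ≤ 2 * δ * ℓ := by
    have h1 : (P'.card : ℝ) ≤ P.card + 1 := by exact_mod_cast card_insert_le _ _
    have h2 := mul_le_mul_of_nonneg_right h1 (show 0 ≤ Real.log ℓ by linarith)
    linarith
  obtain ⟨n1, n2⟩ := num_sum (k := 1) (r := P'.card) le_rfl (δ := δ) hδ hℓ2 hℓ1 hC0.le
    hℓC hM0 hMle hr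
  have sc := sums_case2 hε0 hε1 P' hP'p ⟨2, mem_insert_self _ _⟩ S2 B hne hB
    (fun h => hS0 (hS2S h)) (fun x hx y hy => hSs x (hS2S hx) y (hS2S hy)) M hM (fun x hx => by
      have hx' := mem_filter.1 hx
      refine n1.trans ?_
      have h1 : Real.exp (4 * δ * ℓ) ≤ Real.exp (γ * ℓ) :=
        Real.exp_le_exp.2 (mul_le_mul_of_nonneg_right h4δ hℓ0.le)
      refine h1.trans (hx'.2.trans ?_)
      have h2 : cl S f x ⊆ S2.filter fun y => ∀ p, p ∉ P' → fa x p = fa y p := by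
        intro y hy
        have hy' := mem_cl.1 hy
        rw [mem_filter]
        refine ⟨mem_filter.2 ⟨hy'.1, ?_⟩, ?_⟩
        · rw [fc_congr hy'.2]
          exact hx'.2
        · intro p hp
          have hpP : p ∉ P := fun h => hp (mem_insert_of_mem h)
          by_cases hp2 : p ∈ T
          · exact ((mk_X_eq_iff.1 hy'.2) p hp2).symm
          · rw [hT p hpP hp2 y hy'.1, hT p hpP hp2 x (hS2S hx)]
      exact_mod_cast card_le_card h2)
  have hB0 : (0 : ℝ) < B.card := by exact_mod_cast card_pos.2 hB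
  have hsum0 : (0 : ℝ) < (S2 + B).card := by exact_mod_cast card_pos.2 (hne.add hB)
  have h1 : ((S2.card : ℝ) * B.card) ^ (1 - ε') ≤ Real.exp (16 * (1 : ℕ) * δ * ℓ) *
      (S2 + B).card := sc.trans (mul_le_mul_of_nonneg_right n2 hsum0.le)
  have hpos : (0 : ℝ) < (S2.card : ℝ) * B.card := mul_pos (by linarith) hB0
  have h2 := Real.log_le_log (Real.rpow_pos_of_pos hpos _) h1
  rw [Real.log_rpow hpos, Real.log_mul (by linarith) hB0.ne', Real.log_mul (Real.exp_pos _).ne'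
    hsum0.ne', Real.log_exp] at h2
  have h3 : ((S2 + B).card : ℝ) ≤ (S + B).card := by
    exact_mod_cast card_le_card (add_subset_add_right hS2S)
  have h4 := Real.log_le_log hsum0 h3
  push_cast at h2
  rw [mul_one] at h2
  linarith

/-- **Two sets with few popular primes.** -/
theorem pair_dich (ε : ℝ) (hε : 0 < ε) (hε1 : ε ≤ 1) :
    ∃ L δ c : ℝ, 1 ≤ L ∧ 0 < δ ∧ 0 < c ∧ ∀ (A B : Finset ℤ) (P : Finset ℕ),
      A.Nonempty → B.Nonempty → (∀ p ∈ P, p.Prime) →
      (P.card : ℝ) * Real.log (Real.log A.card) ≤ δ * Real.log A.card →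
      (P.card : ℝ) * Real.log (Real.log B.card) ≤ δ * Real.log B.card →
      (∀ p : ℕ, p.Prime → p ∉ P →
        ∃ e : ℕ, L * ((A.filter fun b => b ≠ 0 ∧ fa b p ≠ e).card : ℝ) ≤ A.card) →
      (∀ p : ℕ, p.Prime → p ∉ P →
        ∃ e : ℕ, L * ((B.filter fun b => b ≠ 0 ∧ fa b p ≠ e).card : ℝ) ≤ B.card) →
      c * ((A.card : ℝ) * B.card) ^ (1 - ε) ≤ max ((A + B).card : ℝ) ((A * B).card : ℝ) := by
  set γ : ℝ := ε / 8 with hγ
  have hγ0 : 0 < γ := by positivity
  have hγ8 : γ ≤ 1 / 8 := by rw [hγ]; linarith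
  set δ : ℝ := ε / 64 with hδ
  have hδ0 : 0 < δ := by positivity
  set ε' : ℝ := ε / 4 with hε'
  have hε'0 : 0 < ε' := by positivity
  have hε'1 : ε' ≤ 1 := by rw [hε']; linarith
  set C : ℝ := 4 * (1 : ℕ) / ε' * Real.exp (6 * (1 : ℕ) / ε') with hC
  set Λ : ℝ := Real.exp (6 + 5 / γ) with hΛ
  have hlogΛ : Real.log Λ = 6 + 5 / γ := by rw [hΛ, Real.log_exp]
  have h5γ : 0 < 5 / γ := by positivity
  have hΛ5 : 5 < Real.log Λ := by rw [hlogΛ]; linarith
  have hΛ1 : 1 < Λ := by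
    rw [hΛ]
    exact Real.one_lt_exp_iff.2 (by linarith)
  have hΛγ : 5 / Real.log Λ ≤ γ := by
    rw [div_le_iff₀ (by linarith), hlogΛ]
    have : γ * (5 / γ) = 5 := by field_simp
    nlinarith only [this, hγ0]
  -- large sets
  have hlim : Filter.Tendsto (fun n : ℕ => Real.log (n : ℝ)) Filter.atTop Filter.atTop :=
    Real.tendsto_log_atTop.comp tendsto_natCast_atTop_atTop
  have hev : ∀ᶠ ℓ : ℝ in Filter.atTop, 2 ≤ ℓ ∧ 2 * C ≤ ℓ ∧ 1 ≤ Real.log ℓ ∧
      Real.log ℓ ≤ δ * ℓ := by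
    refine (Filter.eventually_ge_atTop 2).and ((Filter.eventually_ge_atTop (2 * C)).and
      ((Real.tendsto_log_atTop.eventually_ge_atTop 1).and ?_))
    have h1 := Real.isLittleO_log_id_atTop.bound hδ0
    filter_upwards [h1, Filter.eventually_ge_atTop 1] with x hx hx1
    rw [Real.norm_eq_abs, Real.norm_eq_abs, abs_of_nonneg (Real.log_nonneg hx1), id,
      abs_of_nonneg (by linarith)] at hx
    exact hx
  obtain ⟨N₀, hN₀⟩ := (hlim.eventually hev).exists_forall_of_atTop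
  set N₁ : ℕ := max N₀ 3 with hN₁
  have hN₁3 : 3 ≤ N₁ := le_max_right _ _
  have hN₁r : (3 : ℝ) ≤ N₁ := by exact_mod_cast hN₁3
  refine ⟨3 * Λ, δ, γ / (3 * N₁), by linarith, hδ0, by positivity, ?_⟩
  intro A B P hA hB hP hPA hPB hpop hpop'
  have hA1 : (1 : ℝ) ≤ A.card := by exact_mod_cast card_pos.2 hA
  have hB1 : (1 : ℝ) ≤ B.card := by exact_mod_cast card_pos.2 hB
  have hAB1 : (1 : ℝ) ≤ (A.card : ℝ) * B.card := by nlinarith only [hA1, hB1]
  have hpow1 : ((A.card : ℝ) * B.card) ^ (1 - ε) ≤ (A.card : ℝ) * B.card := by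
    have := Real.rpow_le_rpow_of_exponent_le hAB1 (show 1 - ε ≤ 1 by linarith)
    rwa [Real.rpow_one] at this
  have hc0 : 0 ≤ γ / (3 * (N₁ : ℝ)) := by positivity
  have hcN : γ / (3 * (N₁ : ℝ)) * N₁ ≤ 1 := by
    have : γ / (3 * (N₁ : ℝ)) * N₁ = γ / 3 := by field_simp
    rw [this]
    linarith
  have hAle : (A.card : ℝ) ≤ (A + B).card := by
    exact_mod_cast card_le_card_add_right hB
  have hBle : (B.card : ℝ) ≤ (A + B).card := by
    exact_mod_cast card_le_card_add_left hA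
  rcases lt_or_ge A.card N₁ with hsA | hlA
  · have h3 : (A.card : ℝ) ≤ N₁ := by exact_mod_cast hsA.le
    refine le_trans ?_ (le_max_left _ _)
    calc γ / (3 * (N₁ : ℝ)) * ((A.card : ℝ) * B.card) ^ (1 - ε)
        ≤ γ / (3 * (N₁ : ℝ)) * ((A.card : ℝ) * B.card) := mul_le_mul_of_nonneg_left hpow1 hc0
      _ ≤ γ / (3 * (N₁ : ℝ)) * ((N₁ : ℝ) * B.card) := by gcongr
      _ = γ / (3 * (N₁ : ℝ)) * N₁ * B.card := by ring
      _ ≤ 1 * B.card := mul_le_mul_of_nonneg_right hcN (by positivity)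
      _ ≤ (A + B).card := by rw [one_mul]; exact hBle
  rcases lt_or_ge B.card N₁ with hsB | hlB
  · have h3 : (B.card : ℝ) ≤ N₁ := by exact_mod_cast hsB.le
    refine le_trans ?_ (le_max_left _ _)
    calc γ / (3 * (N₁ : ℝ)) * ((A.card : ℝ) * B.card) ^ (1 - ε)
        ≤ γ / (3 * (N₁ : ℝ)) * ((A.card : ℝ) * B.card) := mul_le_mul_of_nonneg_left hpow1 hc0
      _ ≤ γ / (3 * (N₁ : ℝ)) * ((A.card : ℝ) * N₁) := by gcongr
      _ = γ / (3 * (N₁ : ℝ)) * N₁ * A.card := by ring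
      _ ≤ 1 * A.card := mul_le_mul_of_nonneg_right hcN (by positivity)
      _ ≤ (A + B).card := by rw [one_mul]; exact hAle
  -- both sets are large
  obtain ⟨hℓ2, hℓC, hℓ1, hℓδ⟩ := hN₀ A.card ((le_max_left _ _).trans hlA)
  obtain ⟨hm2, hmC, hm1, hmδ⟩ := hN₀ B.card ((le_max_left _ _).trans hlB)
  set ℓ := Real.log (A.card : ℝ) with hℓ
  set m := Real.log (B.card : ℝ) with hm
  obtain ⟨S, hSA, hS0, hSs, hSc⟩ := sign_part A (hN₁3.trans hlA)
  obtain ⟨R, hRB, hR0, hRs, hRc⟩ := sign_part B (hN₁3.trans hlB)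
  have hSc' : (A.card : ℝ) ≤ 3 * S.card := by exact_mod_cast hSc
  have hRc' : (B.card : ℝ) ≤ 3 * R.card := by exact_mod_cast hRc
  have hSp : (0 : ℝ) < S.card := by linarith
  have hRp : (0 : ℝ) < R.card := by linarith
  have hSn : S.Nonempty := card_pos.1 (by exact_mod_cast hSp)
  have hRn : R.Nonempty := card_pos.1 (by exact_mod_cast hRp)
  choose! e he using hpop
  choose! e' he' using hpop'
  set T := pr (S ∪ R) \ P with hT
  have popgen : ∀ (A S : Finset ℤ) (e : ℕ → ℕ), S ⊆ A → (0 : ℤ) ∉ S →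
      (A.card : ℝ) ≤ 3 * S.card → (∀ p : ℕ, p.Prime → p ∉ P →
        3 * Λ * ((A.filter fun b => b ≠ 0 ∧ fa b p ≠ e p).card : ℝ) ≤ A.card) →
      ∀ p ∈ T, Λ * ((S.filter fun a => fa a p ≠ e p).card : ℝ) ≤ S.card := by
    intro A S e hSA hS0 hSc' he p hp
    rw [hT, mem_sdiff] at hp
    have h1 := he p (prime_of_mem_pr hp.1) hp.2
    have h2 : ((S.filter fun a => fa a p ≠ e p).card : ℝ) ≤
        ((A.filter fun b => b ≠ 0 ∧ fa b p ≠ e p).card : ℝ) := by
      have : (S.filter fun a => fa a p ≠ e p) ⊆ A.filter fun b => b ≠ 0 ∧ fa b p ≠ e p := by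
        intro a ha
        rw [mem_filter] at ha ⊢
        exact ⟨hSA ha.1, fun h => hS0 (h ▸ ha.1), ha.2⟩
      exact_mod_cast card_le_card this
    have h3 := mul_le_mul_of_nonneg_left h2 (show 0 ≤ 3 * Λ by linarith)
    linarith
  have popS := popgen A S e hSA hS0 hSc' he
  have popR := popgen B R e' hRB hR0 hRc' he'
  have hTS : ∀ p, p ∉ P → p ∉ T → ∀ a ∈ S, fa a p = 0 := by
    intro p hp hpT a ha
    exact fa_eq_zero (mem_union_left R ha) fun h => hpT (mem_sdiff.2 ⟨h, hp⟩)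
  have hTR : ∀ p, p ∉ P → p ∉ T → ∀ a ∈ R, fa a p = 0 := by
    intro p hp hpT a ha
    exact fa_eq_zero (mem_union_right S ha) fun h => hpT (mem_sdiff.2 ⟨h, hp⟩)
  have hcγ : γ / (3 * (N₁ : ℝ)) ≤ γ / 3 :=
    div_le_div_of_nonneg_left hγ0.le (by norm_num) (by linarith only [hN₁r])
  have hlogle : ∀ (A S : Finset ℤ), S ⊆ A → S.Nonempty → Real.log S.card ≤ Real.log A.card := by
    intro A S hSA hSn
    refine Real.log_le_log ?_ ?_
    · exact_mod_cast card_pos.2 hSn
    · exact_mod_cast card_le_card hSA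
  have hAB0 : (0 : ℝ) < (A.card : ℝ) * B.card := by linarith
  have hgoal : ∀ Z : ℝ, 0 < Z → (1 - ε) * (ℓ + m) + Real.log (γ / 3) ≤ Real.log Z →
      γ / (3 * (N₁ : ℝ)) * ((A.card : ℝ) * B.card) ^ (1 - ε) ≤ Z := by
    intro Z hZ h
    have h8 : γ / (3 * (N₁ : ℝ)) * ((A.card : ℝ) * B.card) ^ (1 - ε) ≤
        γ / 3 * ((A.card : ℝ) * B.card) ^ (1 - ε) :=
      mul_le_mul_of_nonneg_right hcγ (by positivity)
    refine h8.trans ?_
    rw [← Real.log_le_log_iff (by positivity) hZ, Real.log_mul (by positivity)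
      (Real.rpow_pos_of_pos hAB0 _).ne', Real.log_rpow hAB0, Real.log_mul (by linarith)
      (by linarith)]
    change Real.log (γ / 3) + (1 - ε) * (ℓ + m) ≤ _
    linarith
  have hg0 : Real.log (γ / 3) ≤ 0 :=
    Real.log_nonpos (by positivity) (by linarith only [hγ8])
  -- the additive alternatives
  have addside : ∀ (U V : Finset ℤ) (u v : ℝ) (c1 : ℝ), u = Real.log U.card →
      v = Real.log V.card → (1 - ε') * (c1 + v) ≤ 16 * δ * u + Real.log (A + B).card →
      u + Real.log (γ / 3) ≤ c1 → 0 ≤ u → 0 ≤ v →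
      (1 - ε) * (u + v) + Real.log (γ / 3) ≤ Real.log (A + B).card := by
    intro U V u v c1 _ _ h1 h2 hu hv
    have h3 : (1 - ε') * (u + Real.log (γ / 3) + v) ≤ (1 - ε') * (c1 + v) :=
      mul_le_mul_of_nonneg_left (by linarith) (by linarith)
    have h4 : 16 * δ * u = ε / 4 * u := by rw [hδ]; ring
    have h5 : (1 - ε') * (u + Real.log (γ / 3) + v) =
        (u + v) - ε / 4 * (u + v) + Real.log (γ / 3) - ε / 4 * Real.log (γ / 3) := by
      rw [hε']; ring
    have h6 : ε / 4 * Real.log (γ / 3) ≤ 0 := mul_nonpos_of_nonneg_of_nonpos (by linarith) hg0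
    have h7 : 0 ≤ ε * u := mul_nonneg hε.le hu
    have h8 : 0 ≤ ε * v := mul_nonneg hε.le hv
    nlinarith only [h1, h3, h4, h5, h6, h7, h8]
  have hAB0' : (0 : ℝ) < (A + B).card := by exact_mod_cast card_pos.2 (hA.add hB)
  have hℓ0 : 0 ≤ ℓ := by linarith
  have hm0 : 0 ≤ m := by linarith
  set f := mk T (X e) with hf
  set g := mk T (X e') with hg
  set S2 := S.filter fun x => Real.exp (γ * ℓ) ≤ (fc S f x : ℝ) with hS2
  set R2 := R.filter fun x => Real.exp (γ * m) ≤ (fc R g x : ℝ) with hR2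
  have cardlow : ∀ (A S S2 : Finset ℤ) (u : ℝ), A.Nonempty → u = Real.log A.card →
      (A.card : ℝ) ≤ 3 * S.card → γ * S.card ≤ S2.card → u + Real.log (γ / 3) ≤
      Real.log S2.card := by
    intro A S S2 u hA hu h1 h2
    have hA0 : (0 : ℝ) < A.card := by exact_mod_cast card_pos.2 hA
    rw [hu, ← Real.log_mul hA0.ne' (by positivity)]
    refine Real.log_le_log (by positivity) ?_
    have h3 : γ * (A.card / 3) ≤ γ * S.card := mul_le_mul_of_nonneg_left (by linarith) hγ0.le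
    linarith
  rcases lt_or_ge (S2.card : ℝ) (γ * S.card) with hcS | hcS
  swap
  · have hS2n : S2.Nonempty := card_pos.1 (by
      have : (0 : ℝ) < S2.card := lt_of_lt_of_le (by positivity) hcS
      exact_mod_cast this)
    have ls := long_side (C := C) hε'0 hε'1 hℓ2 hℓ1 hC hℓC (show 2 * δ ≤ 1 by rw [hδ]; linarith)
      (show 4 * δ ≤ γ by rw [hδ, hγ]; linarith) P hP (by
        have : (P.card : ℝ) * Real.log ℓ ≤ δ * ℓ := hPA
        linarith) S hS0 hSs (hlogle A S hSA hSn) T e hTS hS2n B hB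
    have hsub : ((S + B).card : ℝ) ≤ (A + B).card := by
      exact_mod_cast card_le_card (add_subset_add_right hSA)
    have hsub2 := Real.log_le_log (by exact_mod_cast card_pos.2 (hSn.add hB)) hsub
    refine (hgoal _ hAB0' (addside A B ℓ m _ hℓ hm (ls.trans (by linarith))
      (cardlow A S S2 ℓ hA hℓ hSc' hcS) hℓ0 hm0)).trans (le_max_left _ _)
  rcases lt_or_ge (R2.card : ℝ) (γ * R.card) with hcR | hcR
  swap
  · have hR2n : R2.Nonempty := card_pos.1 (by
      have : (0 : ℝ) < R2.card := lt_of_lt_of_le (by positivity) hcR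
      exact_mod_cast this)
    have ls := long_side (C := C) hε'0 hε'1 hm2 hm1 hC hmC (show 2 * δ ≤ 1 by rw [hδ]; linarith)
      (show 4 * δ ≤ γ by rw [hδ, hγ]; linarith) P hP (by
        have : (P.card : ℝ) * Real.log m ≤ δ * m := hPB
        linarith) R hR0 hRs (hlogle B R hRB hRn) T e' hTR hR2n A hA
    have hsub : ((R + A).card : ℝ) ≤ (A + B).card := by
      rw [add_comm A B]
      exact_mod_cast card_le_card (add_subset_add_right hRB)
    have hsub2 := Real.log_le_log (by exact_mod_cast card_pos.2 (hRn.add hA)) hsub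
    have key := addside B A m ℓ _ hm hℓ (ls.trans (by linarith))
      (cardlow B R R2 m hB hm hRc' hcR) hm0 hℓ0
    rw [add_comm m ℓ] at key
    exact (hgoal _ hAB0' key).trans (le_max_left _ _)
  -- products
  have hlog3 : Real.log 3 ≤ 1.1 := by
    have h9 : Real.log 3 = Real.log 9 / 2 := by
      rw [show (9 : ℝ) = 3 ^ 2 by norm_num, Real.log_pow]
      push_cast
      ring
    rw [Real.log_le_iff_le_exp (by norm_num)]
    have h10 : (1.1 : ℝ) = 1 + 0.1 := by norm_num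
    rw [h10, Real.exp_add]
    have h11 := Real.exp_one_gt_d9
    have h12 : (1.105 : ℝ) ≤ Real.exp 0.1 := by
      have := Real.quadratic_le_exp_of_nonneg (show (0 : ℝ) ≤ 0.1 by norm_num)
      norm_num at this ⊢
      linarith
    nlinarith only [h11, h12]
  have hlog30 : 0 ≤ Real.log 3 := Real.log_nonneg (by norm_num)
  have shortside : ∀ (A S : Finset ℤ) (e : ℕ → ℕ) (u : ℝ), A.Nonempty → u = Real.log A.card →
      2 ≤ u → (A.card : ℝ) ≤ 3 * S.card → S.Nonempty →
      ((S.filter fun x => Real.exp (γ * u) ≤ (fc S (mk T (X e)) x : ℝ)).card : ℝ) <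
        γ * S.card → (1 - γ) * ((1 - γ) * u - Real.log 3) ≤ h S (mk T (X e)) := by
    intro A S e u hA hu hu2 hSc hSn hcase
    have hA0 : (0 : ℝ) < A.card := by exact_mod_cast card_pos.2 hA
    have hSp : (0 : ℝ) < S.card := by exact_mod_cast card_pos.2 hSn
    have h12 : ((S.filter fun x => Real.exp (γ * u) ≤ (fc S (mk T (X e)) x : ℝ)).card : ℝ) +
        ((S.filter fun x => ¬ Real.exp (γ * u) ≤ (fc S (mk T (X e)) x : ℝ)).card : ℝ) =
        S.card := by
      exact_mod_cast card_filter_add_card_filter_not (s := S)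
        (fun x => Real.exp (γ * u) ≤ (fc S (mk T (X e)) x : ℝ))
    have hh := h_ge_short S (S.filter fun x => ¬ Real.exp (γ * u) ≤
      (fc S (mk T (X e)) x : ℝ)) hSn (mk T (X e)) (filter_subset _ _) (F := Real.exp (γ * u))
      (fun x hx => (not_le.1 (mem_filter.1 hx).2).le)
    rw [Real.log_exp] at hh
    have hq : 1 - γ ≤ ((S.filter fun x => ¬ Real.exp (γ * u) ≤
        (fc S (mk T (X e)) x : ℝ)).card : ℝ) / S.card := by
      rw [le_div_iff₀ hSp]
      linarith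
    have hlogS : u - Real.log 3 ≤ Real.log S.card := by
      rw [hu, ← Real.log_div hA0.ne' (by norm_num)]
      exact Real.log_le_log (by positivity) (by linarith)
    have hpos : 0 ≤ (1 - γ) * u - Real.log 3 := by nlinarith only [hγ8, hu2, hlog3]
    refine le_trans ?_ hh
    exact mul_le_mul hq (by linarith) hpos (by positivity)
  have sS := shortside A S e ℓ hA hℓ hℓ2 hSc' hSn hcS
  have sR := shortside B R e' m hB hm hm2 hRc' hRn hcR
  have main := pair_of_entropy S R hSn hRn hS0 hR0 T e e' hΛ1 hΛ5 popS popR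
  have hSR0 : (0 : ℝ) < (S * R).card := by exact_mod_cast card_pos.2 (hSn.mul hRn)
  have hsub : ((S * R).card : ℝ) ≤ (A * B).card := by
    exact_mod_cast card_le_card (mul_subset_mul hSA hRB)
  refine (hgoal _ hSR0 ?_).trans (hsub.trans (le_max_right _ _))
  refine le_trans ?_ main
  set HS := h S (mk T (X e)) with hHS
  set HR := h R (mk T (X e')) with hHR
  have hHS0 : 0 ≤ HS := h_nonneg _ _
  have hHR0 : 0 ≤ HR := h_nonneg _ _
  have h1 : (1 - γ) * (HS + HR) ≤ (1 - 5 / Real.log Λ) * (HS + HR) :=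
    mul_le_mul_of_nonneg_right (by linarith only [hΛγ]) (by linarith only [hHS0, hHR0])
  refine le_trans ?_ h1
  have h2 : (1 - γ) * ((1 - γ) * ((1 - γ) * ℓ - Real.log 3) +
      (1 - γ) * ((1 - γ) * m - Real.log 3)) ≤ (1 - γ) * (HS + HR) :=
    mul_le_mul_of_nonneg_left (by linarith only [sS, sR]) (by linarith only [hγ8])
  refine le_trans ?_ h2
  have h3 : 1 - 3 * γ ≤ (1 - γ) * (1 - γ) * (1 - γ) := by
    have h30 : 0 ≤ γ ^ 2 * (3 - γ) := mul_nonneg (sq_nonneg γ) (by linarith only [hγ8])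
    nlinarith only [h30]
  have h4 : (1 - γ) * (1 - γ) ≤ 1 := by nlinarith only [hγ0, hγ8]
  have h5 := mul_le_mul_of_nonneg_right h3 (show 0 ≤ ℓ + m by linarith only [hℓ0, hm0])
  have h6 := mul_le_mul_of_nonneg_right h4 (show 0 ≤ 2 * Real.log 3 by linarith only [hlog30])
  have h7 : 3 * γ * (ℓ + m) ≤ ε * (ℓ + m) :=
    mul_le_mul_of_nonneg_right (by rw [hγ]; linarith only [hε])
      (by linarith only [hℓ0, hm0])
  have h8 : Real.log (γ / 3) ≤ -(2 * Real.log 3) := by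
    have h9 : Real.log (1 / 9) = -(2 * Real.log 3) := by
      rw [one_div, Real.log_inv, show (9 : ℝ) = 3 ^ 2 by norm_num, Real.log_pow]
      push_cast
      ring
    rw [← h9]
    exact Real.log_le_log (by positivity) (by linarith only [hγ8])
  nlinarith only [h5, h6, h7, h8]

end Pool.Agent.Y359.PE
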