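import Mathlib
import Pool.Agent.Y359.PE.Pair

/-!
# Products of two sets in which every prime power divides few elements
-/

set_option autoImplicit false

namespace Pool.Agent.Y359.PE

open Finset
open scoped Classical Pointwise

/-- removing the elements divisible by high powers of small primes -/
lemma reduce {K : ℝ} (hK : 1 ≤ K) {m : ℕ} (hm4 : 4 * K ≤ m) (hm1 : 4 ≤ m) (A : Finset ℤ)
    (hA : A.Nonempty) (hq : ∀ q : ℕ, IsPrimePow q →
      ((A.filter fun a : ℤ => (q : ℤ) ∣ a).card : ℝ) ≤ (K / q + 1 / (m : ℝ) ^ 2) * A.card) :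
    ∃ A₁ ⊆ A, (0 : ℤ) ∉ A₁ ∧ (A.card : ℝ) ≤ 2 * A₁.card ∧
      (∀ a ∈ A₁, ∀ p ∈ (range (m + 1)).filter Nat.Prime, fa a p < m ^ 2) ∧
      ∀ p : ℕ, p.Prime → p ∉ (range (m + 1)).filter Nat.Prime →
        (m : ℝ) / (4 * K) * ((A₁.filter fun a => fa a p ≠ (0 : ℕ)).card : ℝ) ≤ A₁.card := by
  have hm0 : (0 : ℝ) < m := by linarith
  set P : Finset ℕ := (range (m + 1)).filter Nat.Prime with hP
  set J : ℕ := m ^ 2 with hJ
  have hN0 : (0 : ℝ) < A.card := by exact_mod_cast card_pos.2 hA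
  set R : Finset ℤ := P.biUnion fun p => A.filter fun a : ℤ => ((p ^ J : ℕ) : ℤ) ∣ a with hR
  have hRc : (R.card : ℝ) ≤ A.card / 2 := by
    have h1 : (R.card : ℝ) ≤ ∑ p ∈ P, ((A.filter fun a : ℤ => ((p ^ J : ℕ) : ℤ) ∣ a).card : ℝ) := by
      exact_mod_cast card_biUnion_le
    have h2 : ∀ p ∈ P, ((A.filter fun a : ℤ => ((p ^ J : ℕ) : ℤ) ∣ a).card : ℝ) ≤
        2 * K / (m : ℝ) ^ 2 * A.card := by
      intro p hp
      have hpp : p.Prime := (mem_filter.1 hp).2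
      have hJ0 : J ≠ 0 := by
        rw [hJ]
        exact pow_ne_zero _ (by omega)
      have h3 := hq (p ^ J) (hpp.isPrimePow.pow hJ0)
      refine h3.trans ?_
      have h4 : (m : ℝ) ^ 2 ≤ ((p ^ J : ℕ) : ℝ) := by
        have h5 : J ≤ p ^ J := (Nat.lt_pow_self hpp.one_lt).le
        have h6 : m ^ 2 ≤ p ^ J := by
          rw [← hJ]
          exact h5
        exact_mod_cast h6
      have h7 : K / ((p ^ J : ℕ) : ℝ) ≤ K / (m : ℝ) ^ 2 :=
        div_le_div_of_nonneg_left (by linarith) (by positivity) h4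
      have h8 : 1 / (m : ℝ) ^ 2 ≤ K / (m : ℝ) ^ 2 := by gcongr
      have h9 : K / ((p ^ J : ℕ) : ℝ) + 1 / (m : ℝ) ^ 2 ≤ 2 * K / (m : ℝ) ^ 2 := by
        have : 2 * K / (m : ℝ) ^ 2 = K / (m : ℝ) ^ 2 + K / (m : ℝ) ^ 2 := by ring
        linarith
      exact mul_le_mul_of_nonneg_right h9 hN0.le
    have hPc : (P.card : ℝ) ≤ m := by
      have h10 : P ⊆ (range (m + 1)).erase 0 := by
        intro p hp
        rw [mem_erase]
        exact ⟨(mem_filter.1 hp).2.ne_zero, (mem_filter.1 hp).1⟩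
      have h11 := card_le_card h10
      rw [card_erase_of_mem (mem_range.2 (by omega)), card_range] at h11
      exact_mod_cast h11
    have h12 := h1.trans (sum_le_sum h2)
    rw [sum_const, nsmul_eq_mul] at h12
    refine h12.trans ?_
    have h13 : (P.card : ℝ) * (2 * K / (m : ℝ) ^ 2 * A.card) ≤
        m * (2 * K / (m : ℝ) ^ 2 * A.card) := mul_le_mul_of_nonneg_right hPc (by positivity)
    refine h13.trans ?_
    have h14 : m * (2 * K / (m : ℝ) ^ 2 * A.card) = (2 * K / m) * A.card := by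
      field_simp
    rw [h14]
    have h15 : 2 * K / m ≤ 1 / 2 := by
      rw [div_le_iff₀ hm0]
      linarith
    nlinarith only [h15, hN0]
  set A₁ := A \ R with hA₁
  have hA₁A : A₁ ⊆ A := sdiff_subset
  have hcard : (A.card : ℝ) / 2 ≤ A₁.card := by
    have h1 : A.card - R.card ≤ A₁.card := le_card_sdiff _ _
    have h2 : (A.card : ℝ) ≤ A₁.card + R.card := by
      have : A.card ≤ A₁.card + R.card := by omega
      exact_mod_cast this
    linarith
  have h2P : 2 ∈ P := mem_filter.2 ⟨mem_range.2 (by omega), Nat.prime_two⟩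
  have hnotR : ∀ a ∈ A₁, ∀ p ∈ P, ¬ ((p ^ J : ℕ) : ℤ) ∣ a := by
    intro a ha p hp hd
    rw [hA₁, mem_sdiff] at ha
    exact ha.2 (mem_biUnion.2 ⟨p, hp, mem_filter.2 ⟨ha.1, hd⟩⟩)
  have h0 : (0 : ℤ) ∉ A₁ := fun h => hnotR 0 h 2 h2P (dvd_zero _)
  refine ⟨A₁, hA₁A, h0, by linarith, ?_, ?_⟩
  · intro a ha p hp
    by_contra h
    have ha0 : a ≠ 0 := fun hh => h0 (hh ▸ ha)
    exact hnotR a ha p hp ((le_fa_iff ha0 (mem_filter.1 hp).2 J).1 (not_lt.1 h))
  · intro p hpp hpP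
    have hpm : m < p := by
      by_contra h
      exact hpP (mem_filter.2 ⟨mem_range.2 (by omega), hpp⟩)
    have h1 := hq p hpp.isPrimePow
    have h2 : ((A₁.filter fun a => fa a p ≠ (0 : ℕ)).card : ℝ) ≤
        ((A.filter fun a : ℤ => (p : ℤ) ∣ a).card : ℝ) := by
      have : (A₁.filter fun a => fa a p ≠ (0 : ℕ)) ⊆ A.filter fun a : ℤ => (p : ℤ) ∣ a := by
        intro a ha
        rw [mem_filter] at ha ⊢
        refine ⟨hA₁A ha.1, ?_⟩
        have ha0 : a ≠ 0 := fun hh => h0 (hh ▸ ha.1)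
        have := (le_fa_iff ha0 hpp 1).1 (Nat.one_le_iff_ne_zero.2 ha.2)
        simpa using this
      exact_mod_cast card_le_card this
    have h3 : K / (p : ℝ) + 1 / (m : ℝ) ^ 2 ≤ 2 * K / m := by
      have h4 : K / (p : ℝ) ≤ K / m :=
        div_le_div_of_nonneg_left (by linarith) hm0 (by exact_mod_cast hpm.le)
      have h5 : 1 / (m : ℝ) ^ 2 ≤ K / m := by
        rw [div_le_div_iff₀ (by positivity) hm0]
        have : (1 : ℝ) ≤ m := by linarith
        nlinarith [mul_le_mul_of_nonneg_right hK (show (0 : ℝ) ≤ (m : ℝ) ^ 2 by positivity)]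
      have : 2 * K / (m : ℝ) = K / m + K / m := by ring
      linarith
    have h6 : ((A₁.filter fun a => fa a p ≠ (0 : ℕ)).card : ℝ) ≤ 2 * K / m * A.card :=
      h2.trans (h1.trans (mul_le_mul_of_nonneg_right h3 hN0.le))
    have h7 := mul_le_mul_of_nonneg_left h6 (show 0 ≤ (m : ℝ) / (4 * K) by positivity)
    refine h7.trans ?_
    have h8 : (m : ℝ) / (4 * K) * (2 * K / m * A.card) = A.card / 2 := by
      field_simp
      ring
    rw [h8]
    exact hcard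

/-- the number of the `P`-parts with bounded exponents -/
lemma card_pt_le (A : Finset ℤ) (P : Finset ℕ) (J : ℕ) (hJ : ∀ a ∈ A, ∀ p ∈ P, fa a p < J) :
    (A.image (pt P)).card ≤ J ^ P.card := by
  have h1 : A.image (pt P) ⊆ (P.pi fun _ => range J).image fun g =>
      ∏ p : P, (p : ℕ) ^ g p.1 p.2 := by
    intro x hx
    obtain ⟨a, ha, rfl⟩ := mem_image.1 hx
    refine mem_image.2 ⟨fun p _ => fa a p, Finset.mem_pi.2 fun p hp =>
      mem_range.2 (hJ a ha p hp), ?_⟩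
    unfold pt
    rw [← prod_coe_sort P]
  refine (card_le_card h1).trans (card_image_le.trans (le_of_eq ?_))
  rw [card_pi, prod_const, card_range]

/-- **Two sets in which every prime power divides few elements.** -/
theorem pair_primepow (K ε : ℝ) (hK : 1 ≤ K) (hε : 0 < ε) (hε1 : ε ≤ 1) :
    ∃ L c : ℝ, 1 ≤ L ∧ 0 < c ∧ ∀ A B : Finset ℤ, A.Nonempty → B.Nonempty →
      (∀ q : ℕ, IsPrimePow q →
        ((A.filter fun a : ℤ => (q : ℤ) ∣ a).card : ℝ) ≤ (K / q + 1 / L) * A.card) →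
      (∀ q : ℕ, IsPrimePow q →
        ((B.filter fun a : ℤ => (q : ℤ) ∣ a).card : ℝ) ≤ (K / q + 1 / L) * B.card) →
      c * ((A.card : ℝ) * B.card) ^ (1 - ε) ≤ (A * B).card := by
  have hlim : Filter.Tendsto (fun n : ℕ => Real.log ((n : ℝ) / (4 * K))) Filter.atTop
      Filter.atTop :=
    Real.tendsto_log_atTop.comp (tendsto_natCast_atTop_atTop.atTop_div_const (by positivity))
  obtain ⟨M, hM⟩ := (Filter.tendsto_atTop.1 hlim (6 + 5 / ε)).exists_forall_of_atTop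
  set m : ℕ := max M (⌈4 * K⌉₊ + 4) with hm
  have hmM : M ≤ m := le_max_left _ _
  have hm4 : 4 * K ≤ m := (Nat.le_ceil _).trans (by
    have : ⌈4 * K⌉₊ ≤ m := by omega
    exact_mod_cast this)
  have hlog := hM m hmM
  have hm0 : (0 : ℝ) < m := by linarith
  have hm1 : 4 ≤ m := by omega
  have h5ε : 0 < 5 / ε := by positivity
  have hl5 : 5 < Real.log ((m : ℝ) / (4 * K)) := by linarith
  have hΛ0 : 0 < (m : ℝ) / (4 * K) := by positivity
  have hΛ1 : 1 < (m : ℝ) / (4 * K) := by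
    by_contra h
    have := Real.log_nonpos hΛ0.le (not_lt.1 h)
    linarith
  have hle : 5 / Real.log ((m : ℝ) / (4 * K)) ≤ ε := by
    rw [div_le_iff₀ (by linarith)]
    have h1 : 5 / ε ≤ Real.log ((m : ℝ) / (4 * K)) := by linarith
    rw [div_le_iff₀ hε] at h1
    linarith
  set P : Finset ℕ := (range (m + 1)).filter Nat.Prime with hP
  set D : ℝ := ((m ^ 2 : ℕ) : ℝ) ^ P.card with hD
  have hD1 : 1 ≤ D := by
    refine one_le_pow₀ ?_
    exact_mod_cast Nat.one_le_pow _ _ (by omega)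
  refine ⟨(m : ℝ) ^ 2, 1 / (16 * D ^ 2), ?_, by positivity, ?_⟩
  · have : (1 : ℝ) ≤ m := by linarith
    nlinarith
  intro A B hA hB hqA hqB
  obtain ⟨A₁, hA₁, hA0, hAc, hAJ, hAp⟩ := reduce hK hm4 hm1 A hA hqA
  obtain ⟨B₁, hB₁, hB0, hBc, hBJ, hBp⟩ := reduce hK hm4 hm1 B hB hqB
  have hAr : (1 : ℝ) ≤ A.card := by exact_mod_cast card_pos.2 hA
  have hBr : (1 : ℝ) ≤ B.card := by exact_mod_cast card_pos.2 hB
  have hA₁n : A₁.Nonempty := card_pos.1 (by
    have : (0 : ℝ) < A₁.card := by linarith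
    exact_mod_cast this)
  have hB₁n : B₁.Nonempty := card_pos.1 (by
    have : (0 : ℝ) < B₁.card := by linarith
    exact_mod_cast this)
  have main := pair_parts ((m : ℝ) / (4 * K)) hΛ1 A₁ B₁ hA₁n hB₁n hA0 hB0 P
    (fun p hp => (mem_filter.1 hp).2)
    (fun p hp hpP => Exists.intro (0 : ℕ) (hAp p hp hpP))
    (fun p hp hpP => Exists.intro (0 : ℕ) (hBp p hp hpP))
  have hDA : ((A₁.image (pt P)).card : ℝ) ≤ D := by
    rw [hD]
    exact_mod_cast card_pt_le A₁ P (m ^ 2) hAJ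
  have hDB : ((B₁.image (pt P)).card : ℝ) ≤ D := by
    rw [hD]
    exact_mod_cast card_pt_le B₁ P (m ^ 2) hBJ
  have hsub : ((A₁ * B₁).card : ℝ) ≤ (A * B).card := by
    exact_mod_cast card_le_card (mul_subset_mul hA₁ hB₁)
  have hA₁r : (1 : ℝ) ≤ A₁.card := by exact_mod_cast card_pos.2 hA₁n
  have hB₁r : (1 : ℝ) ≤ B₁.card := by exact_mod_cast card_pos.2 hB₁n
  have h1 : 1 ≤ (A₁.card : ℝ) * B₁.card := by nlinarith only [hA₁r, hB₁r]
  have h2 : ((A₁.card : ℝ) * B₁.card) ^ (1 - ε) ≤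
      ((A₁.card : ℝ) * B₁.card) ^ (1 - 5 / Real.log ((m : ℝ) / (4 * K))) :=
    Real.rpow_le_rpow_of_exponent_le h1 (by linarith)
  have h3 : ((A.card : ℝ) * B.card) ^ (1 - ε) ≤
      4 * ((A₁.card : ℝ) * B₁.card) ^ (1 - ε) := by
    have h4 : (A.card : ℝ) * B.card ≤ 4 * ((A₁.card : ℝ) * B₁.card) := by
      have := mul_le_mul hAc hBc (by linarith) (show (0 : ℝ) ≤ 2 * A₁.card by linarith)
      linarith
    have h5 := Real.rpow_le_rpow (by positivity) h4 (show 0 ≤ 1 - ε by linarith)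
    rw [Real.mul_rpow (show (0 : ℝ) ≤ 4 by norm_num)
      (show (0 : ℝ) ≤ (A₁.card : ℝ) * B₁.card by positivity)] at h5
    refine h5.trans (mul_le_mul_of_nonneg_right ?_ (by positivity))
    have := Real.rpow_le_rpow_of_exponent_le (show (1 : ℝ) ≤ 4 by norm_num)
      (show 1 - ε ≤ 1 by linarith)
    rwa [Real.rpow_one] at this
  have h6 : 4 * ((A₁.image (pt P)).card : ℝ) * (B₁.image (pt P)).card * (A₁ * B₁).card ≤
      4 * D ^ 2 * (A * B).card := by
    have e1 : ((A₁.image (pt P)).card : ℝ) * (B₁.image (pt P)).card ≤ D * D :=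
      mul_le_mul hDA hDB (by positivity) (by positivity)
    have e2 : ((A₁.image (pt P)).card : ℝ) * (B₁.image (pt P)).card * (A₁ * B₁).card ≤
        D * D * (A * B).card := mul_le_mul e1 hsub (by positivity) (by positivity)
    nlinarith only [e2]
  rw [one_div, inv_mul_le_iff₀ (by positivity)]
  linarith

/-- **Runs.** -/
theorem pair_runs (ε : ℝ) (hε : 0 < ε) (hε1 : ε ≤ 1) :
    ∃ (L : ℕ) (c : ℝ), 1 ≤ L ∧ 0 < c ∧ ∀ A B : Finset ℤ, A.Nonempty → B.Nonempty →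
      (∀ a ∈ A, ∃ x : ℤ, x ≤ a ∧ a < x + L ∧ Ico x (x + L) ⊆ A) →
      (∀ b ∈ B, ∃ x : ℤ, x ≤ b ∧ b < x + L ∧ Ico x (x + L) ⊆ B) →
      c * ((A.card : ℝ) * B.card) ^ (1 - ε) ≤ (A * B).card := by
  obtain ⟨L, c, hL, hc, h⟩ := pair_primepow 2 ε (by norm_num) hε hε1
  refine ⟨⌈L⌉₊, c, Nat.one_le_ceil_iff.2 (by linarith), hc, fun A B hA hB hrA hrB => ?_⟩
  have hL0 : 0 < ⌈L⌉₊ := Nat.ceil_pos.2 (by linarith)
  have h1 : 1 / ((⌈L⌉₊ : ℕ) : ℝ) ≤ 1 / L := one_div_le_one_div_of_le (by linarith) (Nat.le_ceil _)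
  refine h A B hA hB (fun q hq => ?_) (fun q hq => ?_)
  · refine (mult_runs A ⌈L⌉₊ hL0 hrA q hq.pos).trans ?_
    exact mul_le_mul_of_nonneg_right (by linarith) (by positivity)
  · refine (mult_runs B ⌈L⌉₊ hL0 hrB q hq.pos).trans ?_
    exact mul_le_mul_of_nonneg_right (by linarith) (by positivity)

/-- `S + {0, ..., L-1}` consists of runs -/
lemma run_of_shift (S : Finset ℤ) (L : ℕ) : ∀ a ∈ (S ×ˢ range L).image (fun s => s.1 + (s.2 : ℤ)),
    ∃ x : ℤ, x ≤ a ∧ a < x + L ∧ Ico x (x + L) ⊆ (S ×ˢ range L).image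
      fun s => s.1 + (s.2 : ℤ) := by
  intro a ha
  obtain ⟨s, hs, rfl⟩ := mem_image.1 ha
  rw [mem_product, mem_range] at hs
  refine ⟨s.1, by linarith [Int.natCast_nonneg s.2], by
    have : (s.2 : ℤ) < L := by exact_mod_cast hs.2
    linarith, ?_⟩
  intro y hy
  rw [mem_Ico] at hy
  refine mem_image.2 ⟨(s.1, (y - s.1).toNat), mem_product.2 ⟨hs.1, mem_range.2 ?_⟩, ?_⟩
  · have : ((y - s.1).toNat : ℤ) < L := by
      rw [Int.toNat_of_nonneg (by linarith)]
      linarith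
    exact_mod_cast this
  · show s.1 + ((y - s.1).toNat : ℤ) = y
    rw [Int.toNat_of_nonneg (by linarith)]
    ring

/-- **Shifts of two arbitrary sets.** -/
theorem pair_shifts (ε : ℝ) (hε : 0 < ε) (hε1 : ε ≤ 1) :
    ∃ (L : ℕ) (c : ℝ), 0 < c ∧ ∀ S R : Finset ℤ, S.Nonempty → R.Nonempty →
      ∃ s < L, ∃ r < L, c * ((S.card : ℝ) * R.card) ^ (1 - ε) ≤
        (((S.image fun x => x + (s : ℤ)) * (R.image fun x => x + (r : ℤ))).card : ℝ) := by
  obtain ⟨L, c, hL, hc, h⟩ := pair_runs ε hε hε1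
  have hLr : (0 : ℝ) < L := by exact_mod_cast hL
  refine ⟨L, c / (L : ℝ) ^ 2, by positivity, fun S R hS hR => ?_⟩
  set A : Finset ℤ := (S ×ˢ range L).image fun s => s.1 + (s.2 : ℤ) with hA
  set B : Finset ℤ := (R ×ˢ range L).image fun s => s.1 + (s.2 : ℤ) with hB
  have hsub : ∀ S : Finset ℤ, S ⊆ (S ×ˢ range L).image fun s => s.1 + (s.2 : ℤ) := by
    intro S s hs
    exact mem_image.2 ⟨(s, 0), mem_product.2 ⟨hs, mem_range.2 hL⟩, by simp⟩
  have h1 := h A B (hS.mono (hsub S)) (hR.mono (hsub R)) (run_of_shift S L) (run_of_shift R L)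
  have h2 : ((S.card : ℝ) * R.card) ^ (1 - ε) ≤ ((A.card : ℝ) * B.card) ^ (1 - ε) := by
    refine Real.rpow_le_rpow (by positivity) ?_ (by linarith)
    have e1 : (S.card : ℝ) ≤ A.card := by exact_mod_cast card_le_card (hsub S)
    have e2 : (R.card : ℝ) ≤ B.card := by exact_mod_cast card_le_card (hsub R)
    exact mul_le_mul e1 e2 (by positivity) (by positivity)
  have h3 : A * B ⊆ (range L ×ˢ range L).biUnion fun t =>
      (S.image fun x => x + (t.1 : ℤ)) * (R.image fun x => x + (t.2 : ℤ)) := by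
    intro v hv
    obtain ⟨a, ha, b, hb, rfl⟩ := mem_mul.1 hv
    obtain ⟨u, hu, rfl⟩ := mem_image.1 ha
    obtain ⟨w, hw, rfl⟩ := mem_image.1 hb
    rw [mem_product] at hu hw
    rw [mem_biUnion]
    exact ⟨(u.2, w.2), mem_product.2 ⟨hu.2, hw.2⟩, mul_mem_mul
      (mem_image.2 ⟨u.1, hu.1, rfl⟩) (mem_image.2 ⟨w.1, hw.1, rfl⟩)⟩
  have h4 : ((A * B).card : ℝ) ≤ ∑ t ∈ range L ×ˢ range L,
      (((S.image fun x => x + (t.1 : ℤ)) * (R.image fun x => x + (t.2 : ℤ))).card : ℝ) := by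
    exact_mod_cast (card_le_card h3).trans card_biUnion_le
  by_contra hcon
  push Not at hcon
  have h5 : ∑ t ∈ range L ×ˢ range L,
      (((S.image fun x => x + (t.1 : ℤ)) * (R.image fun x => x + (t.2 : ℤ))).card : ℝ) <
      ∑ t ∈ range L ×ˢ range L, c / (L : ℝ) ^ 2 * ((S.card : ℝ) * R.card) ^ (1 - ε) := by
    refine sum_lt_sum_of_nonempty ?_ ?_
    · exact ⟨(0, 0), mem_product.2 ⟨mem_range.2 hL, mem_range.2 hL⟩⟩
    · intro t ht
      rw [mem_product, mem_range, mem_range] at ht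
      exact hcon t.1 ht.1 t.2 ht.2
  rw [sum_const, nsmul_eq_mul, card_product, card_range] at h5
  push_cast at h5
  have h6 : (L : ℝ) * L * (c / (L : ℝ) ^ 2 * ((S.card : ℝ) * R.card) ^ (1 - ε)) =
      c * ((S.card : ℝ) * R.card) ^ (1 - ε) := by
    field_simp
  rw [h6] at h5
  have h7 := mul_le_mul_of_nonneg_left h2 hc.le
  linarith

end Pool.Agent.Y359.PE
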